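import Mathlib
import Pool.Agent.Helper832.AutC.Burnside
import Pool.Agent.Helper832.AutC.Suff

/-!
Finite p-groups with `|Aut_c(G)| = |γ₂(G)|^d`: basic facts.
-/

set_option autoImplicit false

open scoped commutatorElement

namespace Pool.Agent.Run7.h548.AC

open Pool.Agent.Helper832.AutC

/-- every choice of images `x_i u_i`, `u_i ∈ γ₂(G)`, of a generating family of length `d` is realised
by a class-preserving endomorphism -/
def Real (d : ℕ) (G : Type) [Group G] : Prop :=
  ∀ x : Fin d → G, Subgroup.closure (Set.range x) = ⊤ →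
    ∀ u : Fin d → G, (∀ i, u i ∈ commutator G) →
      ∃ α : G →* G, (∀ g, IsConj g (α g)) ∧ ∀ i, α (x i) = x i * u i

section

variable {G : Type} [Group G]

theorem comm_mem (a b : G) : ⁅a, b⁆ ∈ commutator G :=
  Subgroup.commutator_mem_commutator (Subgroup.mem_top _) (Subgroup.mem_top _)

theorem conj_diff {x y : G} (h : IsConj x y) : x⁻¹ * y ∈ commutator G := by
  obtain ⟨c, hc⟩ := isConj_iff.mp h
  have : x⁻¹ * y = ⁅x⁻¹, c⁆ := by rw [← hc, commutatorElement_def]; group
  rw [this]
  exact comm_mem _ _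

theorem card_eq_iff [Finite G] {d : ℕ} (x : Fin d → G)
    (hx : Subgroup.closure (Set.range x) = ⊤) :
    Nat.card (AutC G) = Nat.card (commutator G) ^ d ↔
      ∀ u : Fin d → G, (∀ i, u i ∈ commutator G) → ∃ α ∈ AutC G, ∀ i, α (x i) = x i * u i := by
  classical
  let Φ : AutC G → (Fin d → commutator G) :=
    fun α i => ⟨(x i)⁻¹ * α.1 (x i), conj_diff (α.2 (x i))⟩
  have hinj : Function.Injective Φ := by
    intro α β h
    apply Subtype.ext
    have h1 : (α.1 : G →* G) = (β.1 : G →* G) := by
      refine MonoidHom.eq_of_eqOn_dense hx ?_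
      rintro _ ⟨i, rfl⟩
      have h2 := congrArg Subtype.val (congrFun h i)
      exact mul_left_cancel h2
    exact MulEquiv.ext (fun g => DFunLike.congr_fun h1 g)
  have hcard : Nat.card (Fin d → commutator G) = Nat.card (commutator G) ^ d := by
    rw [Nat.card_fun, Nat.card_fin]
  constructor
  · intro h u hu
    have h1 : Nat.card (Fin d → commutator G) ≤ Nat.card (AutC G) := by
      rw [hcard]; exact h.ge
    have hbij : Function.Bijective Φ := hinj.bijective_of_nat_card_le h1
    obtain ⟨α, hα⟩ := hbij.2 (fun i => ⟨u i, hu i⟩)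
    refine ⟨α.1, α.2, fun i => ?_⟩
    have h2 : (x i)⁻¹ * α.1 (x i) = u i := congrArg Subtype.val (congrFun hα i)
    rw [← h2]; group
  · intro h
    have hbij : Function.Bijective Φ := by
      refine ⟨hinj, fun u => ?_⟩
      obtain ⟨α, hα, hα'⟩ := h (fun i => (u i).1) (fun i => (u i).2)
      refine ⟨⟨α, hα⟩, funext (fun i => Subtype.ext ?_)⟩
      show (x i)⁻¹ * α (x i) = (u i).1
      rw [hα' i]; group
    rw [← hcard]
    exact Nat.card_eq_of_bijective Φ hbij

theorem rank_gen [Finite G] :
    ∃ x : Fin (Group.rank G) → G, Subgroup.closure (Set.range x) = ⊤ := by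
  obtain ⟨S, hS, hcl⟩ := Group.rank_spec G
  let e : Fin (Group.rank G) ≃ S := (Fin.castOrderIso hS.symm).toEquiv.trans S.equivFin.symm
  refine ⟨fun i => (e i : G), ?_⟩
  have : Set.range (fun i => (e i : G)) = (S : Set G) := by
    ext g
    constructor
    · rintro ⟨i, rfl⟩
      exact (e i).2
    · intro hg
      exact ⟨e.symm ⟨g, hg⟩, by simp⟩
  rw [this, hcl]

/-- the Frattini quotient as a commutative group -/
theorem exchange {p : ℕ} [hp : Fact p.Prime] [Finite G] (hG : IsPGroup p G) {d : ℕ}
    (x : Fin d → G) (hx : Subgroup.closure (Set.range x) = ⊤) (g : G) (hg : g ∉ frattini G) :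
    ∃ j, Subgroup.closure (Set.range (Function.update x j g)) = ⊤ := by
  classical
  obtain ⟨hF1, hF2⟩ := frattini_facts hG
  let V := G ⧸ frattini G
  letI : CommGroup V :=
    { (inferInstance : Group (G ⧸ frattini G)) with
      mul_comm := by
        intro a b
        obtain ⟨a, rfl⟩ := QuotientGroup.mk'_surjective (frattini G) a
        obtain ⟨b, rfl⟩ := QuotientGroup.mk'_surjective (frattini G) b
        rw [← commutatorElement_eq_one_iff_mul_comm, ← map_commutatorElement]
        exact (QuotientGroup.eq_one_iff _).mpr (hF1 a b) }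
  let π : G →* V := QuotientGroup.mk' (frattini G)
  have hπs : Function.Surjective π := QuotientGroup.mk'_surjective (frattini G)
  have hπ1 : ∀ a, π a = 1 ↔ a ∈ frattini G := fun a => QuotientGroup.eq_one_iff _
  have hexp : ∀ v : V, v ^ p = 1 := by
    intro v
    obtain ⟨a, rfl⟩ := hπs v
    rw [← map_pow]
    exact (QuotientGroup.eq_one_iff _).mpr (hF2 a)
  have hgenV : Subgroup.closure (Set.range (fun i => π (x i))) = ⊤ := by
    have e1 : Set.range (fun i => π (x i)) = π '' Set.range x := Set.range_comp π x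
    rw [e1, ← MonoidHom.map_closure, hx, Subgroup.map_top_of_surjective _ hπs]
  obtain ⟨a, ha⟩ := exists_exp (fun i => π (x i)) (π g) (by rw [hgenV]; exact Subgroup.mem_top _)
  obtain ⟨j, hj⟩ : ∃ j, ¬ (p : ℤ) ∣ a j := by
    by_contra hcon
    push Not at hcon
    apply hg
    rw [← hπ1, ha]
    refine Finset.prod_eq_one (fun i _ => ?_)
    obtain ⟨c, hc⟩ := hcon i
    rw [hc, zpow_mul, zpow_natCast, hexp, one_zpow]
  refine ⟨j, ?_⟩
  set H := Subgroup.closure (Set.range (Function.update x j g)) with hH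
  have hmem : ∀ i, i ≠ j → x i ∈ H := by
    intro i hij
    exact Subgroup.subset_closure ⟨i, by rw [Function.update_of_ne hij]⟩
  have hgm : g ∈ H := Subgroup.subset_closure ⟨j, by rw [Function.update_self]⟩
  have h1 : H ⊔ frattini G = ⊤ := by
    have hxj : π (x j) ∈ H.map π := by
      have h4 : IsCoprime (a j) (p : ℤ) := by
        rw [isCoprime_comm]
        exact (Prime.coprime_iff_not_dvd (Nat.prime_iff_prime_int.mp hp.out)).mpr hj
      obtain ⟨r, s, hrs⟩ := h4
      have h5 : π (x j) = (π (x j) ^ a j) ^ r := by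
        rw [← zpow_mul]
        have e2 : a j * r = 1 + (p : ℤ) * (-s) := by linarith
        rw [e2, zpow_add, zpow_one, zpow_mul, zpow_natCast, hexp, one_zpow, mul_one]
      have h6 : π (x j) ^ a j = π g * (∏ i ∈ Finset.univ.erase j, π (x i) ^ a i)⁻¹ := by
        rw [ha, ← Finset.mul_prod_erase Finset.univ (fun i => π (x i) ^ a i) (Finset.mem_univ j)]
        group
      rw [h5, h6]
      refine zpow_mem (mul_mem (Subgroup.mem_map_of_mem π hgm) (inv_mem ?_)) r
      refine Subgroup.prod_mem _ (fun i hi => zpow_mem ?_ _)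
      exact Subgroup.mem_map_of_mem π (hmem i (Finset.ne_of_mem_erase hi))
    obtain ⟨h, hh, hhj⟩ := hxj
    have e2 : h⁻¹ * x j ∈ frattini G := QuotientGroup.eq.mp hhj
    rw [eq_top_iff, ← hx, Subgroup.closure_le]
    rintro _ ⟨i, rfl⟩
    by_cases hij : i = j
    · subst hij
      have e4 : x i = h * (h⁻¹ * x i) := by group
      rw [e4]
      exact mul_mem ((le_sup_left : _ ≤ H ⊔ frattini G) hh)
        ((le_sup_right : _ ≤ H ⊔ frattini G) e2)
    · exact (le_sup_left : _ ≤ H ⊔ frattini G) (hmem i hij)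
  exact frattini_nongenerating h1

theorem real_of_card [Finite G] (h : Nat.card (AutC G) = Nat.card (commutator G) ^ Group.rank G) :
    Real (Group.rank G) G := by
  intro x hx u hu
  obtain ⟨α, hα, hα'⟩ := (card_eq_iff x hx).mp h u hu
  exact ⟨(α : G →* G), fun g => hα g, hα'⟩

theorem conj_of_real {p : ℕ} [hp : Fact p.Prime] [Finite G] (hG : IsPGroup p G) {d : ℕ}
    (x : Fin d → G) (hx : Subgroup.closure (Set.range x) = ⊤) (h : Real d G)
    (g : G) (hg : g ∉ frattini G) (c : G) (hc : c ∈ commutator G) : IsConj g (g * c) := by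
  classical
  obtain ⟨j, hj⟩ := exchange hG x hx g hg
  obtain ⟨α, hα, hα'⟩ := h _ hj (Function.update 1 j c) (by
    intro i
    by_cases hij : i = j
    · subst hij; simpa using hc
    · rw [Function.update_of_ne hij]; exact one_mem _)
  have h1 := hα' j
  rw [Function.update_self, Function.update_self] at h1
  rw [← h1]
  exact hα g

theorem comm_le_frattini {p : ℕ} [hp : Fact p.Prime] [Finite G] (hG : IsPGroup p G) :
    commutator G ≤ frattini G := by
  rw [commutator_def, Subgroup.commutator_le]
  intro a _ b _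
  exact (frattini_facts hG).1 a b

theorem gen_lift {p : ℕ} [hp : Fact p.Prime] [Finite G] (hG : IsPGroup p G)
    (N : Subgroup G) [N.Normal] (hN : N ≤ commutator G) (S : Set G)
    (hS : Subgroup.closure ((QuotientGroup.mk' N) '' S) = ⊤) : Subgroup.closure S = ⊤ := by
  apply frattini_nongenerating
  rw [← MonoidHom.map_closure] at hS
  have h1 : Subgroup.closure S ⊔ N = ⊤ := by
    rw [eq_top_iff]
    intro g _
    have h2 : QuotientGroup.mk' N g ∈ (Subgroup.closure S).map (QuotientGroup.mk' N) := by
      rw [hS]; exact Subgroup.mem_top _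
    obtain ⟨k, hk, hkg⟩ := h2
    have h3 : k⁻¹ * g ∈ N := QuotientGroup.eq.mp hkg
    have h4 : g = k * (k⁻¹ * g) := by group
    rw [h4]
    exact mul_mem ((le_sup_left : _ ≤ Subgroup.closure S ⊔ N) hk)
      ((le_sup_right : _ ≤ Subgroup.closure S ⊔ N) h3)
  rw [eq_top_iff, ← h1]
  exact sup_le_sup_left (hN.trans (comm_le_frattini hG)) _

theorem map_comm_top (N : Subgroup G) [N.Normal] :
    (commutator G).map (QuotientGroup.mk' N) = commutator (G ⧸ N) := by
  rw [commutator_def, commutator_def, Subgroup.map_commutator,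
    Subgroup.map_top_of_surjective _ (QuotientGroup.mk'_surjective N)]

theorem real_quot {p : ℕ} [hp : Fact p.Prime] [Finite G] (hG : IsPGroup p G) {d : ℕ}
    (h : Real d G) (N : Subgroup G) [hNn : N.Normal] (hN : N ≤ commutator G) :
    Real d (G ⧸ N) := by
  intro xb hxb ub hub
  choose x hx using fun i => QuotientGroup.mk'_surjective N (xb i)
  have h1 : ∀ i, ∃ v ∈ commutator G, QuotientGroup.mk' N v = ub i := by
    intro i
    have := hub i
    rw [← map_comm_top] at this
    exact this
  choose u hu hu' using h1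
  have hgen : Subgroup.closure (Set.range x) = ⊤ := by
    apply gen_lift hG N hN
    rw [← Set.range_comp]
    have : (QuotientGroup.mk' N) ∘ x = xb := funext hx
    rw [this, hxb]
  obtain ⟨α, hα, hα'⟩ := h x hgen u hu
  have hαN : N ≤ N.comap α := by
    intro n hn
    obtain ⟨c, hc⟩ := isConj_iff.mp (hα n)
    show α n ∈ N
    rw [← hc]
    exact hNn.conj_mem n hn c
  refine ⟨QuotientGroup.map N N α hαN, ?_, ?_⟩
  · intro g
    obtain ⟨g, rfl⟩ := QuotientGroup.mk'_surjective N g
    obtain ⟨c, hc⟩ := isConj_iff.mp (hα g)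
    refine isConj_iff.mpr ⟨QuotientGroup.mk' N c, ?_⟩
    have : QuotientGroup.map N N α hαN (QuotientGroup.mk' N g) = QuotientGroup.mk' N (α g) := rfl
    rw [this, ← hc]
    simp
  · intro i
    have e1 : xb i = QuotientGroup.mk' N (x i) := (hx i).symm
    have e2 : QuotientGroup.map N N α hαN (QuotientGroup.mk' N (x i))
        = QuotientGroup.mk' N (α (x i)) := rfl
    rw [e1, e2, hα' i, map_mul, hu' i]

end

end Pool.Agent.Run7.h548.AC
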