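import Mathlib
import Pool.Agent.Run7.h548.AC.A1

/-!
Equality forces nilpotency class at most two or two generators.
-/

set_option autoImplicit false

open scoped commutatorElement

namespace Pool.Agent.Run7.h548.AC

open Pool.Agent.Helper832.AutC

/-- `γ₃(G)` -/
def g3 (G : Type) [Group G] : Subgroup G := ⁅commutator G, (⊤ : Subgroup G)⁆

/-- `γ₄(G)` -/
def g4 (G : Type) [Group G] : Subgroup G := ⁅g3 G, (⊤ : Subgroup G)⁆

section

variable {G : Type} [Group G]

instance : (g3 G).Normal := by unfold g3; infer_instance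
instance : (g4 G).Normal := by unfold g4; infer_instance

theorem g3_le : g3 G ≤ commutator G := by
  unfold g3
  exact Subgroup.commutator_le_left _ _

theorem g4_le : g4 G ≤ g3 G := by
  unfold g4
  exact Subgroup.commutator_le_left _ _

theorem mem_g3 {c : G} (hc : c ∈ commutator G) (g : G) : ⁅c, g⁆ ∈ g3 G :=
  Subgroup.commutator_mem_commutator hc (Subgroup.mem_top _)

theorem mem_g3' {c : G} (hc : c ∈ commutator G) (g : G) : ⁅g, c⁆ ∈ g3 G := by
  rw [← commutatorElement_inv]; exact inv_mem (mem_g3 hc g)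

theorem mem_g4 {c : G} (hc : c ∈ g3 G) (g : G) : ⁅c, g⁆ ∈ g4 G :=
  Subgroup.commutator_mem_commutator hc (Subgroup.mem_top _)

theorem g3_central (h4 : g4 G = ⊥) {c : G} (hc : c ∈ g3 G) (g : G) : c * g = g * c := by
  have h := mem_g4 hc g
  rw [h4, Subgroup.mem_bot] at h
  exact commutatorElement_eq_one_iff_mul_comm.mp h

theorem nil_bot [Group.IsNilpotent G] (N : Subgroup G) (h : N ≤ ⁅N, (⊤ : Subgroup G)⁆) :
    N = ⊥ := by
  obtain ⟨n, hn⟩ := (Subgroup.nilpotent_iff_lowerCentralSeries (G := G)).mp ‹_›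
  have h1 : ∀ k, N ≤ (⊤ : Subgroup G).lowerCentralSeries k := by
    intro k
    induction k with
    | zero => exact le_top
    | succ k ih =>
      refine h.trans ?_
      exact Subgroup.commutator_mono ih le_rfl
  exact le_bot_iff.mp ((h1 n).trans hn.le)

lemma q1 {Q : Type} [Group Q] (X y T : Q) (hT : ∀ q, T * q = q * T) (h : X * y = y * T * X)
    (a : ℤ) : X ^ a * y = y * T ^ a * X ^ a := by
  have h1 : y⁻¹ * X * y = T * X := by
    calc y⁻¹ * X * y = y⁻¹ * (X * y) := by group
      _ = y⁻¹ * (y * T * X) := by rw [h]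
      _ = _ := by group
  have h2 := conj_zpow (i := a) (a := y⁻¹) (b := X)
  rw [inv_inv, h1, Commute.mul_zpow (hT X)] at h2
  calc X ^ a * y = y * (y⁻¹ * X ^ a * y) := by group
    _ = y * (T ^ a * X ^ a) := by rw [← h2]
    _ = _ := by group

lemma q2 {Q : Type} [Group Q] (X y T : Q) (hT : ∀ q, T * q = q * T) (h : X * y = y * T * X)
    (b : ℤ) : X * y ^ b = y ^ b * T ^ b * X := by
  have h1 : X * y * X⁻¹ = y * T := by
    rw [h]; group
  have h2 := conj_zpow (i := b) (a := X) (b := y)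
  rw [h1, Commute.mul_zpow (hT y).symm] at h2
  calc X * y ^ b = (X * y ^ b * X⁻¹) * X := by group
    _ = _ := by rw [← h2]

theorem decomp (K : Subgroup G) (x0 : G) (h : Subgroup.zpowers x0 ⊔ K = ⊤) (g : G) :
    ∃ a : ℤ, ∃ k ∈ K, ∃ t ∈ commutator G, g = x0 ^ a * k * t := by
  have hn : (K ⊔ commutator G).Normal := by
    constructor
    intro m hm g
    have e1 : g * m * g⁻¹ = ⁅g, m⁆ * m := by rw [commutatorElement_def]; group
    rw [e1]
    exact mul_mem ((le_sup_right : _ ≤ K ⊔ commutator G) (comm_mem _ _)) hm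
  have h1 : g ∈ Subgroup.zpowers x0 ⊔ (K ⊔ commutator G) := by
    rw [← sup_assoc, h, top_sup_eq]; exact Subgroup.mem_top _
  have h2 : g ∈ ((Subgroup.zpowers x0 ⊔ (K ⊔ commutator G) : Subgroup G) : Set G) := h1
  rw [Subgroup.mul_normal] at h2
  obtain ⟨a, ha, b, hb, rfl⟩ := h2
  have h3 : b ∈ ((K ⊔ commutator G : Subgroup G) : Set G) := hb
  rw [Subgroup.mul_normal] at h3
  obtain ⟨k, hk, t, ht, rfl⟩ := h3
  obtain ⟨n, rfl⟩ := ha
  exact ⟨n, k, hk, t, ht, by simp only [mul_assoc]⟩

theorem d3a {n : ℕ}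
    (x : Fin (n + 3) → G) (hx : Subgroup.closure (Set.range x) = ⊤) (hR : Real (n + 3) G)
    (h4 : g4 G = ⊥) (i : Fin (n + 3)) (hi : i ≠ 0) (u : G) (hu : u ∈ commutator G) :
    u * x i = x i * u := by
  classical
  set K := Subgroup.closure (x '' {0}ᶜ) with hK
  have hxK : ∀ j, j ≠ 0 → x j ∈ K := fun j hj => Subgroup.subset_closure ⟨j, hj, rfl⟩
  have htop : Subgroup.zpowers (x 0) ⊔ K = ⊤ := by
    rw [eq_top_iff, ← hx, Subgroup.closure_le]
    rintro _ ⟨j, rfl⟩
    by_cases hj : j = 0
    · subst hj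
      exact (le_sup_left : _ ≤ Subgroup.zpowers (x 0) ⊔ K) (Subgroup.mem_zpowers _)
    · exact (le_sup_right : _ ≤ Subgroup.zpowers (x 0) ⊔ K) (hxK j hj)
  set M := ⁅K, K⁆ ⊔ g3 G with hM
  have hKK : ⁅K, K⁆ ≤ commutator G := by
    rw [commutator_def]; exact Subgroup.commutator_mono le_top le_top
  have hMc : M ≤ commutator G := sup_le hKK g3_le
  haveI hMn : M.Normal := by
    constructor
    intro m hm g
    have e1 : g * m * g⁻¹ = ⁅g, m⁆ * m := by rw [commutatorElement_def]; group
    rw [e1]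
    exact mul_mem ((le_sup_right : _ ≤ M) (mem_g3' (hMc hm) g)) hm
  let π := QuotientGroup.mk' M
  have hπ : ∀ g : G, π g = 1 ↔ g ∈ M := fun g => QuotientGroup.eq_one_iff g
  have hcK : ∀ k ∈ K, ∀ k' ∈ K, π k * π k' = π k' * π k := by
    intro k hk k' hk'
    rw [← commutatorElement_eq_one_iff_mul_comm, ← map_commutatorElement, hπ]
    exact (le_sup_left : _ ≤ M) (Subgroup.commutator_mem_commutator hk hk')
  have hcc : ∀ c ∈ commutator G, ∀ q, π c * q = q * π c := by
    intro c hc q
    obtain ⟨g, rfl⟩ := QuotientGroup.mk'_surjective M q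
    rw [← commutatorElement_eq_one_iff_mul_comm]
    show ⁅π c, π g⁆ = 1
    rw [← map_commutatorElement, hπ]
    exact (le_sup_right : _ ≤ M) (mem_g3 hc g)
  -- the commutator with `x 0`
  let T : G → G := fun y => y⁻¹ * x 0 * y * (x 0)⁻¹
  have hT : ∀ y, T y ∈ commutator G := by
    intro y
    have : T y = ⁅y⁻¹, x 0⁆ := by simp only [T, commutatorElement_def]; group
    rw [this]; exact comm_mem _ _
  have hTx : ∀ y, π (x 0) * π y = π y * π (T y) * π (x 0) := by
    intro y
    rw [← map_mul, ← map_mul, ← map_mul]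
    congr 1
    simp only [T]; group
  have hgood : ∀ y ∈ K, (∀ c ∈ commutator G, IsConj y (y * c)) →
      ∀ c ∈ commutator G, ∃ a : ℤ, π c = π (T y) ^ a := by
    intro y hy hyc c hc
    obtain ⟨g, hg⟩ := isConj_iff.mp (hyc c hc)
    obtain ⟨a, k, hk, t, ht, rfl⟩ := decomp K (x 0) htop g
    refine ⟨a, ?_⟩
    have h1 := congrArg π hg
    simp only [map_mul, map_inv, map_zpow] at h1
    have h2 := q1 (π (x 0)) (π y) (π (T y)) (hcc _ (hT y)) (hTx y) a
    have h3 : π (x 0) ^ a * π k * π t * π y * (π (x 0) ^ a * π k * π t)⁻¹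
        = π y * π (T y) ^ a := by
      calc π (x 0) ^ a * π k * π t * π y * (π (x 0) ^ a * π k * π t)⁻¹
          = π (x 0) ^ a * π k * (π t * π y) * (π t)⁻¹ * (π k)⁻¹ * (π (x 0) ^ a)⁻¹ := by group
        _ = π (x 0) ^ a * (π k * π y) * (π k)⁻¹ * (π (x 0) ^ a)⁻¹ := by
            rw [hcc t ht]; group
        _ = (π (x 0) ^ a * π y) * (π (x 0) ^ a)⁻¹ := by rw [hcK k hk y hy]; group
        _ = _ := by rw [h2]; group
    rw [h3] at h1
    exact (mul_left_cancel h1).symm
  have conjK : ∀ j y, j ≠ 0 → Subgroup.closure (Set.range (Function.update x j y)) = ⊤ →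
      ∀ c ∈ commutator G, IsConj y (y * c) := by
    intro j y _ hgen c hc
    obtain ⟨α, hα, hα'⟩ := hR _ hgen (Function.update 1 j c) (by
      intro i
      by_cases hij : i = j
      · subst hij; simpa using hc
      · rw [Function.update_of_ne hij]; exact one_mem _)
    have h1 := hα' j
    rw [Function.update_self, Function.update_self] at h1
    rw [← h1]
    exact hα y
  -- `γ₂ ≤ M`
  have hle : ∀ c ∈ commutator G, π c = 1 := by
    have h10 : (1 : Fin (n + 3)) ≠ 0 := by
      intro h; exact absurd (congrArg Fin.val h) (by simp)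
    have h20 : (2 : Fin (n + 3)) ≠ 0 := by
      intro h
      have := congrArg Fin.val h
      rw [Fin.val_two] at this
      simp at this
    have h21 : (2 : Fin (n + 3)) ≠ 1 := by
      intro h
      have := congrArg Fin.val h
      rw [Fin.val_two, Fin.val_one] at this
      omega
    have g2 := hgood (x 2) (hxK 2 h20) (conjK 2 (x 2) h20 (by rw [Function.update_eq_self, hx]))
    obtain ⟨b, hb⟩ := g2 _ (hT (x 1))
    let y := x 1 * x 2 ^ (-b)
    have hy : y ∈ K := mul_mem (hxK 1 h10) (zpow_mem (hxK 2 h20) _)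
    have hgen : Subgroup.closure (Set.range (Function.update x 1 y)) = ⊤ := by
      rw [eq_top_iff, ← hx, Subgroup.closure_le]
      have hm2 : x 2 ∈ Subgroup.closure (Set.range (Function.update x 1 y)) :=
        Subgroup.subset_closure ⟨2, by rw [Function.update_of_ne h21]⟩
      have hmy : y ∈ Subgroup.closure (Set.range (Function.update x 1 y)) :=
        Subgroup.subset_closure ⟨1, by rw [Function.update_self]⟩
      rintro _ ⟨j, rfl⟩
      by_cases hj : j = 1
      · subst hj
        have e1 : x 1 = y * x 2 ^ b := by simp only [y]; group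
        rw [e1]
        exact mul_mem hmy (zpow_mem hm2 _)
      · exact Subgroup.subset_closure ⟨j, by rw [Function.update_of_ne hj]⟩
    have gy := hgood y hy (conjK 1 y h10 hgen)
    have hT1 : π (T y) = 1 := by
      have e1 := hTx (x 1)
      have e2 := q2 (π (x 0)) (π (x 2)) (π (T (x 2))) (hcc _ (hT _)) (hTx (x 2)) (-b)
      have e3 : π (x 0) * π y = π y * π (x 0) := by
        have e4 : π y = π (x 1) * π (x 2) ^ (-b) := by simp only [y, map_mul, map_zpow]
        have hz : ∀ q, π (T (x 2)) ^ b * q = q * π (T (x 2)) ^ b := fun q =>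
          Commute.zpow_left (hcc _ (hT (x 2)) q) b
        rw [e4]
        calc π (x 0) * (π (x 1) * π (x 2) ^ (-b)) = (π (x 0) * π (x 1)) * π (x 2) ^ (-b) := by
              group
          _ = π (x 1) * π (T (x 1)) * (π (x 0) * π (x 2) ^ (-b)) := by rw [e1]; group
          _ = π (x 1) * (π (T (x 2)) ^ b * (π (x 2) ^ (-b) * π (T (x 2)) ^ (-b) * π (x 0))) := by
              rw [e2, hb]; group
          _ = π (x 1) * ((π (x 2) ^ (-b) * π (T (x 2)) ^ (-b) * π (x 0)) * π (T (x 2)) ^ b) := by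
              rw [hz]
          _ = π (x 1) * (π (x 2) ^ (-b) * π (T (x 2)) ^ (-b) * (π (x 0) * π (T (x 2)) ^ b)) := by
              group
          _ = π (x 1) * (π (x 2) ^ (-b) * π (T (x 2)) ^ (-b) * (π (T (x 2)) ^ b * π (x 0))) := by
              rw [hz]
          _ = _ := by group
      have e5 := hTx y
      rw [e3] at e5
      have e6 : π y * (1 * π (x 0)) = π y * (π (T y) * π (x 0)) := by
        rw [one_mul, ← mul_assoc]; exact e5
      exact (mul_right_cancel (mul_left_cancel e6)).symm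
    intro c hc
    obtain ⟨a, ha⟩ := gy c hc
    rw [ha, hT1, one_zpow]
  -- the automorphism `x 0 ↦ x 0 * u`
  obtain ⟨α, hα, hα'⟩ := hR x hx (Function.update 1 0 u) (by
    intro i
    by_cases hij : i = 0
    · subst hij; simpa using hu
    · rw [Function.update_of_ne hij]; exact one_mem _)
  have hα0 : α (x 0) = x 0 * u := by rw [hα' 0, Function.update_self]
  have hαK : ∀ k ∈ K, α k = k := by
    intro k hk
    have h1 : K ≤ (α.eqLocus (MonoidHom.id G)) := by
      rw [hK, Subgroup.closure_le]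
      rintro _ ⟨j, hj, rfl⟩
      show α (x j) = x j
      rw [hα' j, Function.update_of_ne hj]; simp
    exact h1 hk
  have hq : ⁅x 0, x i⁆ ∈ M := (hπ _).mp (hle _ (comm_mem _ _))
  have hfix : α ⁅x 0, x i⁆ = ⁅x 0, x i⁆ := by
    have h2 : ⁅x 0, x i⁆ ∈ ((⁅K, K⁆ ⊔ g3 G : Subgroup G) : Set G) := hq
    rw [Subgroup.mul_normal] at h2
    obtain ⟨v, hv, c, hc, hvc⟩ := h2
    have hvK : v ∈ K := by
      have : ⁅K, K⁆ ≤ K := Subgroup.commutator_le_self K
      exact this hv
    have hc' : α c = c := by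
      obtain ⟨g, hg⟩ := isConj_iff.mp (hα c)
      rw [← hg, ← g3_central h4 hc g]; group
    have e1 : v * c = ⁅x 0, x i⁆ := hvc
    rw [← e1, map_mul, hαK v hvK, hc']
  rw [map_commutatorElement, hα0, hαK _ (hxK i hi)] at hfix
  have h5 : ⁅x 0 * u, x i⁆ = ⁅u, x i⁆ * ⁅x 0, x i⁆ := by
    have e1 : ⁅x 0 * u, x i⁆ = x 0 * ⁅u, x i⁆ * (x i * (x 0)⁻¹ * (x i)⁻¹) := by
      simp only [commutatorElement_def]; group
    rw [e1, ← g3_central h4 (mem_g3 hu (x i)) (x 0)]
    simp only [commutatorElement_def]; group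
  rw [h5] at hfix
  have h6 : ⁅u, x i⁆ = 1 := mul_eq_right.mp hfix
  exact commutatorElement_eq_one_iff_mul_comm.mp h6

theorem d3 {n : ℕ}
    (x : Fin (n + 3) → G) (hx : Subgroup.closure (Set.range x) = ⊤) (hR : Real (n + 3) G)
    (h4 : g4 G = ⊥) : commutator G ≤ Subgroup.center G := by
  have h10 : (1 : Fin (n + 3)) ≠ 0 := by
    intro h; exact absurd (congrArg Fin.val h) (by simp)
  intro u hu
  have h1 : ∀ i, u * x i = x i * u := by
    intro i
    by_cases hi : i = 0
    · subst hi
      let σ := Equiv.swap (0 : Fin (n + 3)) 1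
      have hx' : Subgroup.closure (Set.range (x ∘ σ)) = ⊤ := by
        rw [EquivLike.range_comp, hx]
      have h2 := d3a (x ∘ σ) hx' hR h4 1 h10 u hu
      simpa [σ] using h2
    · exact d3a x hx hR h4 i hi u hu
  have h2 : (⊤ : Subgroup G) ≤ Subgroup.centralizer {u} := by
    rw [← hx, Subgroup.closure_le]
    rintro _ ⟨i, rfl⟩
    rw [SetLike.mem_coe, Subgroup.mem_centralizer_iff]
    rintro _ rfl
    exact h1 i
  rw [Subgroup.mem_center_iff]
  intro g
  exact (Subgroup.mem_centralizer_iff.mp (h2 (Subgroup.mem_top g)) u rfl).symm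

theorem g3_bot_iff : g3 G = ⊥ ↔ commutator G ≤ Subgroup.center G := by
  unfold g3
  rw [Subgroup.commutator_eq_bot_iff_le_centralizer, Subgroup.coe_top, Subgroup.centralizer_univ]

/-- three or more generators: class at most two -/
theorem class_two {p : ℕ} [hp : Fact p.Prime] [Finite G] (hG : IsPGroup p G) {n : ℕ}
    (x : Fin (n + 3) → G) (hx : Subgroup.closure (Set.range x) = ⊤) (hR : Real (n + 3) G) :
    commutator G ≤ Subgroup.center G := by
  haveI : Group.IsNilpotent G := hG.isNilpotent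
  let N := g4 G
  have hN : N ≤ commutator G := g4_le.trans g3_le
  let π := QuotientGroup.mk' N
  have hπs : Function.Surjective π := QuotientGroup.mk'_surjective N
  have hg3 : (g3 G).map π = g3 (G ⧸ N) := by
    unfold g3
    rw [Subgroup.map_commutator, map_comm_top, Subgroup.map_top_of_surjective _ hπs]
  have hg4 : g4 (G ⧸ N) = ⊥ := by
    unfold g4
    rw [← hg3, ← Subgroup.map_top_of_surjective _ hπs, ← Subgroup.map_commutator]
    rw [eq_bot_iff]
    rintro _ ⟨g, hg, rfl⟩
    exact (QuotientGroup.eq_one_iff g).mpr hg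
  have h1 : commutator (G ⧸ N) ≤ Subgroup.center (G ⧸ N) := by
    refine d3 (fun i => π (x i)) ?_ (real_quot hG hR N hN) hg4
    have e1 : Set.range (fun i => π (x i)) = π '' Set.range x := Set.range_comp π x
    rw [e1, ← MonoidHom.map_closure, hx, Subgroup.map_top_of_surjective _ hπs]
  have h2 : g3 G ≤ g4 G := by
    have h3 : g3 (G ⧸ N) = ⊥ := g3_bot_iff.mpr h1
    intro g hg
    have h4 : π g ∈ (g3 G).map π := ⟨g, hg, rfl⟩
    rw [hg3, h3, Subgroup.mem_bot] at h4
    exact (QuotientGroup.eq_one_iff g).mp h4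
  exact g3_bot_iff.mp (nil_bot _ h2)

end

end Pool.Agent.Run7.h548.AC
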