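import Mathlib
import Pool.Agent.Run7.h548.AC.A2

/-!
Groups of class at most two with `x^G = x γ₂(G)` outside the Frattini subgroup attain the bound.
-/

set_option autoImplicit false

open scoped commutatorElement

namespace Pool.Agent.Run7.h548.AC

open Pool.Agent.Helper832.AutC

section

variable {G : Type} [Group G]

theorem frat_quot {p : ℕ} [hp : Fact p.Prime] [Finite G] (hG : IsPGroup p G) :
    ∃ (V : Type) (_ : CommGroup V) (π : G →* V), Function.Surjective π ∧
      (∀ g, π g = 1 ↔ g ∈ frattini G) ∧ ∀ v : V, v ^ p = 1 := by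
  obtain ⟨hF1, hF2⟩ := frattini_facts hG
  let I : CommGroup (G ⧸ frattini G) :=
    { (inferInstance : Group (G ⧸ frattini G)) with
      mul_comm := by
        intro a b
        obtain ⟨a, rfl⟩ := QuotientGroup.mk'_surjective (frattini G) a
        obtain ⟨b, rfl⟩ := QuotientGroup.mk'_surjective (frattini G) b
        rw [← commutatorElement_eq_one_iff_mul_comm, ← map_commutatorElement]
        exact (QuotientGroup.eq_one_iff _).mpr (hF1 a b) }
  refine ⟨G ⧸ frattini G, I, QuotientGroup.mk' (frattini G),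
    QuotientGroup.mk'_surjective (frattini G), fun g => QuotientGroup.eq_one_iff _, ?_⟩
  intro v
  obtain ⟨a, rfl⟩ := QuotientGroup.mk'_surjective (frattini G) v
  rw [← map_pow]
  exact (QuotientGroup.eq_one_iff _).mpr (hF2 a)

/-- the members of a shortest generating family are independent modulo `Φ(G)` -/
theorem indep {p : ℕ} [hp : Fact p.Prime] [Finite G] (hG : IsPGroup p G)
    (x : Fin (Group.rank G) → G) (hx : Subgroup.closure (Set.range x) = ⊤)
    (b : Fin (Group.rank G) → ℤ) (j : Fin (Group.rank G)) (hj : ¬ (p : ℤ) ∣ b j) :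
    wd x b ∉ frattini G := by
  classical
  intro hmem
  obtain ⟨V, _, π, hπs, hπ, hexp⟩ := frat_quot hG
  have h1 : ∏ i, π (x i) ^ b i = 1 := by
    rw [← hom_wd, (hπ _).mpr hmem]
  let H := Subgroup.closure (x '' {j}ᶜ)
  have hxj : π (x j) ∈ H.map π := by
    have h4 : IsCoprime (b j) (p : ℤ) := by
      rw [isCoprime_comm]
      exact (Prime.coprime_iff_not_dvd (Nat.prime_iff_prime_int.mp hp.out)).mpr hj
    obtain ⟨r, s, hrs⟩ := h4
    have h5 : π (x j) = (π (x j) ^ b j) ^ r := by
      rw [← zpow_mul]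
      have e2 : b j * r = 1 + (p : ℤ) * (-s) := by linarith
      rw [e2, zpow_add, zpow_one, zpow_mul, zpow_natCast, hexp, one_zpow, mul_one]
    have h6 : π (x j) ^ b j = (∏ i ∈ Finset.univ.erase j, π (x i) ^ b i)⁻¹ := by
      rw [← Finset.mul_prod_erase Finset.univ (fun i => π (x i) ^ b i) (Finset.mem_univ j)] at h1
      exact eq_inv_of_mul_eq_one_left h1
    rw [h5, h6]
    refine zpow_mem (inv_mem (Subgroup.prod_mem _ (fun i hi => zpow_mem ?_ _))) r
    exact Subgroup.mem_map_of_mem π (Subgroup.subset_closure ⟨i, Finset.ne_of_mem_erase hi, rfl⟩)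
  obtain ⟨h, hh, hhj⟩ := hxj
  have e2 : h⁻¹ * x j ∈ frattini G := by
    rw [← hπ, map_mul, map_inv, hhj, inv_mul_cancel]
  have e3 : H ⊔ frattini G = ⊤ := by
    rw [eq_top_iff, ← hx, Subgroup.closure_le]
    rintro _ ⟨i, rfl⟩
    by_cases hij : i = j
    · subst hij
      have e4 : x i = h * (h⁻¹ * x i) := by group
      rw [e4]
      exact mul_mem ((le_sup_left : _ ≤ H ⊔ frattini G) hh)
        ((le_sup_right : _ ≤ H ⊔ frattini G) e2)
    · exact (le_sup_left : _ ≤ H ⊔ frattini G) (Subgroup.subset_closure ⟨i, hij, rfl⟩)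
  have e4 : H = ⊤ := frattini_nongenerating e3
  let S : Finset G := (Finset.univ.erase j).image x
  have hS : Subgroup.closure (S : Set G) = ⊤ := by
    rw [← e4]
    congr 1
    ext g
    simp [S, eq_comm]
  have h7 := Group.rank_le hS
  have h8 : S.card ≤ Group.rank G - 1 := by
    refine Finset.card_image_le.trans ?_
    rw [Finset.card_erase_of_mem (Finset.mem_univ j), Finset.card_univ, Fintype.card_fin]
  have h9 : 0 < Group.rank G := j.pos
  omega

theorem factor {p : ℕ} [hp : Fact p.Prime] {d : ℕ} (a : Fin d → ℤ) (ha : a ≠ 0) :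
    ∃ (s : ℕ) (b : Fin d → ℤ), (∀ i, a i = b i * (p : ℤ) ^ s) ∧ ∃ j, ¬ (p : ℤ) ∣ b j := by
  classical
  obtain ⟨j0, hj0⟩ := Function.ne_iff.mp ha
  have hj0' : a j0 ≠ 0 := hj0
  have hex : ∃ s : ℕ, ¬ ∀ i, (p : ℤ) ^ (s + 1) ∣ a i := by
    refine ⟨(a j0).natAbs, fun h => ?_⟩
    have h1 := Int.natAbs_dvd_natAbs.mpr (h j0)
    rw [Int.natAbs_pow, Int.natAbs_natCast] at h1
    have h2 := Nat.le_of_dvd (Int.natAbs_pos.mpr hj0') h1
    have h3 : (a j0).natAbs + 1 < p ^ ((a j0).natAbs + 1) := Nat.lt_pow_self hp.out.one_lt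
    omega
  let s := Nat.find hex
  have hs : ¬ ∀ i, (p : ℤ) ^ (s + 1) ∣ a i := Nat.find_spec hex
  have hs' : ∀ i, (p : ℤ) ^ s ∣ a i := by
    rcases Nat.eq_zero_or_pos s with h0 | h0
    · intro i; rw [h0, pow_zero]; exact one_dvd _
    · obtain ⟨t, ht⟩ := Nat.exists_eq_succ_of_ne_zero h0.ne'
      have h1 : t < Nat.find hex := by
        have : s = Nat.find hex := rfl
        omega
      have h2 := Nat.find_min hex h1
      push Not at h2
      rw [ht]
      exact h2
  choose b hb using hs'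
  refine ⟨s, b, fun i => by rw [hb i, mul_comm], ?_⟩
  push Not at hs
  obtain ⟨j, hj⟩ := hs
  refine ⟨j, fun hd => hj ?_⟩
  rw [hb j, pow_succ]
  exact mul_dvd_mul_left _ hd

theorem autC_of_hom [Finite G] (α : G →* G) (hα : ∀ g, IsConj g (α g)) :
    ∃ β ∈ AutC G, ∀ g, β g = α g := by
  have hinj : Function.Injective α := by
    rw [injective_iff_map_eq_one]
    intro g hg
    have h := hα g
    rw [hg] at h
    exact (isConj_one_left.mp h)
  have hbij : Function.Bijective α := Finite.injective_iff_bijective.mp hinj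
  exact ⟨MulEquiv.ofBijective α hbij, fun g => hα g, fun g => rfl⟩

theorem free_exp {d : ℕ} (r : FreeGroup (Fin d)) :
    ∃ a : Fin d → ℤ, ∀ (C : Type) [CommGroup C] (v : Fin d → C),
      FreeGroup.lift v r = ∏ i, v i ^ a i := by
  classical
  induction r using FreeGroup.induction_on with
  | C1 => exact ⟨0, fun C _ v => by simp⟩
  | of i =>
    refine ⟨Pi.single i 1, fun C _ v => ?_⟩
    rw [FreeGroup.lift_apply_of, Finset.prod_eq_single i]
    · rw [Pi.single_eq_same, zpow_one]
    · intro j _ hj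
      rw [Pi.single_eq_of_ne hj, zpow_zero]
    · intro h; exact absurd (Finset.mem_univ i) h
  | inv_of i ih =>
    obtain ⟨a, ha⟩ := ih
    refine ⟨-a, fun C _ v => ?_⟩
    rw [map_inv, ha, ← Finset.prod_inv_distrib]
    refine Finset.prod_congr rfl (fun i _ => ?_)
    rw [Pi.neg_apply, zpow_neg]
  | mul x y hx hy =>
    obtain ⟨a, ha⟩ := hx
    obtain ⟨b, hb⟩ := hy
    refine ⟨a + b, fun C _ v => ?_⟩
    rw [map_mul, ha, hb, ← Finset.prod_mul_distrib]
    refine Finset.prod_congr rfl (fun i _ => ?_)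
    rw [Pi.add_apply, zpow_add]

theorem suffA {p : ℕ} [hp : Fact p.Prime] [Finite G] (hG : IsPGroup p G)
    (hcc : commutator G ≤ Subgroup.center G)
    (h : ∀ x ∉ frattini G, ∀ c ∈ commutator G, IsConj x (x * c)) :
    Nat.card (AutC G) = Nat.card (commutator G) ^ Group.rank G := by
  classical
  obtain ⟨x, hx⟩ := rank_gen (G := G)
  rw [card_eq_iff x hx]
  intro u hu
  let P := Abelianization G
  let π : G →* P := Abelianization.of
  have hπ : ∀ g, π g = 1 ↔ g ∈ commutator G := by
    intro g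
    rw [← Abelianization.ker_of, MonoidHom.mem_ker]
  have hcz : ∀ c ∈ commutator G, ∀ g, c * g = g * c := fun c hc g =>
    (Subgroup.mem_center_iff.mp (hcc hc) g).symm
  let v : Fin (Group.rank G) → Subgroup.center G := fun i => ⟨u i, hcc (hu i)⟩
  -- exponents
  have hexpo : ∀ k ∉ frattini G, ∀ m : ℕ, k ^ m ∈ commutator G → ∀ c ∈ commutator G, c ^ m = 1 := by
    intro k hk m hkm c hc
    obtain ⟨g, hg⟩ := isConj_iff.mp (h k hk c hc)
    have h1 : g * k ^ m * g⁻¹ = k ^ m * c ^ m := by
      rw [← conj_pow, hg, Commute.mul_pow (hcz c hc k).symm]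
    rw [← hcz _ hkm g, mul_inv_cancel_right] at h1
    exact (mul_eq_left.mp h1.symm)
  have hcoe : ∀ b : Fin (Group.rank G) → ℤ,
      ((∏ i, v i ^ b i : Subgroup.center G) : G) ∈ commutator G := by
    intro b
    have h1 : (∏ i, v i ^ b i) ∈ (commutator G).subgroupOf (Subgroup.center G) := by
      refine Subgroup.prod_mem _ (fun i _ => zpow_mem ?_ _)
      exact Subgroup.mem_subgroupOf.mpr (hu i)
    exact Subgroup.mem_subgroupOf.mp h1
  have hpow : ∀ (b a : Fin (Group.rank G) → ℤ) (s : ℕ), (∀ i, a i = b i * (p : ℤ) ^ s) →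
      ∀ (C : Type) [CommGroup C] (w : Fin (Group.rank G) → C),
        ∏ i, w i ^ a i = (∏ i, w i ^ b i) ^ (p ^ s) := by
    intro b a s hab C _ w
    rw [← Finset.prod_pow]
    refine Finset.prod_congr rfl (fun i _ => ?_)
    rw [hab i, zpow_mul]
    have : ((p : ℤ) ^ s) = ((p ^ s : ℕ) : ℤ) := by push_cast; rfl
    rw [this, zpow_natCast]
  let θ : FreeGroup (Fin (Group.rank G)) →* G := FreeGroup.lift x
  have hθs : Function.Surjective θ := by
    rw [← MonoidHom.range_eq_top, FreeGroup.range_lift_eq_closure, hx]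
  let θ' : FreeGroup (Fin (Group.rank G)) →* P := FreeGroup.lift (fun i => π (x i))
  have hθ' : ∀ r, θ' r = π (θ r) := by
    intro r
    have : θ' = π.comp θ := by
      apply FreeGroup.ext_hom
      intro i
      simp [θ', θ]
    rw [this]; rfl
  have hθ's : Function.Surjective θ' := by
    intro q
    obtain ⟨g, rfl⟩ := QuotientGroup.mk_surjective q
    obtain ⟨r, rfl⟩ := hθs g
    exact ⟨r, hθ' r⟩
  let ψ : FreeGroup (Fin (Group.rank G)) →* Subgroup.center G := FreeGroup.lift v
  have hker : θ'.ker ≤ ψ.ker := by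
    intro r hr
    rw [MonoidHom.mem_ker] at hr ⊢
    obtain ⟨a, ha⟩ := free_exp r
    have h1 : θ' r = ∏ i, π (x i) ^ a i := ha P _
    have h2 : ψ r = ∏ i, v i ^ a i := ha _ v
    rw [h2]
    by_cases ha0 : a = 0
    · rw [ha0]; simp
    · obtain ⟨s, b, hab, j, hj⟩ := factor (p := p) a ha0
      have hk := indep hG x hx b j hj
      have h3 : (wd x b) ^ (p ^ s) ∈ commutator G := by
        rw [← hπ, map_pow, hom_wd, ← hpow b a s hab P, ← h1, hr]
      rw [hpow b a s hab]
      apply Subtype.ext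
      have h4 := hexpo _ hk _ h3 _ (hcoe b)
      rw [← Subgroup.coe_pow] at h4
      exact h4
  let f : P →* Subgroup.center G := θ'.liftOfSurjective hθ's ⟨ψ, hker⟩
  have hf : ∀ r, f (θ' r) = ψ r := fun r =>
    MonoidHom.liftOfRightInverse_comp_apply θ' _ (Function.rightInverse_surjInv hθ's) ⟨ψ, hker⟩ r
  let α : G →* G :=
    { toFun := fun g => g * (f (π g) : G)
      map_one' := by simp
      map_mul' := by
        intro a b
        have hz : ∀ g, (f (π a) : G) * g = g * (f (π a) : G) := fun g =>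
          (Subgroup.mem_center_iff.mp (f (π a)).2 g).symm
        show a * b * (f (π (a * b)) : G) = a * (f (π a) : G) * (b * (f (π b) : G))
        rw [map_mul, map_mul, Subgroup.coe_mul]
        calc a * b * ((f (π a) : G) * (f (π b) : G)) = a * (b * (f (π a) : G)) * (f (π b) : G) := by
              group
          _ = a * ((f (π a) : G) * b) * (f (π b) : G) := by rw [hz b]
          _ = _ := by group }
  have hα : ∀ g, IsConj g (α g) := by
    intro g
    obtain ⟨r, rfl⟩ := hθs g
    obtain ⟨a, ha⟩ := free_exp r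
    have h1 : θ' r = ∏ i, π (x i) ^ a i := ha P _
    have h2 : ψ r = ∏ i, v i ^ a i := ha _ v
    show IsConj (θ r) (θ r * (f (π (θ r)) : G))
    rw [← hθ', hf, h2]
    by_cases ha0 : a = 0
    · rw [ha0]
      exact isConj_iff.mpr ⟨1, by simp⟩
    · obtain ⟨s, b, hab, j, hj⟩ := factor (p := p) a ha0
      have hk := indep hG x hx b j hj
      set k := wd x b with hkdef
      set c : G := ((∏ i, v i ^ b i : Subgroup.center G) : G) with hc
      have hcm : c ∈ commutator G := hcoe b
      have h5 : ((∏ i, v i ^ a i : Subgroup.center G) : G) = c ^ (p ^ s) := by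
        rw [hpow b a s hab, Subgroup.coe_pow]
      rw [h5]
      obtain ⟨g, hg⟩ := isConj_iff.mp (h k hk c hcm)
      have h6 : (k ^ (p ^ s))⁻¹ * θ r ∈ commutator G := by
        rw [← hπ, map_mul, map_inv, map_pow, ← hθ', h1, hpow b a s hab P, hkdef, hom_wd,
          inv_mul_cancel]
      set t := (k ^ (p ^ s))⁻¹ * θ r with ht
      have h7 : θ r = k ^ (p ^ s) * t := by rw [ht]; group
      refine isConj_iff.mpr ⟨g, ?_⟩
      have h8 : g * k ^ (p ^ s) * g⁻¹ = k ^ (p ^ s) * c ^ (p ^ s) := by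
        rw [← conj_pow, hg, Commute.mul_pow (hcz c hcm k).symm]
      rw [h7]
      calc g * (k ^ (p ^ s) * t) * g⁻¹ = (g * k ^ (p ^ s) * g⁻¹) * (g * t * g⁻¹) := by group
        _ = k ^ (p ^ s) * c ^ (p ^ s) * t := by
            rw [h8, ← hcz t h6 g, mul_inv_cancel_right]
        _ = k ^ (p ^ s) * (t * c ^ (p ^ s)) := by
            rw [mul_assoc, hcz t h6]
        _ = _ := by group
  obtain ⟨β, hβ, hβα⟩ := autC_of_hom α hα
  refine ⟨β, hβ, fun i => ?_⟩
  rw [hβα]
  show x i * (f (π (x i)) : G) = x i * u i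
  have h9 : π (x i) = θ' (FreeGroup.of i) := by simp [θ']
  rw [h9, hf]
  simp [ψ, v]

end

end Pool.Agent.Run7.h548.AC
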