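import Mathlib
import Pool.Agent.Run7.h548.AC.A3
import Pool.Agent.Helper832.AutC.Three

/-!
Two-generator groups with cyclic `γ₂` attain the bound.
-/

set_option autoImplicit false

open scoped commutatorElement

namespace Pool.Agent.Run7.h548.AC

open Pool.Agent.Helper832.AutC

section

variable {G : Type} [Group G]

/-- a normal subgroup containing the commutator of two generators contains `γ₂` -/
theorem comm_le_of_gen (x y : G) (hgen : Subgroup.closure {x, y} = ⊤) (K : Subgroup G) [K.Normal]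
    (h : ⁅x, y⁆ ∈ K) : commutator G ≤ K := by
  let π := QuotientGroup.mk' K
  have hπs : Function.Surjective π := QuotientGroup.mk'_surjective K
  have hxy : π x * π y = π y * π x := by
    rw [← commutatorElement_eq_one_iff_mul_comm, ← map_commutatorElement]
    exact (QuotientGroup.eq_one_iff _).mpr h
  have hS : Subgroup.closure ({π x, π y} : Set (G ⧸ K)) = ⊤ := by
    have e1 : ({π x, π y} : Set (G ⧸ K)) = π '' {x, y} := by rw [Set.image_pair]
    rw [e1, ← MonoidHom.map_closure, hgen, Subgroup.map_top_of_surjective _ hπs]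
  have hcx : ∀ q : G ⧸ K, q * π x = π x * q := by
    intro q
    have hq : q ∈ Subgroup.closure ({π x, π y} : Set (G ⧸ K)) := by rw [hS]; exact Subgroup.mem_top _
    induction hq using Subgroup.closure_induction with
    | mem s hs =>
      rcases hs with rfl | rfl
      · rfl
      · exact hxy.symm
    | one => rw [one_mul, mul_one]
    | mul a b _ _ ha hb => rw [mul_assoc, hb, ← mul_assoc, ha, mul_assoc]
    | inv a _ ha => exact ((Commute.inv_left (show Commute a (π x) from ha)))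
  have hcy : ∀ q : G ⧸ K, q * π y = π y * q := by
    intro q
    have hq : q ∈ Subgroup.closure ({π x, π y} : Set (G ⧸ K)) := by rw [hS]; exact Subgroup.mem_top _
    induction hq using Subgroup.closure_induction with
    | mem s hs =>
      rcases hs with rfl | rfl
      · exact hxy
      · rfl
    | one => rw [one_mul, mul_one]
    | mul a b _ _ ha hb => rw [mul_assoc, hb, ← mul_assoc, ha, mul_assoc]
    | inv a _ ha => exact ((Commute.inv_left (show Commute a (π y) from ha)))
  have hall : ∀ a b : G ⧸ K, a * b = b * a := by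
    intro a b
    have hb : b ∈ Subgroup.closure ({π x, π y} : Set (G ⧸ K)) := by rw [hS]; exact Subgroup.mem_top _
    induction hb using Subgroup.closure_induction with
    | mem s hs =>
      rcases hs with rfl | rfl
      · exact hcx a
      · exact hcy a
    | one => rw [one_mul, mul_one]
    | mul b c _ _ hb hc => rw [← mul_assoc, hb, mul_assoc, hc, mul_assoc]
    | inv b _ hb => exact ((Commute.inv_right (show Commute a b from hb)))
  rw [commutator_def, Subgroup.commutator_le]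
  intro a _ b _
  have h1 : π ⁅a, b⁆ = 1 := by
    rw [map_commutatorElement, commutatorElement_eq_one_iff_mul_comm]
    exact hall _ _
  exact (QuotientGroup.eq_one_iff _).mp h1

theorem conj_of_conj (x y : G) (hgen : Subgroup.closure {x, y} = ⊤) (P : G → Prop)
    (h1 : P 1) (hx : P x) (hy : P y) (hm : ∀ a b, P a → P b → P (a * b))
    (hi : ∀ a, P a → P a⁻¹) (g : G) : P g := by
  have hq : g ∈ Subgroup.closure ({x, y} : Set G) := by rw [hgen]; exact Subgroup.mem_top _
  induction hq using Subgroup.closure_induction with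
  | mem s hs =>
    rcases hs with rfl | rfl
    · exact hx
    · exact hy
  | one => exact h1
  | mul a b _ _ ha hb => exact hm a b ha hb
  | inv a _ ha => exact hi a ha

theorem rank_le_two [Finite G] (x y : G) (hgen : Subgroup.closure {x, y} = ⊤) :
    Group.rank G ≤ 2 := by
  classical
  have h := Group.rank_le (G := G) (S := {x, y}) (by
    rw [← hgen]; congr 1; ext g; simp)
  exact h.trans (Finset.card_le_two)

theorem comm_bot_of_rank [Finite G] (h : Group.rank G ≤ 1) : commutator G = ⊥ := by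
  obtain ⟨x, hx⟩ := rank_gen (G := G)
  obtain ⟨g, hg⟩ : ∃ g : G, Subgroup.closure {g} = ⊤ := by
    rcases Nat.lt_or_ge 0 (Group.rank G) with h0 | h0
    · refine ⟨x ⟨0, h0⟩, ?_⟩
      rw [eq_top_iff, ← hx, Subgroup.closure_le]
      rintro _ ⟨i, rfl⟩
      have : i = ⟨0, h0⟩ := by
        apply Fin.ext
        have := i.2
        show (i : ℕ) = 0
        omega
      rw [this]
      exact Subgroup.subset_closure rfl
    · refine ⟨1, ?_⟩
      rw [eq_top_iff, ← hx, Subgroup.closure_le]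
      rintro _ ⟨i, rfl⟩
      exact absurd i.2 (by omega)
  rw [eq_bot_iff, commutator_def, Subgroup.commutator_le]
  intro a _ b _
  rw [Subgroup.mem_bot, commutatorElement_eq_one_iff_mul_comm]
  have ha : a ∈ Subgroup.closure {g} := by rw [hg]; exact Subgroup.mem_top _
  have hb : b ∈ Subgroup.closure {g} := by rw [hg]; exact Subgroup.mem_top _
  rw [← Subgroup.zpowers_eq_closure] at ha hb
  obtain ⟨m, rfl⟩ := ha
  obtain ⟨n, rfl⟩ := hb
  show g ^ m * g ^ n = g ^ n * g ^ m
  rw [← zpow_add, ← zpow_add, add_comm]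

/-- the geometric sum -/
def sg (k : ℤ) (n : ℕ) : ℤ := ∑ t ∈ Finset.range n, k ^ t

theorem sg_add (k : ℤ) (m n : ℕ) : sg k (m + n) = sg k m + k ^ m * sg k n := by
  unfold sg
  rw [Finset.sum_range_add, Finset.mul_sum]
  congr 1
  refine Finset.sum_congr rfl (fun i _ => ?_)
  rw [pow_add]

theorem dvd_of_dvd_sg {p : ℕ} [hp : Fact p.Prime] (k : ℤ) (h1 : (p : ℤ) ∣ k - 1)
    (h2 : p = 2 → (4 : ℤ) ∣ k - 1) (m n : ℕ) (h : (p : ℤ) ^ m ∣ sg k n) : (p : ℤ) ^ m ∣ (n : ℤ) := by
  have hpp : Prime (p : ℤ) := Nat.prime_iff_prime_int.mp hp.out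
  by_cases hk : k = 1
  · subst hk
    unfold sg at h
    simpa using h
  · have hk1 : k - 1 ≠ 0 := sub_ne_zero.mpr hk
    have hnk : ¬ (p : ℤ) ∣ k := by
      intro h3
      have h4 : (p : ℤ) ∣ 1 := by
        have := dvd_sub h3 h1
        simpa using this
      exact hpp.not_isUnit (isUnit_of_dvd_one h4)
    have e1 : sg k n * (k - 1) = k ^ n - 1 ^ n := by
      unfold sg
      rw [geom_sum_mul, one_pow]
    have e2 : emultiplicity (p : ℤ) (k ^ n - 1 ^ n)
        = emultiplicity (p : ℤ) (k - 1) + emultiplicity (p : ℤ) (n : ℤ) := by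
      rcases hp.out.eq_two_or_odd' with hp2 | hp2
      · subst hp2
        exact Int.two_pow_sub_pow' n (h2 rfl) (by simpa using hnk)
      · rw [Int.emultiplicity_pow_sub_pow hp.out hp2 h1 hnk n, Int.natCast_emultiplicity]
    rw [← e1, emultiplicity_mul hpp, add_comm] at e2
    have hfin : FiniteMultiplicity (p : ℤ) (k - 1) :=
      FiniteMultiplicity.of_prime_left hpp hk1
    have e3 : emultiplicity (p : ℤ) (sg k n) = emultiplicity (p : ℤ) (n : ℤ) := by
      rw [hfin.emultiplicity_eq_multiplicity] at e2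
      exact ENat.add_right_injective_of_ne_top (ENat.natCast_ne_top _) e2
    rw [pow_dvd_iff_le_emultiplicity] at h ⊢
    rw [← e3]
    exact h

theorem orbit_form (x y w : G) (k : ℤ) (hy : x * y * x⁻¹ = w * y) (hw : x * w * x⁻¹ = w ^ k)
    (n : ℕ) : x ^ n * y * (x ^ n)⁻¹ = w ^ (sg k n) * y := by
  have hpw : ∀ n : ℕ, x ^ n * w * (x ^ n)⁻¹ = w ^ (k ^ n) := by
    intro n
    induction n with
    | zero => simp
    | succ n ih =>
      have e1 : x ^ (n + 1) * w * (x ^ (n + 1))⁻¹ = x * (x ^ n * w * (x ^ n)⁻¹) * x⁻¹ := by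
        rw [pow_succ']; group
      rw [e1, ih, ← conj_zpow, hw, ← zpow_mul, pow_succ, mul_comm]
  induction n with
  | zero => simp [sg]
  | succ n ih =>
    have e1 : x ^ (n + 1) * y * (x ^ (n + 1))⁻¹ = x ^ n * (x * y * x⁻¹) * (x ^ n)⁻¹ := by
      rw [pow_succ]; group
    have e2 : x ^ n * (w * y) * (x ^ n)⁻¹ = (x ^ n * w * (x ^ n)⁻¹) * (x ^ n * y * (x ^ n)⁻¹) := by
      group
    rw [e1, hy, e2, ih, hpw, ← mul_assoc, ← zpow_add]
    congr 2
    unfold sg
    rw [Finset.sum_range_succ, add_comm]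

theorem orbit_all {p : ℕ} [hp : Fact p.Prime] [Finite G] (hG : IsPGroup p G) (x y w : G) (k : ℤ)
    (hy : x * y * x⁻¹ = w * y) (hw : x * w * x⁻¹ = w ^ k) (h1 : (p : ℤ) ∣ k - 1)
    (h2 : p = 2 → (4 : ℤ) ∣ k - 1) (c : G) (hc : c ∈ Subgroup.zpowers w) :
    ∃ n : ℕ, x ^ n * y * (x ^ n)⁻¹ = c * y := by
  classical
  have hpp : Prime (p : ℤ) := Nat.prime_iff_prime_int.mp hp.out
  obtain ⟨m, hm⟩ := (IsPGroup.iff_orderOf.mp hG) w
  have hnk : ¬ (p : ℤ) ∣ k := by
    intro h3
    have h4 : (p : ℤ) ∣ 1 := by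
      have := dvd_sub h3 h1
      simpa using this
    exact hpp.not_isUnit (isUnit_of_dvd_one h4)
  let f : Fin (orderOf w) → Subgroup.zpowers w := fun i => ⟨w ^ (sg k i), ⟨sg k i, rfl⟩⟩
  have hlt : ∀ i j : ℕ, i < j → j < orderOf w → w ^ (sg k i) ≠ w ^ (sg k j) := by
    intro i j hij hj heq
    obtain ⟨t, rfl⟩ := Nat.exists_eq_add_of_lt hij
    rw [add_assoc, sg_add, zpow_add] at heq
    have h3 : w ^ (k ^ i * sg k (t + 1)) = 1 := (mul_eq_left.mp heq.symm)
    have h4 := orderOf_dvd_iff_zpow_eq_one.mpr h3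
    rw [hm] at h4
    push_cast at h4
    have h5 : (p : ℤ) ^ m ∣ sg k (t + 1) := by
      refine IsCoprime.dvd_of_dvd_mul_left ?_ h4
      refine IsCoprime.pow_left (IsCoprime.pow_right ?_)
      exact (Prime.coprime_iff_not_dvd hpp).mpr hnk
    have h6 := dvd_of_dvd_sg k h1 h2 m (t + 1) h5
    have h7 : p ^ m ∣ t + 1 := by exact_mod_cast h6
    have h8 := Nat.le_of_dvd (Nat.succ_pos t) h7
    omega
  have hinj : Function.Injective f := by
    intro i j hij
    have h3 : w ^ (sg k i) = w ^ (sg k j) := congrArg Subtype.val hij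
    rcases lt_trichotomy (i : ℕ) (j : ℕ) with h | h | h
    · exact absurd h3 (hlt i j h j.2)
    · exact Fin.ext h
    · exact absurd h3.symm (hlt j i h i.2)
  have hbij : Function.Bijective f := by
    apply hinj.bijective_of_nat_card_le
    rw [Nat.card_zpowers, Nat.card_fin]
  obtain ⟨i, hi⟩ := hbij.2 ⟨c, hc⟩
  refine ⟨i, ?_⟩
  have hi' : w ^ (sg k i) = c := congrArg Subtype.val hi
  rw [orbit_form x y w k hy hw, hi']

/-- the action on a cyclic derived subgroup -/
theorem act {p : ℕ} [hp : Fact p.Prime] [Finite G] (hG : IsPGroup p G) (w : G)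
    (hn : (Subgroup.zpowers w).Normal) (hw : Subgroup.zpowers w = commutator G)
    (h2 : p = 2 → ∀ c ∈ commutator G, ∀ g, ∃ d ∈ commutator G, ⁅c, g⁆ = d ^ 4) (g : G) :
    ∃ k : ℤ, g * w * g⁻¹ = w ^ k ∧ (p : ℤ) ∣ k - 1 ∧ (p = 2 → (4 : ℤ) ∣ k - 1) := by
  haveI : Group.IsNilpotent G := hG.isNilpotent
  by_cases hp2 : p = 2
  · obtain ⟨d, hd, hd'⟩ := h2 hp2 w (by rw [← hw]; exact Subgroup.mem_zpowers w) g
    rw [← hw] at hd
    obtain ⟨e, rfl⟩ := hd
    refine ⟨1 - 4 * e, ?_, ?_, fun _ => ⟨-e, by ring⟩⟩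
    · have h3 : g * w * g⁻¹ = ⁅w, g⁆⁻¹ * w := by rw [commutatorElement_def]; group
      rw [h3, hd']
      simp only [← zpow_natCast, ← zpow_mul, ← zpow_neg]
      rw [← zpow_add_one]
      congr 1
      push_cast; ring
    · subst hp2
      exact ⟨-2 * e, by push_cast; ring⟩
  · by_cases hw1 : w = 1
    · subst hw1
      exact ⟨1, by simp, by simp, fun h => absurd h hp2⟩
    · obtain ⟨k, hk⟩ := hn.conj_mem w (Subgroup.mem_zpowers w) g
      have hk' : g * w * g⁻¹ = w ^ k := hk.symm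
      refine ⟨k, hk', ?_, fun h => absurd h hp2⟩
      by_contra hnd
      apply hw1
      have h3 : w ^ (k - 1) ∈ ⁅Subgroup.zpowers w, (⊤ : Subgroup G)⁆ := by
        have e1 : w ^ (k - 1) = ⁅w, g⁆⁻¹ := by
          rw [zpow_sub, zpow_one, ← hk', commutatorElement_def]; group
        rw [e1]
        exact inv_mem (Subgroup.commutator_mem_commutator (Subgroup.mem_zpowers w)
          (Subgroup.mem_top _))
      have h4 := mem_of_zpow_mem hG _ w (k - 1) hnd h3
      have h5 : Subgroup.zpowers w = ⊥ := by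
        apply nil_bot
        rw [Subgroup.zpowers_le]
        exact h4
      exact Subgroup.zpowers_eq_bot.mp h5

theorem suffB {p : ℕ} [hp : Fact p.Prime] [Finite G] (hG : IsPGroup p G)
    (x y : G) (hgen : Subgroup.closure {x, y} = ⊤) (hcyc : IsCyclic (commutator G))
    (h2 : p = 2 → ∀ c ∈ commutator G, ∀ g, ∃ d ∈ commutator G, ⁅c, g⁆ = d ^ 4) :
    Nat.card (AutC G) = Nat.card (commutator G) ^ Group.rank G := by
  classical
  by_cases hbot : commutator G = ⊥
  · apply suffA hG
    · rw [hbot]; exact bot_le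
    · intro x _ c hc
      rw [hbot, Subgroup.mem_bot] at hc
      rw [hc, mul_one]
  · have hrank : Group.rank G = 2 := by
      have h3 := rank_le_two x y hgen
      by_contra h4
      exact hbot (comm_bot_of_rank (by omega))
    obtain ⟨⟨w0, hw0⟩, hw0'⟩ := hcyc.exists_generator
    have hgen0 : ∀ c ∈ commutator G, ∃ n : ℤ, w0 ^ n = c := by
      intro c hc
      obtain ⟨n, hn⟩ := hw0' ⟨c, hc⟩
      exact ⟨n, congrArg Subtype.val hn⟩
    have hnorm : ∀ c ∈ commutator G, (Subgroup.zpowers c).Normal := by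
      intro c hc
      obtain ⟨n, rfl⟩ := hgen0 c hc
      constructor
      rintro _ ⟨m, rfl⟩ g
      obtain ⟨l, hl⟩ := hgen0 _ ((inferInstance : (commutator G).Normal).conj_mem w0 hw0 g)
      refine ⟨l * m, ?_⟩
      show (w0 ^ n) ^ (l * m) = g * (w0 ^ n) ^ m * g⁻¹
      rw [← zpow_mul, ← zpow_mul, ← conj_zpow, ← hl, ← zpow_mul]
      congr 1
      ring
    have hgenw : ∀ c ∈ commutator G, (⁅x, y⁆ ∈ Subgroup.zpowers c) →
        Subgroup.zpowers c = commutator G := by
      intro c hc h3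
      haveI := hnorm c hc
      refine le_antisymm ?_ (comm_le_of_gen x y hgen _ h3)
      rw [Subgroup.zpowers_le]
      exact hc
    have hw : Subgroup.zpowers ⁅x, y⁆ = commutator G :=
      hgenw _ (comm_mem _ _) (Subgroup.mem_zpowers _)
    have hw' : Subgroup.zpowers ⁅y, x⁆ = commutator G :=
      hgenw _ (comm_mem _ _) (by
        have h5 := inv_mem (Subgroup.mem_zpowers ⁅y, x⁆)
        rwa [commutatorElement_inv] at h5)
    obtain ⟨k, hk1, hk2, hk3⟩ := act hG ⁅x, y⁆ (hnorm _ (comm_mem _ _)) hw h2 x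
    obtain ⟨l, hl1, hl2, hl3⟩ := act hG ⁅y, x⁆ (hnorm _ (comm_mem _ _)) hw' h2 y
    have hr : Set.range ![x, y] = {x, y} := by simp [Set.pair_comm]
    rw [hrank, card_eq_iff ![x, y] (by rw [hr, hgen])]
    intro u hu
    have cn : ∀ c ∈ commutator G, ∀ g : G, g * c * g⁻¹ ∈ commutator G := fun c hc g =>
      (inferInstance : (commutator G).Normal).conj_mem c hc g
    obtain ⟨j, hj⟩ := orbit_all hG y x ⁅y, x⁆ l (by rw [commutatorElement_def]; group) hl1 hl2 hl3
      (x * u 0 * x⁻¹) (by rw [hw']; exact cn _ (hu 0) x)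
    obtain ⟨i, hi⟩ := orbit_all hG x y ⁅x, y⁆ k (by rw [commutatorElement_def]; group) hk1 hk2 hk3
      ((y ^ j)⁻¹ * (y * u 1 * y⁻¹) * (y ^ j)) (by
        rw [hw]
        have := cn _ (cn _ (hu 1) y) (y ^ j)⁻¹
        rwa [inv_inv] at this)
    refine ⟨MulAut.conj (y ^ j * x ^ i), fun g => isConj_iff.mpr ⟨y ^ j * x ^ i, rfl⟩, ?_⟩
    intro t
    rw [MulAut.conj_apply]
    fin_cases t
    · show y ^ j * x ^ i * x * (y ^ j * x ^ i)⁻¹ = x * u 0
      have e1 : y ^ j * x ^ i * x * (y ^ j * x ^ i)⁻¹ = y ^ j * x * (y ^ j)⁻¹ := by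
        have : x ^ i * x = x * x ^ i := (pow_succ x i).symm.trans (pow_succ' x i)
        calc y ^ j * x ^ i * x * (y ^ j * x ^ i)⁻¹
            = y ^ j * (x ^ i * x) * (x ^ i)⁻¹ * (y ^ j)⁻¹ := by group
          _ = _ := by rw [this]; group
      rw [e1, hj]; group
    · show y ^ j * x ^ i * y * (y ^ j * x ^ i)⁻¹ = y * u 1
      have e1 : y ^ j * x ^ i * y * (y ^ j * x ^ i)⁻¹
          = y ^ j * (x ^ i * y * (x ^ i)⁻¹) * (y ^ j)⁻¹ := by group
      rw [e1, hi]
      have e2 : y ^ j * ((y ^ j)⁻¹ * (y * u 1 * y⁻¹) * y ^ j * y) * (y ^ j)⁻¹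
          = y * u 1 * y⁻¹ * (y ^ j * y * (y ^ j)⁻¹) := by group
      have e3 : y ^ j * y = y * y ^ j := (pow_succ y j).symm.trans (pow_succ' y j)
      rw [e2, e3]; group

end

end Pool.Agent.Run7.h548.AC
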