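import Mathlib
import Pool.Agent.Run7.h548.AC.A4

/-!
Two-generator 2-groups of class at most three with `γ₂` elementary abelian attain the bound.
-/

set_option autoImplicit false

open scoped commutatorElement

namespace Pool.Agent.Run7.h548.AC

open Pool.Agent.Helper832.AutC

section

variable {G : Type} [Group G]

theorem g3_le_of_gen (x y : G) (hgen : Subgroup.closure {x, y} = ⊤) (K : Subgroup G) [K.Normal]
    (h1 : ⁅⁅x, y⁆, x⁆ ∈ K) (h2 : ⁅⁅x, y⁆, y⁆ ∈ K) : g3 G ≤ K := by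
  let π := QuotientGroup.mk' K
  have hπs : Function.Surjective π := QuotientGroup.mk'_surjective K
  have hπ : ∀ g, π g = 1 ↔ g ∈ K := fun g => QuotientGroup.eq_one_iff g
  have hw : ∀ g, π ⁅x, y⁆ * π g = π g * π ⁅x, y⁆ := by
    intro g
    have e1 : ∀ g, ⁅⁅x, y⁆, g⁆ ∈ K → Commute (π ⁅x, y⁆) (π g) := by
      intro g hg
      rw [commute_iff_eq, ← commutatorElement_eq_one_iff_mul_comm, ← map_commutatorElement]
      exact (hπ _).mpr hg
    refine conj_of_conj x y hgen (fun g => Commute (π ⁅x, y⁆) (π g)) ?_ (e1 x h1) (e1 y h2) ?_ ?_ g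
    · show Commute _ (π 1)
      rw [map_one]; exact Commute.one_right _
    · intro a b ha hb
      show Commute _ (π (a * b))
      rw [map_mul]; exact ha.mul_right hb
    · intro a ha
      show Commute _ (π a⁻¹)
      rw [map_inv]; exact ha.inv_right
  have hM : commutator G ≤ (Subgroup.center (G ⧸ K)).comap π := by
    apply comm_le_of_gen x y hgen
    rw [Subgroup.mem_comap, Subgroup.mem_center_iff]
    intro q
    obtain ⟨g, rfl⟩ := hπs q
    exact (hw g).symm
  unfold g3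
  rw [Subgroup.commutator_le]
  intro c hc g _
  rw [← hπ, map_commutatorElement, commutatorElement_eq_one_iff_mul_comm]
  have := Subgroup.mem_center_iff.mp (Subgroup.mem_comap.mp (hM hc)) (π g)
  exact this.symm

theorem comm_decomp (x y : G) (hgen : Subgroup.closure {x, y} = ⊤) (c : G)
    (hc : c ∈ commutator G) : ∃ n : ℤ, ∃ t ∈ g3 G, c = ⁅x, y⁆ ^ n * t := by
  let π := QuotientGroup.mk' (g3 G)
  have hπs : Function.Surjective π := QuotientGroup.mk'_surjective (g3 G)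
  have hπ : ∀ g, π g = 1 ↔ g ∈ g3 G := fun g => QuotientGroup.eq_one_iff g
  have hz : ∀ q, π ⁅x, y⁆ * q = q * π ⁅x, y⁆ := by
    intro q
    obtain ⟨g, rfl⟩ := hπs q
    rw [← commutatorElement_eq_one_iff_mul_comm, ← map_commutatorElement, hπ]
    exact mem_g3 (comm_mem _ _) g
  haveI : (Subgroup.zpowers (π ⁅x, y⁆)).Normal := by
    constructor
    rintro _ ⟨m, rfl⟩ g
    refine ⟨m, ?_⟩
    show π ⁅x, y⁆ ^ m = g * π ⁅x, y⁆ ^ m * g⁻¹
    rw [← (Commute.zpow_left (hz g) m).eq, mul_inv_cancel_right]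
  have hle : commutator G ≤ (Subgroup.zpowers (π ⁅x, y⁆)).comap π := by
    apply comm_le_of_gen x y hgen
    exact Subgroup.mem_comap.mpr (Subgroup.mem_zpowers _)
  obtain ⟨n, hn⟩ := Subgroup.mem_comap.mp (hle hc)
  refine ⟨n, (⁅x, y⁆ ^ n)⁻¹ * c, ?_, by group⟩
  rw [← hπ, map_mul, map_inv, map_zpow]
  have hn' : π ⁅x, y⁆ ^ n = π c := hn
  rw [hn', inv_mul_cancel]

theorem inner_mod (x y : G) (a b : ℤ) : ∃ g : G, ∃ r ∈ g3 G, ∃ s ∈ g3 G,
    g * x * g⁻¹ = x * ⁅x, y⁆ ^ a * r ∧ g * y * g⁻¹ = y * ⁅x, y⁆ ^ b * s := by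
  let π := QuotientGroup.mk' (g3 G)
  have hπs : Function.Surjective π := QuotientGroup.mk'_surjective (g3 G)
  have hπ : ∀ g, π g = 1 ↔ g ∈ g3 G := fun g => QuotientGroup.eq_one_iff g
  have hz : ∀ q, π ⁅x, y⁆ * q = q * π ⁅x, y⁆ := by
    intro q
    obtain ⟨g, rfl⟩ := hπs q
    rw [← commutatorElement_eq_one_iff_mul_comm, ← map_commutatorElement, hπ]
    exact mem_g3 (comm_mem _ _) g
  have hz' : ∀ q, (π ⁅x, y⁆)⁻¹ * q = q * (π ⁅x, y⁆)⁻¹ := fun q =>
    (Commute.inv_left (show Commute (π ⁅x, y⁆) q from hz q)).eq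
  have h1 : π x * π y = π y * π ⁅x, y⁆ * π x := by
    rw [← hz (π y), ← map_mul, ← map_mul, ← map_mul]
    congr 1
    rw [commutatorElement_def]; group
  have h2 : π y * π x = π x * (π ⁅x, y⁆)⁻¹ * π y := by
    rw [← hz' (π x), mul_assoc, h1, ← hz (π y)]; group
  have e1 := q1 (π x) (π y) (π ⁅x, y⁆) hz h1 b
  have e2 := q1 (π y) (π x) (π ⁅x, y⁆)⁻¹ hz' h2 (-a)
  let g := y ^ (-a) * x ^ b
  have hgx : π (g * x * g⁻¹) = π (x * ⁅x, y⁆ ^ a) := by
    simp only [g, map_mul, map_inv, map_zpow]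
    calc π y ^ (-a) * π x ^ b * π x * (π y ^ (-a) * π x ^ b)⁻¹
        = (π y ^ (-a) * π x) * (π y ^ (-a))⁻¹ := by group
      _ = π x * ((π ⁅x, y⁆)⁻¹) ^ (-a) := by rw [e2]; group
      _ = _ := by rw [inv_zpow', neg_neg]
  have hgy : π (g * y * g⁻¹) = π (y * ⁅x, y⁆ ^ b) := by
    simp only [g, map_mul, map_inv, map_zpow]
    calc π y ^ (-a) * π x ^ b * π y * (π y ^ (-a) * π x ^ b)⁻¹
        = π y ^ (-a) * (π x ^ b * π y) * (π x ^ b)⁻¹ * (π y ^ (-a))⁻¹ := by group
      _ = π y ^ (-a) * π y * (π ⁅x, y⁆ ^ b * (π y ^ (-a))⁻¹) := by rw [e1]; group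
      _ = π y ^ (-a) * π y * ((π y ^ (-a))⁻¹ * π ⁅x, y⁆ ^ b) := by
          rw [(Commute.zpow_left (hz ((π y ^ (-a))⁻¹)) b).eq]
      _ = _ := by group
  refine ⟨g, (x * ⁅x, y⁆ ^ a)⁻¹ * (g * x * g⁻¹), ?_, (y * ⁅x, y⁆ ^ b)⁻¹ * (g * y * g⁻¹), ?_,
    by group, by group⟩
  · rw [← hπ, map_mul, map_inv, hgx, inv_mul_cancel]
  · rw [← hπ, map_mul, map_inv, hgy, inv_mul_cancel]

/-- homomorphisms from the Frattini quotient -/
theorem frat_hom {p : ℕ} [hp : Fact p.Prime] [Finite G] (hG : IsPGroup p G)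
    (x : Fin (Group.rank G) → G) (hx : Subgroup.closure (Set.range x) = ⊤)
    (C : Type) [CommGroup C] (v : Fin (Group.rank G) → C) (hv : ∀ i, v i ^ p = 1) :
    ∃ f : G →* C, (∀ i, f (x i) = v i) ∧ ∀ g ∈ frattini G, f g = 1 := by
  classical
  obtain ⟨V, _, π, hπs, hπ, hexp⟩ := frat_quot hG
  let θ' : FreeGroup (Fin (Group.rank G)) →* V := FreeGroup.lift (fun i => π (x i))
  let θ : FreeGroup (Fin (Group.rank G)) →* G := FreeGroup.lift x
  have hθs : Function.Surjective θ := by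
    rw [← MonoidHom.range_eq_top, FreeGroup.range_lift_eq_closure, hx]
  have hθ' : ∀ r, θ' r = π (θ r) := by
    intro r
    have : θ' = π.comp θ := by
      apply FreeGroup.ext_hom
      intro i
      simp [θ', θ]
    rw [this]; rfl
  have hθ's : Function.Surjective θ' := by
    intro q
    obtain ⟨g, rfl⟩ := hπs q
    obtain ⟨r, rfl⟩ := hθs g
    exact ⟨r, hθ' r⟩
  let ψ : FreeGroup (Fin (Group.rank G)) →* C := FreeGroup.lift v
  have hker : θ'.ker ≤ ψ.ker := by
    intro r hr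
    rw [MonoidHom.mem_ker] at hr ⊢
    obtain ⟨a, ha⟩ := free_exp r
    have h1 : θ' r = ∏ i, π (x i) ^ a i := ha V _
    have h2 : ψ r = ∏ i, v i ^ a i := ha _ v
    rw [h2]
    refine Finset.prod_eq_one (fun i _ => ?_)
    by_cases hi : (p : ℤ) ∣ a i
    · obtain ⟨c, hc⟩ := hi
      rw [hc, zpow_mul, zpow_natCast, hv, one_zpow]
    · exfalso
      refine indep hG x hx a i hi ?_
      rw [← hπ, hom_wd, ← h1, hr]
  let f : V →* C := θ'.liftOfSurjective hθ's ⟨ψ, hker⟩
  have hf : ∀ r, f (θ' r) = ψ r := fun r =>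
    MonoidHom.liftOfRightInverse_comp_apply θ' _ (Function.rightInverse_surjInv hθ's) ⟨ψ, hker⟩ r
  refine ⟨f.comp π, ?_, ?_⟩
  · intro i
    have h9 : π (x i) = θ' (FreeGroup.of i) := by simp [θ']
    show f (π (x i)) = v i
    rw [h9, hf]
    simp [ψ]
  · intro g hg
    show f (π g) = 1
    rw [(hπ g).mpr hg, map_one]

theorem classC [Finite G] (h4 : g4 G = ⊥)
    (hsq : ∀ c ∈ commutator G, c ^ 2 = 1) (g h : G) (hgen : Subgroup.closure {g, h} = ⊤)
    (c : G) (hc : c ∈ g3 G) : IsConj g (g * c) := by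
  have hcen : ∀ c ∈ g3 G, ∀ k, c * k = k * c := fun c hc k => g3_central h4 hc k
  let T : Subgroup G :=
    { carrier := {c | c ∈ g3 G ∧ IsConj g (g * c)}
      mul_mem' := by
        rintro a b ⟨ha, ha'⟩ ⟨hb, hb'⟩
        refine ⟨mul_mem ha hb, ?_⟩
        obtain ⟨r, hr⟩ := isConj_iff.mp ha'
        obtain ⟨s, hs⟩ := isConj_iff.mp hb'
        refine isConj_iff.mpr ⟨r * s, ?_⟩
        calc r * s * g * (r * s)⁻¹ = r * (s * g * s⁻¹) * r⁻¹ := by group
          _ = (r * g) * (b * r⁻¹) := by rw [hs]; group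
          _ = (r * g * r⁻¹) * b := by rw [hcen b hb]; group
          _ = _ := by rw [hr]; group
      one_mem' := ⟨one_mem _, by rw [mul_one]⟩
      inv_mem' := by
        rintro a ⟨ha, ha'⟩
        refine ⟨inv_mem ha, ?_⟩
        obtain ⟨r, hr⟩ := isConj_iff.mp ha'
        refine isConj_iff.mpr ⟨r⁻¹, ?_⟩
        have e1 : g = r⁻¹ * g * (a * r) := by
          calc g = r⁻¹ * (r * g * r⁻¹) * r := by group
            _ = _ := by rw [hr]; group
        rw [hcen a ha] at e1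
        rw [inv_inv]
        calc r⁻¹ * g * r = (r⁻¹ * g * (r * a)) * a⁻¹ := by group
          _ = _ := by rw [← e1] }
  haveI : T.Normal := by
    constructor
    intro n hn k
    rw [← hcen n hn.1 k, mul_inv_cancel_right]
    exact hn
  have hw2 : ∀ c ∈ commutator G, c⁻¹ = c := by
    intro c hc
    have := hsq c hc
    rw [pow_two] at this
    exact inv_eq_of_mul_eq_one_left this
  have h1 : ⁅⁅g, h⁆, g⁆ ∈ T := by
    refine ⟨mem_g3 (comm_mem _ _) _, isConj_iff.mpr ⟨⁅g, h⁆, ?_⟩⟩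
    rw [← hcen _ (mem_g3 (comm_mem g h) g)]
    simp only [commutatorElement_def]; group
  have h2 : ⁅⁅g, h⁆, h⁆ ∈ T := by
    refine ⟨mem_g3 (comm_mem _ _) _, isConj_iff.mpr ⟨h * h, ?_⟩⟩
    rw [← hcen _ (mem_g3 (comm_mem g h) h)]
    have e0 : ⁅⁅g, h⁆, h⁆ = ⁅h, ⁅g, h⁆⁆ := by
      rw [← commutatorElement_inv h, hw2 _ (g3_le (mem_g3' (comm_mem g h) h))]
    have e1 : h * g * h⁻¹ = ⁅g, h⁆ * g := by
      rw [← hw2 _ (comm_mem g h), commutatorElement_def]; group
    have e2 : h * ⁅g, h⁆ * h⁻¹ = ⁅h, ⁅g, h⁆⁆ * ⁅g, h⁆ := by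
      rw [commutatorElement_def h]; group
    have e3 : ⁅g, h⁆ * ⁅g, h⁆ = 1 := by rw [← pow_two]; exact hsq _ (comm_mem g h)
    rw [e0]
    calc h * h * g * (h * h)⁻¹ = h * (h * g * h⁻¹) * h⁻¹ := by group
      _ = h * (⁅g, h⁆ * g) * h⁻¹ := by rw [e1]
      _ = (h * ⁅g, h⁆ * h⁻¹) * (h * g * h⁻¹) := by group
      _ = ⁅h, ⁅g, h⁆⁆ * (⁅g, h⁆ * ⁅g, h⁆) * g := by rw [e2, e1]; group
      _ = _ := by rw [e3, mul_one]
  exact (g3_le_of_gen g h hgen T h1 h2 hc).2

theorem suffC [Finite G] (hG : IsPGroup 2 G)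
    (x y : G) (hgen : Subgroup.closure {x, y} = ⊤) (h4 : g4 G = ⊥)
    (hsq : ∀ c ∈ commutator G, c ^ 2 = 1) :
    Nat.card (AutC G) = Nat.card (commutator G) ^ Group.rank G := by
  classical
  haveI : Fact (Nat.Prime 2) := ⟨Nat.prime_two⟩
  by_cases hbot : commutator G = ⊥
  · apply suffA hG
    · rw [hbot]; exact bot_le
    · intro x _ c hc
      rw [hbot, Subgroup.mem_bot] at hc
      rw [hc, mul_one]
  · have hrank : Group.rank G = 2 := by
      have h3 := rank_le_two x y hgen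
      by_contra h4
      exact hbot (comm_bot_of_rank (by omega))
    have hcen : ∀ c ∈ g3 G, ∀ k, c * k = k * c := fun c hc k => g3_central h4 hc k
    letI : CommGroup (g3 G) :=
      { (inferInstance : Group (g3 G)) with
        mul_comm := fun a b => Subtype.ext (hcen a a.2 b) }
    have hr : Set.range ![x, y] = {x, y} := by simp [Set.pair_comm]
    have hr' : Subgroup.closure (Set.range ![x, y]) = ⊤ := by rw [hr, hgen]
    -- conjugacy outside the Frattini subgroup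
    have hcj : ∀ g ∉ frattini G, ∀ c ∈ g3 G, IsConj g (g * c) := by
      intro g hg c hc
      obtain ⟨j, hj⟩ := exchange hG ![x, y] hr' g hg
      fin_cases j
      · refine classC h4 hsq g y ?_ c hc
        rw [← hj]
        congr 1
        ext t
        simp [eq_comm, or_comm]
      · refine classC h4 hsq g x ?_ c hc
        rw [← hj]
        congr 1
        ext t
        simp [eq_comm, or_comm]
    have hfr : ∀ u v : g3 G, ∃ f : G →* g3 G, f x = u ∧ f y = v ∧ ∀ g ∈ frattini G, f g = 1 := by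
      intro u v
      let e : Fin (Group.rank G) ≃ Fin 2 := finCongr hrank
      obtain ⟨f, hf, hf'⟩ := frat_hom hG (![x, y] ∘ e) (by
        rw [EquivLike.range_comp]; exact hr') (g3 G) (![u, v] ∘ e) (by
        intro i
        apply Subtype.ext
        rw [Subgroup.coe_pow]
        exact hsq _ (g3_le (Subtype.mem _)))
      refine ⟨f, ?_, ?_, hf'⟩
      · have := hf (e.symm 0)
        simpa using this
      · have := hf (e.symm 1)
        simpa using this
    rw [hrank, card_eq_iff ![x, y] hr']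
    intro u hu
    obtain ⟨a, t1, ht1, hu0⟩ := comm_decomp x y hgen _ (hu 0)
    obtain ⟨b, t2, ht2, hu1⟩ := comm_decomp x y hgen _ (hu 1)
    obtain ⟨g, r, hr1, s, hs1, hgx, hgy⟩ := inner_mod x y a b
    obtain ⟨f, hfx, hfy, hff⟩ := hfr ⟨r⁻¹ * t1, mul_mem (inv_mem hr1) ht1⟩
      ⟨s⁻¹ * t2, mul_mem (inv_mem hs1) ht2⟩
    let αf : G →* G :=
      { toFun := fun g => g * (f g : G)
        map_one' := by simp
        map_mul' := by
          intro a b
          show a * b * (f (a * b) : G) = a * (f a : G) * (b * (f b : G))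
          rw [map_mul, Subgroup.coe_mul]
          calc a * b * ((f a : G) * (f b : G)) = a * (b * (f a : G)) * (f b : G) := by group
            _ = a * ((f a : G) * b) * (f b : G) := by rw [hcen _ (f a).2 b]
            _ = _ := by group }
    have hαf : ∀ g, IsConj g (αf g) := by
      intro g
      by_cases hg : g ∈ frattini G
      · show IsConj g (g * (f g : G))
        rw [hff g hg, Subgroup.coe_one, mul_one]
      · exact hcj g hg _ (f g).2
    let α : G →* G := αf.comp (MulAut.conj g : G →* G)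
    have hα : ∀ k, IsConj k (α k) := by
      intro k
      have h5 : IsConj k (g * k * g⁻¹) := isConj_iff.mpr ⟨g, rfl⟩
      exact h5.trans (hαf (g * k * g⁻¹))
    have hfc : ∀ k, f (g * k * g⁻¹) = f k := by
      intro k
      rw [map_mul, map_mul, map_inv, mul_comm (f g), mul_inv_cancel_right]
    obtain ⟨β, hβ, hβα⟩ := autC_of_hom α hα
    refine ⟨β, hβ, fun i => ?_⟩
    rw [hβα]
    fin_cases i
    · show g * x * g⁻¹ * (f (g * x * g⁻¹) : G) = x * u 0
      rw [hfc, hfx, hgx, hu0]; group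
    · show g * y * g⁻¹ * (f (g * y * g⁻¹) : G) = y * u 1
      rw [hfc, hfy, hgy, hu1]; group

end

end Pool.Agent.Run7.h548.AC
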