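import Mathlib
import Pool.Agent.Run7.h548.AC.A5
import Pool.Agent.Helper832.AutC.Nec

/-!
Two generators: necessary conditions (generalities, odd primes).
-/

set_option autoImplicit false

open scoped commutatorElement

namespace Pool.Agent.Run7.h548.AC

open Pool.Agent.Helper832.AutC

/-- every choice of images `x u`, `y v`, of a generating pair is realised -/
def Real2 (G : Type) [Group G] : Prop :=
  ∀ x y : G, Subgroup.closure {x, y} = ⊤ → ∀ u ∈ commutator G, ∀ v ∈ commutator G,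
    ∃ α : G →* G, (∀ g, IsConj g (α g)) ∧ α x = x * u ∧ α y = y * v

section

variable {G : Type} [Group G]

theorem real2_iff : Real 2 G ↔ Real2 G := by
  constructor
  · intro h x y hxy u hu v hv
    have hr : Set.range ![x, y] = {x, y} := by simp [Set.pair_comm]
    obtain ⟨α, hα, hα'⟩ := h ![x, y] (by rw [hr, hxy]) ![u, v] (by
      intro i; fin_cases i
      · exact hu
      · exact hv)
    exact ⟨α, hα, hα' 0, hα' 1⟩
  · intro h x hx u hu
    have hr : Set.range x = {x 0, x 1} := by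
      ext t
      simp [Fin.exists_fin_two, eq_comm]
    obtain ⟨α, hα, h0, h1⟩ := h (x 0) (x 1) (by rw [← hr, hx]) _ (hu 0) _ (hu 1)
    refine ⟨α, hα, fun i => ?_⟩
    fin_cases i
    · exact h0
    · exact h1

theorem real2_quot {p : ℕ} [hp : Fact p.Prime] [Finite G] (hG : IsPGroup p G)
    (h : Real2 G) (N : Subgroup G) [N.Normal] (hN : N ≤ commutator G) : Real2 (G ⧸ N) :=
  real2_iff.mp (real_quot hG (real2_iff.mpr h) N hN)

theorem real2_conj (h : Real2 G) (x y : G) (hgen : Subgroup.closure {x, y} = ⊤) (c : G)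
    (hc : c ∈ commutator G) : IsConj x (x * c) := by
  obtain ⟨α, hα, h0, _⟩ := h x y hgen c hc 1 (one_mem _)
  rw [← h0]
  exact hα x

theorem map_g3 (N : Subgroup G) [N.Normal] : (g3 G).map (QuotientGroup.mk' N) = g3 (G ⧸ N) := by
  unfold g3
  rw [Subgroup.map_commutator, map_comm_top,
    Subgroup.map_top_of_surjective _ (QuotientGroup.mk'_surjective N)]

theorem map_g4 (N : Subgroup G) [N.Normal] : (g4 G).map (QuotientGroup.mk' N) = g4 (G ⧸ N) := by
  unfold g4
  rw [Subgroup.map_commutator, map_g3,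
    Subgroup.map_top_of_surjective _ (QuotientGroup.mk'_surjective N)]

theorem g3_le_of_quot (N : Subgroup G) [N.Normal] (h : g3 (G ⧸ N) = ⊥) : g3 G ≤ N := by
  intro g hg
  have h4 : QuotientGroup.mk' N g ∈ (g3 G).map (QuotientGroup.mk' N) := ⟨g, hg, rfl⟩
  rw [map_g3, h, Subgroup.mem_bot] at h4
  exact (QuotientGroup.eq_one_iff g).mp h4

theorem g4_quot (N : Subgroup G) [N.Normal] (h : g4 G ≤ N) : g4 (G ⧸ N) = ⊥ := by
  rw [← map_g4, eq_bot_iff]
  rintro _ ⟨g, hg, rfl⟩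
  exact (QuotientGroup.eq_one_iff g).mpr (h hg)

theorem gen_pair_quot (x y : G) (hgen : Subgroup.closure {x, y} = ⊤) (N : Subgroup G) [N.Normal] :
    Subgroup.closure {QuotientGroup.mk' N x, QuotientGroup.mk' N y} = ⊤ := by
  have e1 : ({QuotientGroup.mk' N x, QuotientGroup.mk' N y} : Set (G ⧸ N))
      = QuotientGroup.mk' N '' {x, y} := by rw [Set.image_pair]
  rw [e1, ← MonoidHom.map_closure, hgen,
    Subgroup.map_top_of_surjective _ (QuotientGroup.mk'_surjective N)]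

/-- the subgroup generated by the `p`-th powers of the elements of `γ₂` -/
def pw2 (p : ℕ) (G : Type) [Group G] : Subgroup G :=
  Subgroup.closure ((fun c => c ^ p) '' (commutator G : Set G))

instance pw2_normal (p : ℕ) : (pw2 p G).Normal := by
  constructor
  intro n hn g
  unfold pw2 at hn ⊢
  induction hn using Subgroup.closure_induction with
  | mem s hs =>
    obtain ⟨c, hc, rfl⟩ := hs
    refine Subgroup.subset_closure ⟨g * c * g⁻¹, ?_, ?_⟩
    · exact (inferInstance : (commutator G).Normal).conj_mem c hc g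
    · show (g * c * g⁻¹) ^ p = g * c ^ p * g⁻¹
      rw [conj_pow]
  | one => rw [mul_one, mul_inv_cancel]; exact one_mem _
  | mul a b _ _ ha hb =>
    have : g * (a * b) * g⁻¹ = (g * a * g⁻¹) * (g * b * g⁻¹) := by group
    rw [this]; exact mul_mem ha hb
  | inv a _ ha =>
    have : g * a⁻¹ * g⁻¹ = (g * a * g⁻¹)⁻¹ := by group
    rw [this]; exact inv_mem ha

theorem pw2_le (p : ℕ) : pw2 p G ≤ commutator G := by
  unfold pw2
  rw [Subgroup.closure_le]
  rintro _ ⟨c, hc, rfl⟩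
  exact pow_mem hc p

theorem pow_mem_pw2 (p : ℕ) {c : G} (hc : c ∈ commutator G) : c ^ p ∈ pw2 p G :=
  Subgroup.subset_closure ⟨c, hc, rfl⟩

/-- `γ₂^p γ₄` -/
def NN (p : ℕ) (G : Type) [Group G] : Subgroup G := pw2 p G ⊔ g4 G

instance NN_normal (p : ℕ) : (NN p G).Normal := by unfold NN; infer_instance

theorem NN_le (p : ℕ) : NN p G ≤ commutator G := sup_le (pw2_le p) (g4_le.trans g3_le)

theorem quot_pow (p : ℕ) (N : Subgroup G) [N.Normal] (h : pw2 p G ≤ N) :
    ∀ c ∈ commutator (G ⧸ N), c ^ p = 1 := by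
  intro c hc
  rw [← map_comm_top] at hc
  obtain ⟨c, hc, rfl⟩ := hc
  rw [← map_pow]
  exact (QuotientGroup.eq_one_iff _).mpr (h (pow_mem_pw2 p hc))

/-- if `γ₃ ≤ γ₂^p γ₄` then `γ₂` is cyclic -/
theorem cyc_of_le {p : ℕ} [hp : Fact p.Prime] [Finite G] (hG : IsPGroup p G)
    (x y : G) (hgen : Subgroup.closure {x, y} = ⊤) (h : g3 G ≤ NN p G) :
    commutator G = Subgroup.zpowers ⁅x, y⁆ := by
  haveI : Group.IsNilpotent G := hG.isNilpotent
  have h1 : g3 G ≤ pw2 p G := by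
    apply g3_le_of_quot
    haveI : Group.IsNilpotent (G ⧸ pw2 p G) := inferInstance
    apply nil_bot
    show g3 (G ⧸ pw2 p G) ≤ g4 (G ⧸ pw2 p G)
    rw [← map_g3, ← map_g4]
    have h2 := Subgroup.map_mono (f := QuotientGroup.mk' (pw2 p G)) h
    refine h2.trans ?_
    unfold NN
    rw [Subgroup.map_sup]
    refine sup_le ?_ le_rfl
    rintro _ ⟨g, hg, rfl⟩
    have : QuotientGroup.mk' (pw2 p G) g = 1 := (QuotientGroup.eq_one_iff g).mpr hg
    rw [this]; exact one_mem _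
  have hle : Subgroup.zpowers ⁅x, y⁆ ≤ commutator G := by
    rw [Subgroup.zpowers_le]; exact comm_mem _ _
  refine le_antisymm ?_ hle
  -- the Frattini argument inside `γ₂`
  have hF := frattini_facts (hG.to_subgroup (commutator G))
  have h2 : (pw2 p G).subgroupOf (commutator G) ≤ frattini (commutator G) := by
    have h3 : pw2 p G ≤ (frattini (commutator G)).map (commutator G).subtype := by
      unfold pw2
      rw [Subgroup.closure_le]
      rintro _ ⟨c, hc, rfl⟩
      exact ⟨⟨c, hc⟩ ^ p, hF.2 ⟨c, hc⟩, rfl⟩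
    intro c hc
    obtain ⟨d, hd, hdc⟩ := h3 (Subgroup.mem_subgroupOf.mp hc)
    have : d = c := Subtype.ext hdc
    rwa [← this]
  have h4 : (Subgroup.zpowers ⁅x, y⁆).subgroupOf (commutator G) ⊔ frattini (commutator G) = ⊤ := by
    rw [eq_top_iff]
    intro c _
    obtain ⟨n, t, ht, hct⟩ := comm_decomp x y hgen c c.2
    have ht' : t ∈ pw2 p G := h1 ht
    have e1 : c = (⟨⁅x, y⁆ ^ n, zpow_mem (comm_mem x y) n⟩ : commutator G)
        * ⟨t, pw2_le p ht'⟩ := Subtype.ext hct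
    rw [e1]
    exact Subgroup.mul_mem_sup
      (Subgroup.mem_subgroupOf.mpr (zpow_mem (Subgroup.mem_zpowers _) n))
      (h2 (Subgroup.mem_subgroupOf.mpr ht'))
  have h5 := frattini_nongenerating h4
  intro c hc
  have h6 : (⟨c, hc⟩ : commutator G) ∈ (Subgroup.zpowers ⁅x, y⁆).subgroupOf (commutator G) := by
    rw [h5]; exact Subgroup.mem_top _
  exact Subgroup.mem_subgroupOf.mp h6

theorem cyc_of_eq (w : G) (h : commutator G = Subgroup.zpowers w) : IsCyclic (commutator G) := by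
  rw [h]; infer_instance

theorem h3_of_g4 (h4 : g4 G = ⊥) (a b c d : G) : ⁅⁅⁅a, b⁆, c⁆, d⁆ = 1 := by
  have := mem_g4 (mem_g3 (comm_mem a b) c) d
  rwa [h4, Subgroup.mem_bot] at this

theorem mem_g3_bot {p : ℕ} [hp : Fact p.Prime] [Finite G] (hG : IsPGroup p G)
    (x y : G) (hgen : Subgroup.closure {x, y} = ⊤) (h : ⁅x, y⁆ ∈ g3 G) : commutator G = ⊥ := by
  haveI : Group.IsNilpotent G := hG.isNilpotent
  apply nil_bot
  exact comm_le_of_gen x y hgen (g3 G) h

theorem pow_form3 (x y w u : G) (hu : ∀ g, u * g = g * u) (hy : x * y * x⁻¹ = w * y)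
    (hw : x * w * x⁻¹ = u * w) (n : ℕ) :
    x ^ n * y * (x ^ n)⁻¹ = u ^ (n.choose 2) * w ^ n * y := by
  induction n with
  | zero => simp
  | succ n ih =>
    have e1 : x ^ (n + 1) * y * (x ^ (n + 1))⁻¹ = x * (x ^ n * y * (x ^ n)⁻¹) * x⁻¹ := by
      rw [pow_succ']; group
    have hun : ∀ (k : ℕ) (g : G), u ^ k * g = g * u ^ k := fun k g => Commute.pow_left (hu g) k
    have e2 : x * w ^ n * x⁻¹ = u ^ n * w ^ n := by
      rw [← conj_pow, hw, Commute.mul_pow (hu w)]
    calc x ^ (n + 1) * y * (x ^ (n + 1))⁻¹ = x * (u ^ (n.choose 2) * w ^ n * y) * x⁻¹ := by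
          rw [e1, ih]
      _ = x * (w ^ n * u ^ (n.choose 2)) * y * x⁻¹ := by rw [hun]; group
      _ = (x * w ^ n * x⁻¹) * (x * u ^ (n.choose 2)) * y * x⁻¹ := by group
      _ = (u ^ n * w ^ n) * (u ^ (n.choose 2) * x) * y * x⁻¹ := by rw [e2, ← hun _ x]
      _ = u ^ n * (w ^ n * u ^ (n.choose 2)) * (x * y * x⁻¹) := by group
      _ = u ^ n * (u ^ (n.choose 2) * w ^ n) * (w * y) := by rw [← hun _ (w ^ n), hy]
      _ = u ^ ((n + 1).choose 2) * w ^ (n + 1) * y := by
          rw [Nat.choose_succ_succ, Nat.choose_one_right, pow_add, pow_succ]; group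

theorem odd_L1 {p : ℕ} [hp : Fact p.Prime] (hp2 : p ≠ 2) [Finite G] (hG : IsPGroup p G)
    (h4 : g4 G = ⊥) (hpw : ∀ c ∈ commutator G, c ^ p = 1) (hR : Real2 G)
    (x y : G) (hgen : Subgroup.closure {x, y} = ⊤) (c : G) (hc : c ∈ g3 G) :
    ∃ k : ℤ, c = ⁅⁅x, y⁆, y⁆ ^ k := by
  have hcen : ∀ c ∈ g3 G, ∀ k, c * k = k * c := fun c hc k => g3_central h4 hc k
  have hgen' : Subgroup.closure {y, x} = ⊤ := by rw [Set.pair_comm]; exact hgen
  obtain ⟨g, hg⟩ := isConj_iff.mp (real2_conj hR y x hgen' c (g3_le hc))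
  obtain ⟨a, b, m, t, ht, rfl⟩ := normal_form3 (h3_of_g4 h4) x y hgen g
  set w := ⁅x, y⁆ with hw
  have hwc : w ∈ commutator G := comm_mem x y
  set v := ⁅w, y⁆ with hv
  have hvm : v ∈ g3 G := mem_g3 hwc y
  have hwy : w * y * w⁻¹ = v * y := by rw [hv, commutatorElement_def]; group
  have hxy : x * y * x⁻¹ = w * y := by rw [hw, commutatorElement_def]; group
  have hxw : x * w * x⁻¹ = ⁅x, w⁆ * w := by rw [commutatorElement_def]; group
  have hwy' : w ^ m * y * (w ^ m)⁻¹ = v ^ m * y := by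
    have e1 : w * y = y * v * w := by
      calc w * y = (w * y * w⁻¹) * w := by group
        _ = _ := by rw [hwy, hcen v hvm]
    have e2 := q1 w y v (hcen v hvm) e1 m
    rw [e2, (Commute.zpow_left (hcen v hvm y) m).eq]; group
  have hxp : x ^ p * y = y * x ^ p := by
    have e1 := pow_form3 x y w ⁅x, w⁆ (hcen _ (mem_g3' hwc x)) hxy hxw p
    have e2 : ⁅x, w⁆ ^ (p.choose 2) = 1 := by
      obtain ⟨q, hq⟩ := dvd_choose_two hp.out hp2 (dvd_refl p)
      rw [hq, pow_mul, hpw _ (g3_le (mem_g3' hwc x)), one_pow]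
    rw [e2, hpw w hwc, one_mul, one_mul] at e1
    calc x ^ p * y = (x ^ p * y * (x ^ p)⁻¹) * x ^ p := by group
      _ = _ := by rw [e1]
  have hy1 : y ^ b * x ^ a * w ^ m * t * y * (y ^ b * x ^ a * w ^ m * t)⁻¹
      = v ^ m * (y ^ b * (x ^ a * y * (x ^ a)⁻¹) * (y ^ b)⁻¹) := by
    have hvz : ∀ g, v ^ m * g = g * v ^ m := fun g => Commute.zpow_left (hcen v hvm g) m
    calc y ^ b * x ^ a * w ^ m * t * y * (y ^ b * x ^ a * w ^ m * t)⁻¹
        = y ^ b * x ^ a * w ^ m * (t * y) * t⁻¹ * (w ^ m)⁻¹ * (x ^ a)⁻¹ * (y ^ b)⁻¹ := by group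
      _ = y ^ b * x ^ a * (w ^ m * y * (w ^ m)⁻¹) * (x ^ a)⁻¹ * (y ^ b)⁻¹ := by
          rw [ht y]; group
      _ = (y ^ b * x ^ a * v ^ m) * y * (x ^ a)⁻¹ * (y ^ b)⁻¹ := by rw [hwy']; group
      _ = (v ^ m * (y ^ b * x ^ a)) * y * (x ^ a)⁻¹ * (y ^ b)⁻¹ := by rw [hvz]
      _ = _ := by group
  rw [hy1] at hg
  by_cases ha : (p : ℤ) ∣ a
  · obtain ⟨a', rfl⟩ := ha
    have e1 : x ^ ((p : ℤ) * a') * y = y * x ^ ((p : ℤ) * a') := by
      rw [zpow_mul, zpow_natCast]
      exact Commute.zpow_left hxp a'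
    rw [e1] at hg
    refine ⟨m, ?_⟩
    have e2 : v ^ m * (y ^ b * (y * x ^ ((p : ℤ) * a') * (x ^ ((p : ℤ) * a'))⁻¹) * (y ^ b)⁻¹)
        = v ^ m * y := by
      have : y ^ b * y = y * y ^ b := (Commute.zpow_self y b).eq
      calc _ = v ^ m * (y ^ b * y) * (y ^ b)⁻¹ := by group
        _ = _ := by rw [this]; group
    rw [e2, (Commute.zpow_left (hcen v hvm y) m).eq] at hg
    exact (mul_left_cancel hg).symm
  · -- `w ∈ γ₃`
    let π := QuotientGroup.mk' (g3 G)
    have hπs : Function.Surjective π := QuotientGroup.mk'_surjective (g3 G)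
    have hπ : ∀ g, π g = 1 ↔ g ∈ g3 G := fun g => QuotientGroup.eq_one_iff g
    have hz : ∀ q, π w * q = q * π w := by
      intro q
      obtain ⟨g, rfl⟩ := hπs q
      rw [← commutatorElement_eq_one_iff_mul_comm, ← map_commutatorElement, hπ]
      exact mem_g3 hwc g
    have e1 : π x * π y = π y * π w * π x := by
      rw [← hz (π y), ← map_mul, ← map_mul, ← map_mul]
      congr 1
      rw [← hxy]; group
    have e2 := q1 (π x) (π y) (π w) hz e1 a
    have e3 := congrArg π hg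
    simp only [map_mul, map_inv, map_zpow] at e3
    have e4 : π v = 1 := (hπ v).mpr hvm
    have e5 : π c = 1 := (hπ c).mpr hc
    have hza : ∀ q, π w ^ a * q = q * π w ^ a := fun q => (Commute.zpow_left (hz q) a)
    rw [e4, e5, one_zpow, one_mul, mul_one, e2] at e3
    have e6 : π y ^ b * (π y * π w ^ a * π x ^ a * (π x ^ a)⁻¹) * (π y ^ b)⁻¹
        = π y * π w ^ a := by
      have e7 : π y ^ b * π y = π y * π y ^ b := (Commute.zpow_self (π y) b).eq
      calc π y ^ b * (π y * π w ^ a * π x ^ a * (π x ^ a)⁻¹) * (π y ^ b)⁻¹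
          = (π y ^ b * π y) * (π w ^ a * (π y ^ b)⁻¹) := by group
        _ = π y * π y ^ b * ((π y ^ b)⁻¹ * π w ^ a) := by rw [e7, hza]
        _ = _ := by group
    rw [e6] at e3
    have e8 : w ^ a ∈ g3 G := by
      rw [← hπ, map_zpow]
      exact mul_eq_left.mp e3
    have e9 : w ∈ g3 G := mem_of_zpow_mem hG _ w a ha e8
    have e10 := mem_g3_bot hG x y hgen e9
    have e11 : c ∈ commutator G := g3_le hc
    rw [e10, Subgroup.mem_bot] at e11
    exact ⟨0, by rw [e11, zpow_zero]⟩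

/-- class at most three and exponent `p`: then class at most two -/
theorem odd_g3 {p : ℕ} [hp : Fact p.Prime] (hp2 : p ≠ 2) [Finite G] (hG : IsPGroup p G)
    (h4 : g4 G = ⊥) (hpw : ∀ c ∈ commutator G, c ^ p = 1) (hR : Real2 G)
    (x y : G) (hgen : Subgroup.closure {x, y} = ⊤) : g3 G = ⊥ := by
  have hcen : ∀ c ∈ g3 G, ∀ k, c * k = k * c := fun c hc k => g3_central h4 hc k
  obtain ⟨b, hb⟩ := odd_L1 hp2 hG h4 hpw hR x y hgen ⁅⁅x, y⁆, x⁆ (mem_g3 (comm_mem x y) x)
  set w := ⁅x, y⁆ with hw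
  have hwc : w ∈ commutator G := comm_mem x y
  set v := ⁅w, y⁆ with hv
  have hvm : v ∈ g3 G := mem_g3 hwc y
  have hvz : ∀ (n : ℤ) g, v ^ n * g = g * v ^ n := fun n g => Commute.zpow_left (hcen v hvm g) n
  have hwy : w * y * w⁻¹ = v * y := by rw [hv, commutatorElement_def]; group
  have hwx : w * x * w⁻¹ = v ^ b * x := by rw [← hb, commutatorElement_def]; group
  let x' := x * y ^ (-b)
  have hgen' : Subgroup.closure {y, x'} = ⊤ := by
    rw [eq_top_iff, ← hgen, Subgroup.closure_le]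
    have hy : y ∈ Subgroup.closure ({y, x'} : Set G) := Subgroup.subset_closure (Or.inl rfl)
    have hx' : x' ∈ Subgroup.closure ({y, x'} : Set G) := Subgroup.subset_closure (Or.inr rfl)
    have e1 : x = x' * y ^ b := by simp only [x']; group
    have hx : x ∈ Subgroup.closure ({y, x'} : Set G) := by
      rw [e1]
      exact mul_mem hx' (zpow_mem hy _)
    rintro k (h | h)
    · rw [h]; exact hx
    · rw [h]; exact hy
  have hcm : w * x' * w⁻¹ = x' := by
    have e1 : w * y ^ (-b) * w⁻¹ = v ^ (-b) * y ^ (-b) := by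
      rw [← conj_zpow, hwy, Commute.mul_zpow (hcen v hvm y)]
    calc w * x' * w⁻¹ = (w * x * w⁻¹) * (w * y ^ (-b) * w⁻¹) := by simp only [x']; group
      _ = v ^ b * x * (v ^ (-b) * y ^ (-b)) := by rw [hwx, e1]
      _ = v ^ b * (x * v ^ (-b)) * y ^ (-b) := by group
      _ = v ^ b * (v ^ (-b) * x) * y ^ (-b) := by rw [hvz (-b) x]
      _ = x' := by simp only [x']; group
  have hw' : ⁅y, x'⁆ = w⁻¹ := by
    simp only [hw, x', commutatorElement_def]; group
  rw [eq_bot_iff]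
  intro c hc
  obtain ⟨k, hk⟩ := odd_L1 hp2 hG h4 hpw hR y x' hgen' c hc
  have e2 : ⁅w⁻¹, x'⁆ = 1 := by
    rw [commutatorElement_eq_one_iff_mul_comm]
    have e3 : w * x' = x' * w := by
      calc w * x' = (w * x' * w⁻¹) * w := by group
        _ = _ := by rw [hcm]
    exact (Commute.inv_left (show Commute w x' from e3))
  rw [hw', e2, one_zpow] at hk
  exact Subgroup.mem_bot.mpr hk

theorem odd_cyc {p : ℕ} [hp : Fact p.Prime] (hp2 : p ≠ 2) [Finite G] (hG : IsPGroup p G)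
    (hR : Real2 G) (x y : G) (hgen : Subgroup.closure {x, y} = ⊤) :
    commutator G = Subgroup.zpowers ⁅x, y⁆ := by
  apply cyc_of_le hG x y hgen
  apply g3_le_of_quot
  refine odd_g3 hp2 (hG.to_quotient (NN p G)) (g4_quot _ le_sup_right) ?_
    (real2_quot hG hR _ (NN_le p)) _ _ (gen_pair_quot x y hgen _)
  exact quot_pow p _ le_sup_left

end

end Pool.Agent.Run7.h548.AC
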