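import Mathlib
import Pool.Agent.Run7.h548.AC.A6

/-!
Two generators, `p = 2`, cyclic `γ₂`.
-/

set_option autoImplicit false

open scoped commutatorElement

namespace Pool.Agent.Run7.h548.AC

open Pool.Agent.Helper832.AutC

section

variable {G : Type} [Group G]

theorem class_closed [Finite G] (x y : G) (hgen : Subgroup.closure {x, y} = ⊤) (P : G → Prop)
    (hx : ∀ s, P s → P (x * s * x⁻¹)) (hy : ∀ s, P s → P (y * s * y⁻¹)) (b b' : G) (hb : P b)
    (h : IsConj b b') : P b' := by
  obtain ⟨g, hg⟩ := isConj_iff.mp h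
  have hm : ∀ a b : G, (∀ s, P s → P (a * s * a⁻¹)) → (∀ s, P s → P (b * s * b⁻¹)) →
      ∀ s, P s → P (a * b * s * (a * b)⁻¹) := by
    intro a b ha hb s hs
    have : a * b * s * (a * b)⁻¹ = a * (b * s * b⁻¹) * a⁻¹ := by group
    rw [this]
    exact ha _ (hb s hs)
  have h1 : ∀ s, P s → P (1 * s * 1⁻¹) := by
    intro s hs
    rw [one_mul, inv_one, mul_one]; exact hs
  have hall : ∀ g : G, ∀ s, P s → P (g * s * g⁻¹) := by
    intro g
    refine conj_of_conj x y hgen (fun g => ∀ s, P s → P (g * s * g⁻¹)) h1 hx hy hm ?_ g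
    intro a ha
    have hp : ∀ n : ℕ, ∀ s, P s → P (a ^ n * s * (a ^ n)⁻¹) := by
      intro n
      induction n with
      | zero => rw [pow_zero]; exact h1
      | succ n ih => rw [pow_succ]; exact hm _ _ ih ha
    have e1 : a⁻¹ = a ^ (orderOf a - 1) := by
      refine (eq_inv_of_mul_eq_one_left ?_).symm
      rw [← pow_succ, Nat.sub_add_cancel (orderOf_pos a), pow_orderOf_eq_one]
    show ∀ s, P s → P (a⁻¹ * s * (a⁻¹)⁻¹)
    rw [e1]
    exact hp _
  rw [← hg]
  exact hall g b hb

theorem inv_case [Finite G] (hR : Real2 G) (x y w : G) (hgen : Subgroup.closure {x, y} = ⊤)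
    (hw : w = ⁅x, y⁆) (h1 : x * w = w * x) (h2 : y * w * y⁻¹ = w⁻¹) (h4 : w ^ 4 = 1) :
    w ^ 2 = 1 := by
  have hc : IsConj x (x * w ^ 2) := real2_conj hR x y hgen _ (by
    rw [hw]; exact pow_mem (comm_mem x y) 2)
  have e1 : y * x * y⁻¹ = x * w⁻¹ := by
    have : x * w⁻¹ = w⁻¹ * x := (Commute.inv_right (show Commute x w from h1))
    rw [this, hw, commutatorElement_def]; group
  have e2 : y * w⁻¹ * y⁻¹ = w := by
    have : y * w⁻¹ * y⁻¹ = (y * w * y⁻¹)⁻¹ := by group
    rw [this, h2, inv_inv]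
  have hP := class_closed x y hgen (fun s => s = x ∨ s = x * w⁻¹) ?_ ?_ x (x * w ^ 2)
    (Or.inl rfl) hc
  · rcases hP with h | h
    · exact mul_eq_left.mp h
    · have h3 : w ^ 2 = w⁻¹ := mul_left_cancel h
      have h5 : w ^ 3 = 1 := by rw [pow_succ, h3, inv_mul_cancel]
      have h6 : w = 1 := by
        have : w ^ 4 = w ^ 3 * w := pow_succ w 3
        rw [h4, h5, one_mul] at this
        exact this.symm
      rw [h6, one_pow]
  · rintro s (h | h)
    · left; rw [h]; group
    · right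
      rw [h]
      have : x * w⁻¹ = w⁻¹ * x := (Commute.inv_right (show Commute x w from h1))
      calc x * (x * w⁻¹) * x⁻¹ = x * (x * w⁻¹) * x⁻¹ := rfl
        _ = x * (w⁻¹ * x) * x⁻¹ := by rw [this]
        _ = _ := by group
  · rintro s (h | h)
    · right; rw [h, e1]
    · left
      rw [h]
      calc y * (x * w⁻¹) * y⁻¹ = (y * x * y⁻¹) * (y * w⁻¹ * y⁻¹) := by group
        _ = x := by rw [e1, e2]; group

/-- in the quotient by `⟨w⁴⟩`, conjugation fixes or inverts `w` -/
theorem fix_or_inv (g w : G) (h4 : w ^ 4 = 1) (h2 : w ^ 2 ≠ 1) (k : ℤ)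
    (hk : g * w * g⁻¹ = w ^ k) : g * w * g⁻¹ = w ∨ g * w * g⁻¹ = w⁻¹ := by
  have h4' : w ^ (4 : ℤ) = 1 := by exact_mod_cast h4
  have e1 : w ^ k = w ^ (k % 4) := by
    conv_lhs => rw [← Int.emod_add_mul_ediv k 4]
    rw [zpow_add, zpow_mul, h4', one_zpow, mul_one]
  have h0 : 0 ≤ k % 4 := Int.emod_nonneg k (by norm_num)
  have h3 : k % 4 < 4 := Int.emod_lt_of_pos k (by norm_num)
  rw [e1] at hk
  generalize k % 4 = r at *
  have hr : r = 0 ∨ r = 1 ∨ r = 2 ∨ r = 3 := by omega
  rcases hr with rfl | rfl | rfl | rfl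
  · exfalso
    apply h2
    rw [zpow_zero] at hk
    have : w = 1 := by
      calc w = g⁻¹ * (g * w * g⁻¹) * g := by group
        _ = 1 := by rw [hk]; group
    rw [this, one_pow]
  · left; rw [hk, zpow_one]
  · exfalso
    apply h2
    have e2 : g * w ^ 2 * g⁻¹ = w ^ 4 := by
      rw [← conj_pow, hk, ← zpow_natCast, ← zpow_mul, ← zpow_natCast w 4]
      norm_num
    rw [h4] at e2
    calc w ^ 2 = g⁻¹ * (g * w ^ 2 * g⁻¹) * g := by group
      _ = 1 := by rw [e2]; group
  · right
    rw [hk]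
    refine eq_inv_of_mul_eq_one_left ?_
    rw [← zpow_add_one]
    exact h4'

theorem two_cyc_cond [Finite G] (hG : IsPGroup 2 G) (hR : Real2 G) (x y : G)
    (hgen : Subgroup.closure {x, y} = ⊤) (hw : commutator G = Subgroup.zpowers ⁅x, y⁆)
    (c : G) (hc : c ∈ commutator G) (g : G) : ∃ d ∈ commutator G, ⁅c, g⁆ = d ^ 4 := by
  haveI : Fact (Nat.Prime 2) := ⟨Nat.prime_two⟩
  set w := ⁅x, y⁆ with hwdef
  have hwc : w ∈ commutator G := comm_mem x y
  have hpow : ∀ g : G, ∃ k : ℤ, g * w * g⁻¹ = w ^ k := by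
    intro g
    have h1 : g * w * g⁻¹ ∈ commutator G :=
      (inferInstance : (commutator G).Normal).conj_mem w hwc g
    rw [hw] at h1
    obtain ⟨k, hk⟩ := h1
    exact ⟨k, hk.symm⟩
  let N : Subgroup G := Subgroup.zpowers (w ^ 4)
  haveI hN : N.Normal := by
    constructor
    rintro _ ⟨m, rfl⟩ g
    obtain ⟨k, hk⟩ := hpow g
    refine ⟨k * m, ?_⟩
    show (w ^ 4) ^ (k * m) = g * (w ^ 4) ^ m * g⁻¹
    rw [← conj_zpow, ← conj_pow, hk, ← zpow_natCast, ← zpow_natCast, ← zpow_mul, ← zpow_mul,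
      ← zpow_mul]
    congr 1
    ring
  have hNc : N ≤ commutator G := by
    rw [Subgroup.zpowers_le]; exact pow_mem hwc 4
  have hRQ := real2_quot hG hR N hNc
  let π := QuotientGroup.mk' N
  have hπ : ∀ g, π g = 1 ↔ g ∈ N := fun g => QuotientGroup.eq_one_iff g
  have hgQ : Subgroup.closure {π x, π y} = ⊤ := gen_pair_quot x y hgen N
  set W := π w with hW
  have hW' : W = ⁅π x, π y⁆ := map_commutatorElement π x y
  have hW4 : W ^ 4 = 1 := by
    rw [hW, ← map_pow, hπ]
    exact Subgroup.mem_zpowers _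
  have hconj : ∀ g, ∃ k : ℤ, π g * W * (π g)⁻¹ = W ^ k := by
    intro g
    obtain ⟨k, hk⟩ := hpow g
    exact ⟨k, by rw [hW, ← map_inv, ← map_mul, ← map_mul, hk, map_zpow]⟩
  -- `W` is central
  have hcen : π x * W = W * π x ∧ π y * W = W * π y := by
    by_cases h2 : W ^ 2 = 1
    · have key : ∀ g, π g * W = W * π g := by
        intro g
        obtain ⟨k, hk⟩ := hconj g
        have h2' : W ^ (2 : ℤ) = 1 := by exact_mod_cast h2
        rcases Int.even_or_odd' k with ⟨m, rfl | rfl⟩
        · rw [zpow_mul, h2', one_zpow] at hk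
          have : W = 1 := by
            calc W = (π g)⁻¹ * (π g * W * (π g)⁻¹) * π g := by group
              _ = 1 := by rw [hk]; group
          rw [this]; simp
        · rw [zpow_add, zpow_mul, h2', one_zpow, one_mul, zpow_one] at hk
          calc π g * W = (π g * W * (π g)⁻¹) * π g := by group
            _ = _ := by rw [hk]
      exact ⟨key x, key y⟩
    · obtain ⟨k, hk⟩ := hconj x
      obtain ⟨l, hl⟩ := hconj y
      have hiW : (W⁻¹) ^ 4 = 1 := by rw [inv_pow, hW4, inv_one]
      have hfix : ∀ g : G ⧸ N, g * W * g⁻¹ = W → g * W = W * g := by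
        intro g hg
        calc g * W = (g * W * g⁻¹) * g := by group
          _ = _ := by rw [hg]
      rcases fix_or_inv (π x) W hW4 h2 k hk with hx | hx <;>
      rcases fix_or_inv (π y) W hW4 h2 l hl with hy | hy
      · exact ⟨hfix _ hx, hfix _ hy⟩
      · exact absurd (inv_case hRQ (π x) (π y) W hgQ hW' (hfix _ hx) hy hW4) h2
      · exfalso
        have h3 := inv_case hRQ (π y) (π x) W⁻¹ (by rw [Set.pair_comm]; exact hgQ)
          (by rw [hW', commutatorElement_inv])
          (Commute.inv_right (show Commute (π y) W from hfix _ hy))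
          (by
            have : π x * W⁻¹ * (π x)⁻¹ = (π x * W * (π x)⁻¹)⁻¹ := by group
            rw [this, hx]) hiW
        rw [inv_pow, inv_eq_one] at h3
        exact h2 h3
      · exfalso
        have h3 := inv_case hRQ (π x * π y) (π y) W (by
            rw [eq_top_iff, ← hgQ, Subgroup.closure_le]
            have hy : π y ∈ Subgroup.closure ({π x * π y, π y} : Set (G ⧸ N)) :=
              Subgroup.subset_closure (Or.inr rfl)
            have hxy : π x * π y ∈ Subgroup.closure ({π x * π y, π y} : Set (G ⧸ N)) :=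
              Subgroup.subset_closure (Or.inl rfl)
            rintro k (h | h)
            · have e1 : k = (π x * π y) * (π y)⁻¹ := by rw [h]; group
              rw [e1]
              exact mul_mem hxy (inv_mem hy)
            · rw [h]; exact hy)
          (by rw [hW']; simp only [commutatorElement_def]; group)
          (hfix _ (by
            calc π x * π y * W * (π x * π y)⁻¹ = π x * (π y * W * (π y)⁻¹) * (π x)⁻¹ := by group
              _ = (π x * W * (π x)⁻¹)⁻¹ := by rw [hy]; group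
              _ = W := by rw [hx, inv_inv])) hy hW4
        exact h2 h3
  have hall : ∀ g, Commute (π g) W := by
    intro g
    refine conj_of_conj x y hgen (fun g => Commute (π g) W) ?_ hcen.1 hcen.2 ?_ ?_ g
    · show Commute (π 1) W
      rw [map_one]; exact Commute.one_left W
    · intro a b ha hb
      show Commute (π (a * b)) W
      rw [map_mul]; exact Commute.mul_left ha hb
    · intro a ha
      show Commute (π a⁻¹) W
      rw [map_inv]; exact ha.inv_left
  rw [hw] at hc
  obtain ⟨n, rfl⟩ := hc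
  have h5 : ⁅w ^ n, g⁆ ∈ N := by
    rw [← hπ, map_commutatorElement, commutatorElement_eq_one_iff_mul_comm, map_zpow]
    exact ((hall g).zpow_right n).symm
  obtain ⟨m, hm⟩ := h5
  refine ⟨w ^ m, zpow_mem hwc m, ?_⟩
  have hm' : (w ^ 4) ^ m = ⁅w ^ n, g⁆ := hm
  show ⁅w ^ n, g⁆ = (w ^ m) ^ 4
  rw [← hm', ← zpow_natCast, ← zpow_natCast, ← zpow_mul, ← zpow_mul, mul_comm]

end

end Pool.Agent.Run7.h548.AC
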