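import Mathlib
import Pool.Agent.Run7.h548.AC.A7

/-!
Words and codes for the small 2-groups excluded by the equality.
-/

set_option autoImplicit false

open scoped commutatorElement

namespace Pool.Agent.Run7.h548.AC

open Pool.Agent.Helper832.AutC

abbrev Code := Bool × Bool × Bool × Bool

def mulC (τ : Bool) (u v : Code) : Code :=
  (u.1 ^^ v.1, u.2.1 ^^ v.2.1, u.2.2.1 ^^ v.2.2.1, (u.2.2.2 ^^ v.2.2.2) ^^ (τ && (u.1 && v.1)))

def axC (α β : Bool) (v : Code) : Code :=
  (v.1, v.1 ^^ v.2.1, v.2.2.1, ((α && v.2.1) ^^ (β && v.2.2.1)) ^^ v.2.2.2)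

def ayC (β γ : Bool) (v : Code) : Code :=
  (v.1, v.2.1, v.1 ^^ v.2.2.1, ((β && v.2.1) ^^ (γ && v.2.2.1)) ^^ v.2.2.2)

def zeC : Code := (false, false, false, false)
def zC : Code := (false, false, false, true)

def fC (α β γ : Bool) : List Bool → Code → Code
  | [], v => v
  | b :: L, v => fC α β γ L (if b then axC α β v else ayC β γ v)

def RC (τ α β γ : Bool) (u v : Code) : List Bool → Code
  | [] => zeC
  | b :: L => mulC τ (fC α β γ L (if b then u else v)) (RC τ α β γ u v L)

def good (τ α β γ : Bool) (L : List Bool) (S : List Code) (u v : Code) : Prop :=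
  zeC ∈ S ∧
  (∀ s ∈ S, mulC τ (RC τ α β γ zeC (true, false, false, τ) L) (axC α β s) ∈ S) ∧
  (∀ s ∈ S, mulC τ (RC τ α β γ (true, false, false, false) zeC L) (ayC β γ s) ∈ S) ∧
  RC τ α β γ u v L = zC

instance (τ α β γ : Bool) (L : List Bool) (S : List Code) (u v : Code) :
    Decidable (good τ α β γ L S u v) :=
  haveI h1 : Decidable (zeC ∈ S) := inferInstance
  haveI h2 : Decidable (∀ s ∈ S, mulC τ (RC τ α β γ zeC (true, false, false, τ) L)
    (axC α β s) ∈ S) := inferInstance
  haveI h3 : Decidable (∀ s ∈ S, mulC τ (RC τ α β γ (true, false, false, false) zeC L)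
    (ayC β γ s) ∈ S) := inferInstance
  haveI h4 : Decidable (RC τ α β γ u v L = zC) := inferInstance
  @instDecidableAnd _ _ h1 (@instDecidableAnd _ _ h2 (@instDecidableAnd _ _ h3 h4))

section

variable {H : Type} [Group H]

def pw (a : H) (b : Bool) : H := bif b then a else 1

@[simp] theorem pw_true (a : H) : pw a true = a := rfl
@[simp] theorem pw_false (a : H) : pw a false = 1 := rfl

theorem pw_comm {a b : H} (h : Commute a b) (i j : Bool) : Commute (pw a i) (pw b j) := by
  cases i <;> cases j <;> simp [h]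

theorem pw_xor {a : H} (h : a * a = 1) (i j : Bool) : pw a i * pw a j = pw a (i ^^ j) := by
  cases i <;> cases j <;> simp [h]

structure Dat (x y w c d z : H) (τ α β γ : Bool) : Prop where
  hw : x⁻¹ * y⁻¹ * x * y = w
  hz : ∀ g, z * g = g * z
  zz : z * z = 1
  ww : w * w = pw z τ
  cc : c * c = 1
  dd : d * d = 1
  wc : Commute w c
  wd : Commute w d
  cd : Commute c d
  xw : x⁻¹ * w * x = w * c
  yw : y⁻¹ * w * y = w * d
  xc : x⁻¹ * c * x = c * pw z α
  yc : y⁻¹ * c * y = c * pw z β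
  xd : x⁻¹ * d * x = d * pw z β
  yd : y⁻¹ * d * y = d * pw z γ

def EE (w c d z : H) (v : Code) : H := pw w v.1 * pw c v.2.1 * (pw d v.2.2.1 * pw z v.2.2.2)

variable {x y w c d z : H} {τ α β γ : Bool}

theorem EE_ze (w c d z : H) : EE w c d z zeC = 1 := by simp [EE, zeC]
theorem EE_z (w c d z : H) : EE w c d z zC = z := by simp [EE, zC]

theorem Dat.zcen (h : Dat x y w c d z τ α β γ) (b : Bool) (g : H) : Commute (pw z b) g := by
  cases b
  · exact Commute.one_left g
  · exact h.hz g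

theorem Dat.mul (h : Dat x y w c d z τ α β γ) (u v : Code) :
    EE w c d z u * EE w c d z v = EE w c d z (mulC τ u v) := by
  obtain ⟨k, i, j, l⟩ := u
  obtain ⟨k', i', j', l'⟩ := v
  have hW : pw w k * pw w k' = pw w (k ^^ k') * pw z (τ && (k && k')) := by
    cases k <;> cases k' <;> simp [h.ww]
  have c1 : Commute (pw d j * pw z l) (pw w k' * pw c i') := by
    refine Commute.mul_left ?_ (h.zcen l _)
    exact Commute.mul_right (pw_comm h.wd.symm _ _) (pw_comm h.cd.symm _ _)
  simp only [EE, mulC]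
  rw [c1.mul_mul_mul_comm, (pw_comm h.wc.symm i k').mul_mul_mul_comm,
    (h.zcen l (pw d j')).mul_mul_mul_comm, hW, pw_xor h.cc, pw_xor h.dd, pw_xor h.zz]
  rw [← pw_xor h.zz (l ^^ l')]
  generalize pw w (k ^^ k') = A
  generalize pw c (i ^^ i') = B
  generalize pw d (j ^^ j') = C
  generalize pw z (l ^^ l') = D
  have hz' : ∀ g, pw z (τ && (k && k')) * g = g * pw z (τ && (k && k')) := fun g => h.zcen _ g
  generalize pw z (τ && (k && k')) = E at hz'
  calc A * E * B * (C * D) = A * (E * (B * (C * D))) := by group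
    _ = A * ((B * (C * D)) * E) := by rw [hz']
    _ = _ := by group

theorem conj_pw (g a b : H) (h : g⁻¹ * a * g = a * b) (k : Bool) :
    g⁻¹ * pw a k * g = pw a k * pw b k := by
  cases k
  · simp
  · exact h

theorem Dat.ax (h : Dat x y w c d z τ α β γ) (v : Code) :
    x⁻¹ * EE w c d z v * x = EE w c d z (axC α β v) := by
  obtain ⟨k, i, j, l⟩ := v
  have h1 : x⁻¹ * pw w k * x = pw w k * pw c k := conj_pw x w c h.xw k
  have h2 : x⁻¹ * pw c i * x = pw c i * pw z (α && i) := by
    cases i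
    · simp
    · simpa using h.xc
  have h3 : x⁻¹ * pw d j * x = pw d j * pw z (β && j) := by
    cases j
    · simp
    · simpa using h.xd
  have h4 : x⁻¹ * pw z l * x = pw z l := by
    have : x⁻¹ * pw z l = pw z l * x⁻¹ := ((h.zcen l x⁻¹).eq).symm
    rw [this]; group
  simp only [EE, axC]
  have e1 : x⁻¹ * (pw w k * pw c i * (pw d j * pw z l)) * x
      = (x⁻¹ * pw w k * x) * (x⁻¹ * pw c i * x) * ((x⁻¹ * pw d j * x) * (x⁻¹ * pw z l * x)) := by
    group
  rw [e1, h1, h2, h3, h4, ← pw_xor h.cc, ← pw_xor h.zz, ← pw_xor h.zz]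
  have hz' : ∀ g, pw z (α && i) * g = g * pw z (α && i) := fun g => h.zcen _ g
  generalize pw z (α && i) = E at hz'
  calc pw w k * pw c k * (pw c i * E) * (pw d j * pw z (β && j) * pw z l)
      = pw w k * pw c k * pw c i * (E * pw d j) * pw z (β && j) * pw z l := by group
    _ = _ := by rw [hz']; group

theorem Dat.ay (h : Dat x y w c d z τ α β γ) (v : Code) :
    y⁻¹ * EE w c d z v * y = EE w c d z (ayC β γ v) := by
  obtain ⟨k, i, j, l⟩ := v
  have h1 : y⁻¹ * pw w k * y = pw w k * pw d k := conj_pw y w d h.yw k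
  have h2 : y⁻¹ * pw c i * y = pw c i * pw z (β && i) := by
    cases i
    · simp
    · simpa using h.yc
  have h3 : y⁻¹ * pw d j * y = pw d j * pw z (γ && j) := by
    cases j
    · simp
    · simpa using h.yd
  have h4 : y⁻¹ * pw z l * y = pw z l := by
    have : y⁻¹ * pw z l = pw z l * y⁻¹ := ((h.zcen l y⁻¹).eq).symm
    rw [this]; group
  simp only [EE, ayC]
  have e1 : y⁻¹ * (pw w k * pw c i * (pw d j * pw z l)) * y
      = (y⁻¹ * pw w k * y) * (y⁻¹ * pw c i * y) * ((y⁻¹ * pw d j * y) * (y⁻¹ * pw z l * y)) := by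
    group
  rw [e1, h1, h2, h3, h4, ← pw_xor h.dd, ← pw_xor h.zz, ← pw_xor h.zz]
  have hz' : ∀ g, pw z (β && i) * g = g * pw z (β && i) := fun g => h.zcen _ g
  generalize pw z (β && i) = E at hz'
  have hdc : pw d k * pw c i = pw c i * pw d k := pw_comm h.cd.symm k i
  calc pw w k * pw d k * (pw c i * E) * (pw d j * pw z (γ && j) * pw z l)
      = pw w k * (pw d k * pw c i) * (E * (pw d j * (pw z (γ && j) * pw z l))) := by group
    _ = pw w k * (pw c i * pw d k) * ((pw d j * (E * (pw z (γ && j) * pw z l)))) := by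
        rw [hdc, ← mul_assoc E, hz', mul_assoc (pw d j)]
    _ = _ := by group

def el (x y : H) : List Bool → H
  | [] => 1
  | b :: L => (if b then x else y) * el x y L

theorem Dat.conj_el (h : Dat x y w c d z τ α β γ) (L : List Bool) (v : Code) :
    (el x y L)⁻¹ * EE w c d z v * el x y L = EE w c d z (fC α β γ L v) := by
  induction L generalizing v with
  | nil => simp [el, fC]
  | cons b L ih =>
    cases b
    · simp only [el, fC, Bool.false_eq_true, if_false]
      rw [← ih, ← h.ay]; group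
    · simp only [el, fC, if_true]
      rw [← ih, ← h.ax]; group

theorem Dat.hom_el (h : Dat x y w c d z τ α β γ) (φ : H →* H) (u v : Code)
    (hx : φ x = x * EE w c d z u) (hy : φ y = y * EE w c d z v) (L : List Bool) :
    φ (el x y L) = el x y L * EE w c d z (RC τ α β γ u v L) := by
  induction L with
  | nil => simp [el, RC, EE_ze]
  | cons b L ih =>
    have key : ∀ (g : H) (t : Code), g * EE w c d z t * (el x y L * EE w c d z (RC τ α β γ u v L))
        = g * el x y L * EE w c d z (mulC τ (fC α β γ L t) (RC τ α β γ u v L)) := by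
      intro g t
      rw [← h.mul, ← h.conj_el]; group
    cases b
    · simp only [el, RC, Bool.false_eq_true, if_false]
      rw [map_mul, ih, hy, key]
    · simp only [el, RC, if_true]
      rw [map_mul, ih, hx, key]

theorem Dat.winv (h : Dat x y w c d z τ α β γ) : w⁻¹ = EE w c d z (true, false, false, τ) := by
  refine inv_eq_of_mul_eq_one_right ?_
  have : EE w c d z (true, false, false, τ) = w * pw z τ := by simp [EE]
  rw [this, ← mul_assoc, h.ww, pw_xor h.zz]
  simp

theorem gen_inv (x y : H) (hgen : Subgroup.closure {x, y} = ⊤) :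
    Subgroup.closure {x⁻¹, y⁻¹} = ⊤ := by
  rw [eq_top_iff, ← hgen, Subgroup.closure_le]
  have hx : x⁻¹ ∈ Subgroup.closure ({x⁻¹, y⁻¹} : Set H) := Subgroup.subset_closure (Or.inl rfl)
  have hy : y⁻¹ ∈ Subgroup.closure ({x⁻¹, y⁻¹} : Set H) := Subgroup.subset_closure (Or.inr rfl)
  have hx' := inv_mem hx
  have hy' := inv_mem hy
  rw [inv_inv] at hx' hy'
  rintro k (hk | hk)
  · have e : k = x := hk
    rw [e]; exact hx'
  · have e : k = y := hk
    rw [e]; exact hy'

theorem Dat.test [Finite H] (h : Dat x y w c d z τ α β γ) (hR : Real2 H)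
    (hgen : Subgroup.closure {x, y} = ⊤) (hmem : ∀ v, EE w c d z v ∈ commutator H)
    (L : List Bool) (S : List Code) (u v : Code) (hg : good τ α β γ L S u v) :
    ∃ s ∈ S, EE w c d z s = z := by
  obtain ⟨g0, g1, g2, g3⟩ := hg
  obtain ⟨φ, hφ, hφx, hφy⟩ := hR x y hgen _ (hmem u) _ (hmem v)
  have e1 := h.hom_el φ u v hφx hφy L
  rw [g3, EE_z] at e1
  have hc : IsConj (el x y L) (el x y L * z) := by rw [← e1]; exact hφ _
  have hgen' : Subgroup.closure {x⁻¹, y⁻¹} = ⊤ := gen_inv x y hgen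
  have hwx : y⁻¹ * x * y = x * w := by rw [← h.hw]; group
  have hwy : x⁻¹ * y * x = y * w⁻¹ := by rw [← h.hw]; group
  have cx := h.hom_el (MulAut.conj x⁻¹ : H →* H) zeC (true, false, false, τ) (by
    rw [EE_ze]; show x⁻¹ * x * (x⁻¹)⁻¹ = x * 1; group) (by
    rw [← h.winv, ← hwy]; show x⁻¹ * y * (x⁻¹)⁻¹ = _; group) L
  have cy := h.hom_el (MulAut.conj y⁻¹ : H →* H) (true, false, false, false) zeC (by
    have e2 : EE w c d z (true, false, false, false) = w := by simp [EE]
    rw [e2, ← hwx]; show y⁻¹ * x * (y⁻¹)⁻¹ = _; group) (by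
    rw [EE_ze]; show y⁻¹ * y * (y⁻¹)⁻¹ = y * 1; group) L
  have cx' : x⁻¹ * el x y L * (x⁻¹)⁻¹
      = el x y L * EE w c d z (RC τ α β γ zeC (true, false, false, τ) L) := cx
  have cy' : y⁻¹ * el x y L * (y⁻¹)⁻¹
      = el x y L * EE w c d z (RC τ α β γ (true, false, false, false) zeC L) := cy
  obtain ⟨s, hs, hs'⟩ := class_closed x⁻¹ y⁻¹ hgen'
    (fun t => ∃ s ∈ S, t = el x y L * EE w c d z s) (by
      rintro t ⟨s, hs, rfl⟩
      refine ⟨_, g1 s hs, ?_⟩
      rw [← h.mul, ← h.ax]
      calc x⁻¹ * (el x y L * EE w c d z s) * (x⁻¹)⁻¹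
          = (x⁻¹ * el x y L * (x⁻¹)⁻¹) * (x⁻¹ * EE w c d z s * x) := by group
        _ = _ := by rw [cx']; group) (by
      rintro t ⟨s, hs, rfl⟩
      refine ⟨_, g2 s hs, ?_⟩
      rw [← h.mul, ← h.ay]
      calc y⁻¹ * (el x y L * EE w c d z s) * (y⁻¹)⁻¹
          = (y⁻¹ * el x y L * (y⁻¹)⁻¹) * (y⁻¹ * EE w c d z s * y) := by group
        _ = _ := by rw [cy']; group) (el x y L) (el x y L * z)
    ⟨zeC, g0, by rw [EE_ze, mul_one]⟩ hc
  exact ⟨s, hs, (mul_left_cancel hs').symm⟩

end

end Pool.Agent.Run7.h548.AC
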