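import Mathlib
import Pool.Agent.Run7.h548.AC.A8

/-!
The finite tables.
-/

set_option autoImplicit false

namespace Pool.Agent.Run7.h548.AC

theorem r2 (τ α β γ : Bool) (h : (τ || α || β || γ) = true) :
    ∃ (L : List Bool) (S : List Code) (u v : Code), good τ α β γ L S u v ∧ zC ∉ S := by
  cases τ <;> cases α <;> cases β <;> cases γ
  · exact absurd h (by decide)
  · exact ⟨[true],
      [(false, false, false, false),
       (true, false, false, false),
       (true, true, false, false),
       (false, false, true, false),
       (false, true, true, false),
       (true, false, true, true),
       (true, true, true, true),
       (false, true, false, false)],
      (false, false, false, true), (false, false, false, false), by decide⟩
  · exact ⟨[true, true, false, false, true, false, true, false],
      [(false, false, false, false),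
       (false, true, false, true),
       (false, false, true, false),
       (false, true, true, false)],
      (false, false, false, false), (false, false, true, false), by decide⟩
  · exact ⟨[false, false, true, false, true, false],
      [(false, false, false, false),
       (false, true, false, true),
       (false, true, true, true),
       (false, false, true, true)],
      (false, false, false, false), (false, false, true, false), by decide⟩
  · exact ⟨[false],
      [(false, false, false, false),
       (true, false, false, false),
       (false, true, false, false),
       (true, false, true, false),
       (true, true, false, true),
       (false, true, true, false),
       (true, true, true, true),
       (false, false, true, false)],
      (false, false, false, false), (false, false, false, true), by decide⟩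
  · exact ⟨[true, true, false, false],
      [(false, false, false, false),
       (false, false, true, false),
       (false, true, false, false),
       (false, true, true, true)],
      (false, false, false, false), (false, false, true, false), by decide⟩
  · exact ⟨[true, true, true, false, true, false],
      [(false, false, false, false),
       (false, true, true, true),
       (false, false, true, false),
       (false, true, false, false)],
      (false, false, false, false), (false, false, true, false), by decide⟩
  · exact ⟨[true, false],
      [(false, false, false, false),
       (true, false, false, false),
       (true, false, true, false),
       (false, true, false, false),
       (false, true, true, true),
       (false, false, true, true),
       (true, true, false, true),
       (true, true, true, true)],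
      (false, false, false, false), (false, false, false, true), by decide⟩
  · exact ⟨[true],
      [(false, false, false, false),
       (true, false, false, false),
       (true, true, false, false),
       (false, false, true, true),
       (false, true, true, true),
       (true, false, true, true),
       (true, true, true, true),
       (false, true, false, false)],
      (false, false, false, true), (false, false, false, false), by decide⟩
  · exact ⟨[true],
      [(false, false, false, false),
       (true, false, false, false),
       (true, true, false, false),
       (false, false, true, true),
       (false, true, true, true),
       (true, false, true, false),
       (true, true, true, false),
       (false, true, false, false)],
      (false, false, false, true), (false, false, false, false), by decide⟩
  · exact ⟨[true, true, false, false, true, false, true, false],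
      [(false, false, false, false),
       (false, true, false, true),
       (false, false, true, false),
       (false, true, true, false)],
      (false, false, false, false), (false, false, true, false), by decide⟩
  · exact ⟨[false, false, true, false, true, false],
      [(false, false, false, false),
       (false, true, false, true),
       (false, true, true, false),
       (false, false, true, false)],
      (false, false, false, false), (false, false, true, false), by decide⟩
  · exact ⟨[false],
      [(false, false, false, false),
       (true, false, false, true),
       (false, true, false, true),
       (true, false, true, true),
       (true, true, false, true),
       (false, true, true, true),
       (true, true, true, true),
       (false, false, true, false)],
      (false, false, false, false), (false, false, false, true), by decide⟩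
  · exact ⟨[true, true, false, false],
      [(false, false, false, false),
       (false, false, true, true),
       (false, true, false, true),
       (false, true, true, true)],
      (false, false, false, false), (false, false, true, false), by decide⟩
  · exact ⟨[true, true, true, false, true, false],
      [(false, false, false, false),
       (false, true, true, false),
       (false, false, true, false),
       (false, true, false, true)],
      (false, false, false, false), (false, false, true, false), by decide⟩
  · exact ⟨[true, false],
      [(false, false, false, false),
       (true, false, false, true),
       (true, false, true, false),
       (false, true, false, true),
       (false, true, true, true),
       (false, false, true, false),
       (true, true, false, true),
       (true, true, true, false)],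
      (false, false, false, false), (false, false, false, true), by decide⟩

theorem r1 (τ κ γ : Bool) (h : ¬ (τ = false ∧ κ = true ∧ γ = false)) :
    ∃ (L : List Bool) (S : List Code) (u v : Code), good τ false false γ L S u v ∧ zC ∉ S ∧
      (false, true, false, !κ) ∉ S := by
  cases τ <;> cases κ <;> cases γ
  · exact ⟨[true],
      [(false, false, false, false),
       (true, false, false, false),
       (true, true, false, false),
       (false, false, true, false),
       (false, true, true, false),
       (true, false, true, false),
       (true, true, true, false),
       (false, true, false, false)],
      (false, false, false, true), (false, false, false, false), by decide⟩
  · exact ⟨[true],
      [(false, false, false, false),
       (true, false, false, false),
       (true, true, false, false),
       (false, false, true, false),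
       (false, true, true, false),
       (true, false, true, true),
       (true, true, true, true),
       (false, true, false, false)],
      (false, false, false, true), (false, false, false, false), by decide⟩
  · exact absurd ⟨rfl, rfl, rfl⟩ h
  · exact ⟨[true, false, false],
      [(false, false, false, false),
       (false, false, true, false),
       (true, false, false, true),
       (true, false, true, false),
       (true, true, true, true),
       (true, true, false, false),
       (false, true, false, true),
       (false, true, true, true)],
      (false, false, false, false), (false, false, true, false), by decide⟩
  · exact ⟨[true],
      [(false, false, false, false),
       (true, false, false, false),
       (true, true, false, false),
       (false, false, true, true),
       (false, true, true, true),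
       (true, false, true, true),
       (true, true, true, true),
       (false, true, false, false)],
      (false, false, false, true), (false, false, false, false), by decide⟩
  · exact ⟨[true],
      [(false, false, false, false),
       (true, false, false, false),
       (true, true, false, false),
       (false, false, true, true),
       (false, true, true, true),
       (true, false, true, false),
       (true, true, true, false),
       (false, true, false, false)],
      (false, false, false, true), (false, false, false, false), by decide⟩
  · exact ⟨[false],
      [(false, false, false, false),
       (true, false, false, true),
       (false, true, false, true),
       (true, false, true, true),
       (true, true, false, false),
       (false, true, true, true),
       (true, true, true, false),
       (false, false, true, false)],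
      (false, false, false, false), (false, false, false, true), by decide⟩
  · exact ⟨[true, false, false],
      [(false, false, false, false),
       (false, false, true, true),
       (true, false, false, true),
       (true, false, true, true),
       (true, true, true, false),
       (true, true, false, false),
       (false, true, false, true),
       (false, true, true, false)],
      (false, false, false, false), (false, false, true, false), by decide⟩

end Pool.Agent.Run7.h548.AC
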