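import Mathlib
import Pool.Agent.Run7.h548.AC.A9

/-!
Two generators, `p = 2`, non-cyclic case: the minimal quotient does not exist.
-/

set_option autoImplicit false

open scoped commutatorElement

namespace Pool.Agent.Run7.h548.AC

open Pool.Agent.Helper832.AutC

section

variable {H : Type} [Group H]

structure Hyp (z : H) : Prop where
  hz : ∀ g, z * g = g * z
  z1 : z ≠ 1
  zz : z * z = 1
  zm : z ∈ commutator H
  sq : ∀ c ∈ commutator H, c * c ∈ Subgroup.zpowers z
  h4 : g4 H ≤ Subgroup.zpowers z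
  nt : ¬ ((∀ c ∈ commutator H, c * c = 1) ∧ g4 H = ⊥)
  h3 : ¬ g3 H ≤ Subgroup.zpowers z

theorem mem_z {z a : H} (zz : z * z = 1) (h : a ∈ Subgroup.zpowers z) : ∃ b, a = pw z b := by
  obtain ⟨n, rfl⟩ := h
  have h2 : z ^ (2 : ℤ) = 1 := by rw [zpow_two]; exact zz
  rcases Int.even_or_odd' n with ⟨m, rfl | rfl⟩
  · refine ⟨false, ?_⟩
    show z ^ (2 * m) = 1
    rw [zpow_mul, h2, one_zpow]
  · refine ⟨true, ?_⟩
    show z ^ (2 * m + 1) = z
    rw [zpow_add, zpow_mul, h2, one_zpow, one_mul, zpow_one]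

theorem pw_mem (z : H) (b : Bool) : pw z b ∈ Subgroup.zpowers z := by
  cases b
  · exact one_mem _
  · exact Subgroup.mem_zpowers z

theorem mem_g4' {c : H} (hc : c ∈ g3 H) (g : H) : ⁅g, c⁆ ∈ g4 H := by
  rw [← commutatorElement_inv]; exact inv_mem (mem_g4 hc g)

theorem Hyp.comm {z : H} (hy : Hyp z) (t : H) (ht : t ∈ g3 H) (s : H) (hs : s ∈ commutator H) :
    Commute s t := by
  have hζ : ∀ g : H, ∃ A : H, (∀ k, A * k = k * A) ∧ A * A = 1 ∧ g * t * g⁻¹ = t * A ∧
      g⁻¹ * t * g = t * A := by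
    intro g
    obtain ⟨b, hb⟩ := mem_z hy.zz (hy.h4 (mem_g4' ht g))
    have hc : ∀ k, pw z b * k = k * pw z b := by
      intro k; cases b
      · simp
      · exact hy.hz k
    have hAA : pw z b * pw z b = 1 := by
      cases b
      · simp
      · exact hy.zz
    have h1 : g * t * g⁻¹ = t * pw z b := by
      rw [← hc, ← hb, commutatorElement_def]; group
    refine ⟨pw z b, hc, hAA, h1, ?_⟩
    have h2 : t = (g⁻¹ * t * g) * pw z b := by
      calc t = g⁻¹ * (g * t * g⁻¹) * g := by group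
        _ = g⁻¹ * (t * pw z b) * g := by rw [h1]
        _ = g⁻¹ * t * (pw z b * g) := by group
        _ = _ := by rw [hc]; group
    calc g⁻¹ * t * g = (g⁻¹ * t * g) * (pw z b * pw z b) := by rw [hAA, mul_one]
      _ = ((g⁻¹ * t * g) * pw z b) * pw z b := by group
      _ = t * pw z b := by rw [← h2]
  have hle : commutator H ≤ Subgroup.centralizer {t} := by
    rw [commutator_def, Subgroup.commutator_le]
    intro a _ b _
    rw [Subgroup.mem_centralizer_iff]
    intro t' ht'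
    rw [Set.mem_singleton_iff.mp ht']
    obtain ⟨A, hA, hAA, hA1, hA2⟩ := hζ a
    obtain ⟨B, hB, hBB, hB1, hB2⟩ := hζ b
    have h1 : t * a = a * t * A := by rw [mul_assoc, ← hA2]; group
    have h2 : t * b = b * t * B := by rw [mul_assoc, ← hB2]; group
    have h3 : t * a⁻¹ = a⁻¹ * t * A := by rw [mul_assoc, ← hA1]; group
    have h4 : t * b⁻¹ = b⁻¹ * t * B := by rw [mul_assoc, ← hB1]; group
    rw [commutatorElement_def]
    calc t * (a * b * a⁻¹ * b⁻¹) = (t * a) * (b * a⁻¹ * b⁻¹) := by group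
      _ = a * t * (A * (b * a⁻¹ * b⁻¹)) := by rw [h1]; group
      _ = a * t * ((b * a⁻¹ * b⁻¹) * A) := by rw [hA]
      _ = a * (t * b) * (a⁻¹ * b⁻¹ * A) := by group
      _ = a * b * t * (B * (a⁻¹ * b⁻¹ * A)) := by rw [h2]; group
      _ = a * b * t * ((a⁻¹ * b⁻¹ * A) * B) := by rw [hB]
      _ = a * b * (t * a⁻¹) * (b⁻¹ * A * B) := by group
      _ = a * b * a⁻¹ * t * (A * (b⁻¹ * A * B)) := by rw [h3]; group
      _ = a * b * a⁻¹ * t * ((b⁻¹ * A * B) * A) := by rw [hA]
      _ = a * b * a⁻¹ * (t * b⁻¹) * (A * B * A) := by group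
      _ = a * b * a⁻¹ * b⁻¹ * t * (B * (A * B) * A) := by rw [h4]; group
      _ = a * b * a⁻¹ * b⁻¹ * t * ((B * B) * (A * A)) := by rw [hA B]; group
      _ = _ := by rw [hAA, hBB]; group
  exact ((Subgroup.mem_centralizer_iff.mp (hle hs)) t rfl).symm

theorem Hyp.dat {z : H} (hy : Hyp z) (x y : H) :
    ∃ (w c d : H) (τ α β γ : Bool), Dat x y w c d z τ α β γ ∧ w ∈ commutator H ∧ c ∈ g3 H ∧
      d ∈ g3 H := by
  set w := x⁻¹ * y⁻¹ * x * y with hw
  have hwm : w ∈ commutator H := by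
    have : w = ⁅x⁻¹, y⁻¹⁆ := by rw [hw, commutatorElement_def]; group
    rw [this]; exact comm_mem _ _
  set c := w⁻¹ * x⁻¹ * w * x with hc
  set d := w⁻¹ * y⁻¹ * w * y with hd
  have hcm : c ∈ g3 H := by
    have : c = ⁅w⁻¹, x⁻¹⁆ := by rw [hc, commutatorElement_def]; group
    rw [this]; exact mem_g3 (inv_mem hwm) _
  have hdm : d ∈ g3 H := by
    have : d = ⁅w⁻¹, y⁻¹⁆ := by rw [hd, commutatorElement_def]; group
    rw [this]; exact mem_g3 (inv_mem hwm) _
  have hwc : Commute w c := hy.comm c hcm w hwm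
  have hwd : Commute w d := hy.comm d hdm w hwm
  have hcd : Commute c d := hy.comm d hdm c (g3_le hcm)
  obtain ⟨τ, hτ⟩ := mem_z hy.zz (hy.sq w hwm)
  have hzc : ∀ b k, pw z b * k = k * pw z b := by
    intro b k
    cases b
    · simp
    · exact hy.hz k
  have hzz : ∀ b, pw z b * pw z b = 1 := by
    intro b
    cases b
    · simp
    · exact hy.zz
  have xw : x⁻¹ * w * x = w * c := by rw [hc]; group
  have yw : y⁻¹ * w * y = w * d := by rw [hd]; group
  have cc : c * c = 1 := by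
    have h1 : x⁻¹ * (w * w) * x = (w * w) * (c * c) := by
      calc x⁻¹ * (w * w) * x = (x⁻¹ * w * x) * (x⁻¹ * w * x) := by group
        _ = w * (c * w) * c := by rw [xw]; group
        _ = w * (w * c) * c := by rw [hwc.eq]
        _ = _ := by group
    rw [hτ] at h1
    have h2 : x⁻¹ * pw z τ * x = pw z τ := by
      rw [← hzc τ x⁻¹]; group
    rw [h2] at h1
    exact (mul_eq_left.mp h1.symm)
  have dd : d * d = 1 := by
    have h1 : y⁻¹ * (w * w) * y = (w * w) * (d * d) := by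
      calc y⁻¹ * (w * w) * y = (y⁻¹ * w * y) * (y⁻¹ * w * y) := by group
        _ = w * (d * w) * d := by rw [yw]; group
        _ = w * (w * d) * d := by rw [hwd.eq]
        _ = _ := by group
    rw [hτ] at h1
    have h2 : y⁻¹ * pw z τ * y = pw z τ := by
      rw [← hzc τ y⁻¹]; group
    rw [h2] at h1
    exact (mul_eq_left.mp h1.symm)
  have hg : ∀ t ∈ g3 H, ∀ g : H, ∃ b, g⁻¹ * t * g = t * pw z b := by
    intro t ht g
    have h1 : ⁅t⁻¹, g⁻¹⁆ ∈ g4 H := mem_g4 (inv_mem ht) _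
    obtain ⟨b, hb⟩ := mem_z hy.zz (hy.h4 h1)
    refine ⟨b, ?_⟩
    rw [← hb, commutatorElement_def]; group
  obtain ⟨α, hα⟩ := hg c hcm x
  obtain ⟨β, hβ⟩ := hg c hcm y
  obtain ⟨β', hβ'⟩ := hg d hdm x
  obtain ⟨γ, hγ⟩ := hg d hdm y
  have hββ : pw z β' = pw z β := by
    have h1 : x * y = y * x * w := by rw [hw]; group
    have h2 : (x * y)⁻¹ * w * (x * y) = w * (d * (c * pw z β)) := by
      calc (x * y)⁻¹ * w * (x * y) = y⁻¹ * (x⁻¹ * w * x) * y := by group
        _ = (y⁻¹ * w * y) * (y⁻¹ * c * y) := by rw [xw]; group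
        _ = _ := by rw [yw, hβ]; group
    have h3 : (y * x)⁻¹ * w * (y * x) = w * (c * (d * pw z β')) := by
      calc (y * x)⁻¹ * w * (y * x) = x⁻¹ * (y⁻¹ * w * y) * x := by group
        _ = (x⁻¹ * w * x) * (x⁻¹ * d * x) := by rw [yw]; group
        _ = _ := by rw [xw, hβ']; group
    have h4 : (x * y)⁻¹ * w * (x * y) = (y * x)⁻¹ * w * (y * x) := by
      rw [h1]
      have h5 : Commute w (w * (c * (d * pw z β'))) := by
        refine Commute.mul_right (Commute.refl w) (Commute.mul_right hwc (Commute.mul_right hwd ?_))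
        exact (hzc β' w).symm
      calc (y * x * w)⁻¹ * w * (y * x * w) = w⁻¹ * ((y * x)⁻¹ * w * (y * x)) * w := by group
        _ = w⁻¹ * (w * (c * (d * pw z β')) * w) := by rw [h3]; group
        _ = w⁻¹ * (w * (w * (c * (d * pw z β')))) := by rw [h5.eq]
        _ = _ := by rw [h3]; group
    rw [h2, h3] at h4
    have h6 := mul_left_cancel h4
    have h7 : (c * d) * pw z β = (c * d) * pw z β' := by
      calc (c * d) * pw z β = d * c * pw z β := by rw [hcd.eq]
        _ = d * (c * pw z β) := mul_assoc _ _ _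
        _ = c * (d * pw z β') := h6
        _ = _ := (mul_assoc _ _ _).symm
    exact (mul_left_cancel h7).symm
  refine ⟨w, c, d, τ, α, β, γ, ⟨hw.symm, hy.hz, hy.zz, hτ, cc, dd, hwc, hwd, hcd, xw, yw, hα, hβ,
    ?_, hγ⟩, hwm, hcm, hdm⟩
  rw [hβ', hββ]

variable {x y w c d z : H} {τ α β γ : Bool}

theorem Dat.comm_le [Finite H] (h : Dat x y w c d z τ α β γ)
    (hgen : Subgroup.closure {x, y} = ⊤) (g : H) (hg : g ∈ commutator H) :
    ∃ v, g = EE w c d z v := by
  let A : Subgroup H :=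
    { carrier := {g | ∃ v, g = EE w c d z v}
      mul_mem' := by
        rintro _ _ ⟨u, rfl⟩ ⟨v, rfl⟩
        exact ⟨_, h.mul u v⟩
      one_mem' := ⟨zeC, (EE_ze w c d z).symm⟩
      inv_mem' := by
        rintro _ ⟨v, rfl⟩
        refine ⟨(v.1, v.2.1, v.2.2.1, (τ && v.1) ^^ v.2.2.2), ?_⟩
        refine inv_eq_of_mul_eq_one_right ?_
        rw [h.mul, ← EE_ze w c d z]
        congr 1
        obtain ⟨k, i, j, l⟩ := v
        simp only [mulC, zeC]
        cases τ <;> cases k <;> cases i <;> cases j <;> cases l <;> rfl }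
  have hgen' := gen_inv x y hgen
  have hcl : ∀ b b', b ∈ A → IsConj b b' → b' ∈ A := by
    intro b b' hb hbb
    refine class_closed x⁻¹ y⁻¹ hgen' (fun t => t ∈ A) ?_ ?_ b b' hb hbb
    · rintro _ ⟨v, rfl⟩
      refine ⟨axC α β v, ?_⟩
      rw [inv_inv]; exact h.ax v
    · rintro _ ⟨v, rfl⟩
      refine ⟨ayC β γ v, ?_⟩
      rw [inv_inv]; exact h.ay v
  haveI : A.Normal := ⟨fun n hn g => hcl n _ hn (isConj_iff.mpr ⟨g, rfl⟩)⟩
  have hle := comm_le_of_gen x⁻¹ y⁻¹ hgen' A (by
    refine ⟨(true, false, false, false), ?_⟩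
    have : EE w c d z (true, false, false, false) = w := by simp [EE]
    rw [this, ← h.hw, commutatorElement_def]; group)
  exact hle hg

theorem Dat.zero [Finite H] (h : Dat x y w c d z false false false false)
    (hgen : Subgroup.closure {x, y} = ⊤) : (∀ c ∈ commutator H, c * c = 1) ∧ g4 H = ⊥ := by
  constructor
  · intro g hg
    obtain ⟨v, rfl⟩ := h.comm_le hgen g hg
    rw [h.mul, ← EE_ze w c d z]
    congr 1
    obtain ⟨k, i, j, l⟩ := v
    simp [mulC, zeC]
  · have hgen' := gen_inv x y hgen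
    have hcen : ∀ t : H, x⁻¹ * t * x = t → y⁻¹ * t * y = t → t ∈ Subgroup.center H := by
      intro t hx hy
      rw [Subgroup.mem_center_iff]
      intro g
      have cx : Commute x t := by
        show x * t = t * x
        calc x * t = x * (x⁻¹ * t * x) := by rw [hx]
          _ = _ := by group
      have cy : Commute y t := by
        show y * t = t * y
        calc y * t = y * (y⁻¹ * t * y) := by rw [hy]
          _ = _ := by group
      exact conj_of_conj x y hgen (fun g => Commute g t) (Commute.one_left t) cx cy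
        (fun a b ha hb => ha.mul_left hb) (fun a ha => ha.inv_left) g
    have hw : ⁅x⁻¹, y⁻¹⁆ = w := by rw [← h.hw, commutatorElement_def]; group
    have h1 : ⁅⁅x⁻¹, y⁻¹⁆, x⁻¹⁆ = c⁻¹ := by
      rw [hw, commutatorElement_def]
      calc w * x⁻¹ * w⁻¹ * (x⁻¹)⁻¹ = w * (x⁻¹ * w * x)⁻¹ := by group
        _ = w * (c * w)⁻¹ := by rw [h.xw, h.wc.eq]
        _ = _ := by group
    have h2 : ⁅⁅x⁻¹, y⁻¹⁆, y⁻¹⁆ = d⁻¹ := by
      rw [hw, commutatorElement_def]
      calc w * y⁻¹ * w⁻¹ * (y⁻¹)⁻¹ = w * (y⁻¹ * w * y)⁻¹ := by group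
        _ = w * (d * w)⁻¹ := by rw [h.yw, h.wd.eq]
        _ = _ := by group
    have h3 : g3 H ≤ Subgroup.center H := by
      refine g3_le_of_gen x⁻¹ y⁻¹ hgen' _ ?_ ?_
      · rw [h1]
        exact inv_mem (hcen c (by simpa using h.xc) (by simpa using h.yc))
      · rw [h2]
        exact inv_mem (hcen d (by simpa using h.xd) (by simpa using h.yd))
    unfold g4
    rw [Subgroup.commutator_eq_bot_iff_le_centralizer, Subgroup.coe_top,
      Subgroup.centralizer_univ]
    exact h3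

end

end Pool.Agent.Run7.h548.AC
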