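import Mathlib
import Pool.Agent.Run7.h548.AC.A10

/-!
Two generators, `p = 2`, non-cyclic case: conclusion.
-/

set_option autoImplicit false

open scoped commutatorElement

namespace Pool.Agent.Run7.h548.AC

open Pool.Agent.Helper832.AutC

section

variable {H : Type} [Group H] {x y w c d z : H} {τ α β γ : Bool}

/-- the coefficient of `w` vanishes -/
theorem Dat.kern (h : Dat x y w c d z τ α β γ) (hd : d ∉ Subgroup.zpowers z) (v : Code)
    (hv : EE w c d z v = z) : v.1 = false := by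
  have h2 : y⁻¹ * z * y = z := by
    rw [← h.hz y⁻¹]; group
  have h1 : EE w c d z v = EE w c d z (ayC β γ v) := by
    rw [← h.ay v, hv, h2]
  obtain ⟨k, i, j, l⟩ := v
  cases k
  · rfl
  · exfalso
    simp only [EE, ayC] at h1
    have h3 := mul_left_cancel h1
    apply hd
    have hm := pw_mem z
    cases j
    · simp only [pw_false, one_mul, Bool.true_xor, Bool.not_false, pw_true] at h3
      have h4 : d * pw z (((β && i) ^^ (γ && false)) ^^ l) ∈ Subgroup.zpowers z := by
        rw [← h3]; exact hm l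
      exact (Subgroup.mul_mem_cancel_right _ (hm _)).mp h4
    · simp only [pw_false, one_mul, Bool.true_xor, Bool.not_true, pw_true] at h3
      have h4 : d * pw z l ∈ Subgroup.zpowers z := by
        rw [h3]; exact hm _
      exact (Subgroup.mul_mem_cancel_right _ (hm _)).mp h4

theorem Dat.kern2 (h : Dat x y w c d z τ α β γ) (z1 : z ≠ 1) (hc : c ∉ Subgroup.zpowers z)
    (hd : d ∉ Subgroup.zpowers z) (hcd : c * d ∉ Subgroup.zpowers z) (v : Code)
    (hv : EE w c d z v = z) : v = zC := by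
  have h1 := h.kern hd v hv
  have hm := pw_mem z
  have hz := Subgroup.mem_zpowers z
  obtain ⟨k, i, j, l⟩ := v
  have h2 : k = false := h1
  subst h2
  simp only [EE, pw_false, one_mul] at hv
  have h3 : pw c i * pw d j ∈ Subgroup.zpowers z := by
    have h4 : pw c i * pw d j * pw z l ∈ Subgroup.zpowers z := by
      rw [mul_assoc, hv]; exact hz
    exact (Subgroup.mul_mem_cancel_right _ (hm l)).mp h4
  cases i <;> cases j
  · cases l
    · simp only [pw_false, one_mul] at hv
      exact absurd hv.symm z1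
    · rfl
  · exact absurd (by simpa using h3) hd
  · exact absurd (by simpa using h3) hc
  · exact absurd (by simpa using h3) hcd

theorem Dat.kern1 (h : Dat x y w c d z τ α β γ) (z1 : z ≠ 1) (κ : Bool) (hc : c = pw z κ)
    (hd : d ∉ Subgroup.zpowers z) (v : Code)
    (hv : EE w c d z v = z) : v = zC ∨ v = (false, true, false, !κ) := by
  have h1 := h.kern hd v hv
  have hm := pw_mem z
  have hz := Subgroup.mem_zpowers z
  obtain ⟨k, i, j, l⟩ := v
  have h2 : k = false := h1
  subst h2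
  simp only [EE, pw_false, one_mul] at hv
  have h3 : pw d j ∈ Subgroup.zpowers z := by
    have hci : pw c i ∈ Subgroup.zpowers z := by
      cases i
      · exact one_mem _
      · rw [hc]; exact hm κ
    have h4 : pw c i * (pw d j * pw z l) ∈ Subgroup.zpowers z := by
      rw [hv]; exact hz
    exact (Subgroup.mul_mem_cancel_right _ (hm l)).mp ((Subgroup.mul_mem_cancel_left _ hci).mp h4)
  cases j
  · simp only [pw_false, one_mul] at hv
    cases i
    · left
      cases l
      · simp only [pw_false, one_mul] at hv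
        exact absurd hv.symm z1
      · rfl
    · right
      rw [pw_true, hc, pw_xor h.zz] at hv
      have h5 : (κ ^^ l) = true := by
        by_contra h6
        rw [Bool.not_eq_true] at h6
        rw [h6, pw_false] at hv
        exact z1 hv.symm
      have h6 : l = !κ := by revert h5; cases κ <;> cases l <;> simp
      rw [h6]
  · exact absurd (by simpa using h3) hd

theorem Hyp.mem_EE {z : H} (hy : Hyp z) (hw : w ∈ commutator H) (hc : c ∈ commutator H)
    (hd : d ∈ commutator H) (v : Code) : EE w c d z v ∈ commutator H := by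
  have hm : ∀ a ∈ commutator H, ∀ b, pw a b ∈ commutator H := by
    intro a ha b
    cases b
    · exact one_mem _
    · exact ha
  exact mul_mem (mul_mem (hm w hw _) (hm c hc _)) (mul_mem (hm d hd _) (hm z hy.zm _))

/-- the degenerate case -/
theorem Hyp.R1 [Finite H] {z : H} (hy : Hyp z) (hR : Real2 H) (x y : H)
    (hgen : Subgroup.closure {x, y} = ⊤)
    (hcz : (x⁻¹ * y⁻¹ * x * y)⁻¹ * (x⁻¹ * (x⁻¹ * y⁻¹ * x * y) * x) ∈ Subgroup.zpowers z) :
    False := by
  obtain ⟨w, c, d, τ, α, β, γ, h, hwm, hcm, hdm⟩ := hy.dat x y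
  rw [h.hw, h.xw, inv_mul_cancel_left] at hcz
  obtain ⟨κ, hκ⟩ := mem_z hy.zz hcz
  have hcen : ∀ g : H, g⁻¹ * c * g = c := by
    intro g
    rw [hκ]
    cases κ
    · simp
    · rw [pw_true, ← hy.hz g⁻¹]; group
  have hd : d ∉ Subgroup.zpowers z := by
    intro hdz
    apply hy.h3
    have hn : (Subgroup.zpowers z).Normal := by
      constructor
      intro n hn g
      obtain ⟨b, rfl⟩ := mem_z hy.zz hn
      have : g * pw z b * g⁻¹ = pw z b := by
        cases b
        · simp
        · rw [pw_true, ← hy.hz g]; group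
      rw [this]; exact hn
    have hgen' := gen_inv x y hgen
    have hw : ⁅x⁻¹, y⁻¹⁆ = w := by rw [← h.hw, commutatorElement_def]; group
    refine g3_le_of_gen x⁻¹ y⁻¹ hgen' _ ?_ ?_
    · have h1 : ⁅⁅x⁻¹, y⁻¹⁆, x⁻¹⁆ = c⁻¹ := by
        rw [hw, commutatorElement_def]
        calc w * x⁻¹ * w⁻¹ * (x⁻¹)⁻¹ = w * (x⁻¹ * w * x)⁻¹ := by group
          _ = w * (c * w)⁻¹ := by rw [h.xw, h.wc.eq]
          _ = _ := by group
      rw [h1]; exact inv_mem hcz
    · have h2 : ⁅⁅x⁻¹, y⁻¹⁆, y⁻¹⁆ = d⁻¹ := by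
        rw [hw, commutatorElement_def]
        calc w * y⁻¹ * w⁻¹ * (y⁻¹)⁻¹ = w * (y⁻¹ * w * y)⁻¹ := by group
          _ = w * (d * w)⁻¹ := by rw [h.yw, h.wd.eq]
          _ = _ := by group
      rw [h2]; exact inv_mem hdz
  have hα : α = false := by
    by_contra h1
    rw [Bool.not_eq_false] at h1
    have h2 := h.xc
    rw [hcen, h1, pw_true] at h2
    exact hy.z1 (mul_eq_left.mp h2.symm)
  have hβ : β = false := by
    by_contra h1
    rw [Bool.not_eq_false] at h1
    have h2 := h.yc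
    rw [hcen, h1, pw_true] at h2
    exact hy.z1 (mul_eq_left.mp h2.symm)
  subst hα hβ
  by_cases h0 : τ = false ∧ κ = true ∧ γ = false
  · obtain ⟨rfl, _, rfl⟩ := h0
    exact hy.nt (h.zero hgen)
  · obtain ⟨L, S, u, v, hg, h1, h2⟩ := r1 τ κ γ h0
    obtain ⟨s, hs, hsz⟩ := h.test hR hgen (hy.mem_EE hwm (g3_le hcm) (g3_le hdm)) L S u v hg
    rcases h.kern1 hy.z1 κ hκ hd s hsz with h3 | h3
    · rw [h3] at hs; exact h1 hs
    · rw [h3] at hs; exact h2 hs

theorem Hyp.core [Finite H] {z : H} (hy : Hyp z) (hR : Real2 H) (x y : H)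
    (hgen : Subgroup.closure {x, y} = ⊤) : False := by
  obtain ⟨w, c, d, τ, α, β, γ, h, hwm, hcm, hdm⟩ := hy.dat x y
  have hzm := pw_mem z
  have hc : c ∉ Subgroup.zpowers z := by
    intro hc
    refine hy.R1 hR x y hgen ?_
    rw [h.hw, h.xw, inv_mul_cancel_left]
    exact hc
  have hd : d ∉ Subgroup.zpowers z := by
    intro hd
    refine hy.R1 hR y x (by rw [Set.pair_comm]; exact hgen) ?_
    have h1 : y⁻¹ * x⁻¹ * y * x = w⁻¹ := by rw [← h.hw]; group
    have h2 : y⁻¹ * w⁻¹ * y = (w * d)⁻¹ := by rw [← h.yw]; group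
    rw [h1, h2, h.wd.eq]
    have h3 : (w⁻¹)⁻¹ * (d * w)⁻¹ = d⁻¹ := by group
    rw [h3]; exact inv_mem hd
  have hcd : c * d ∉ Subgroup.zpowers z := by
    intro hcd
    have hgen2 : Subgroup.closure {x * y, y} = ⊤ := by
      rw [eq_top_iff, ← hgen, Subgroup.closure_le]
      have hy : y ∈ Subgroup.closure ({x * y, y} : Set H) :=
        Subgroup.subset_closure (Or.inr rfl)
      have hxy : x * y ∈ Subgroup.closure ({x * y, y} : Set H) :=
        Subgroup.subset_closure (Or.inl rfl)
      rintro k (hk | hk)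
      · have e1 : k = (x * y) * y⁻¹ := by rw [hk]; group
        rw [e1]
        exact mul_mem hxy (inv_mem hy)
      · have e1 : k = y := hk
        rw [e1]; exact hy
    refine hy.R1 hR (x * y) y hgen2 ?_
    have h1 : (x * y)⁻¹ * y⁻¹ * (x * y) * y = w * d := by
      rw [← h.yw, ← h.hw]; group
    have hzc : ∀ b k, pw z b * k = k * pw z b := fun b k => (h.zcen b k).eq
    have h2 : (x * y)⁻¹ * (w * d) * (x * y) = w * c * pw z γ := by
      calc (x * y)⁻¹ * (w * d) * (x * y) = y⁻¹ * ((x⁻¹ * w * x) * (x⁻¹ * d * x)) * y := by group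
        _ = (y⁻¹ * w * y) * (y⁻¹ * c * y) * (y⁻¹ * d * y) * (y⁻¹ * pw z β * y) := by
            rw [h.xw, h.xd]; group
        _ = (w * d) * (c * pw z β) * (d * pw z γ) * pw z β := by
            rw [h.yw, h.yc, h.yd, ← hzc β y⁻¹]; group
        _ = (w * d) * c * (pw z β * (d * pw z γ)) * pw z β := by group
        _ = (w * d) * c * ((d * pw z γ) * pw z β) * pw z β := by rw [hzc]
        _ = w * (d * c) * d * pw z γ * (pw z β * pw z β) := by group
        _ = w * (c * d) * d * pw z γ := by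
            rw [pw_xor h.zz, ← h.cd.eq]; simp
        _ = w * c * (d * d) * pw z γ := by group
        _ = _ := by rw [h.dd]; group
    rw [h1, h2]
    have h3 : (w * d)⁻¹ * (w * c * pw z γ) = d⁻¹ * c * pw z γ := by group
    have h4 : d⁻¹ = d := inv_eq_of_mul_eq_one_left h.dd
    rw [h3, h4, ← h.cd.eq]
    exact mul_mem hcd (hzm γ)
  by_cases h0 : (τ || α || β || γ) = true
  · obtain ⟨L, S, u, v, hg, h1⟩ := r2 τ α β γ h0
    obtain ⟨s, hs, hsz⟩ := h.test hR hgen (hy.mem_EE hwm (g3_le hcm) (g3_le hdm)) L S u v hg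
    rw [h.kern2 hy.z1 hc hd hcd s hsz] at hs
    exact h1 hs
  · have h1 : τ = false ∧ α = false ∧ β = false ∧ γ = false := by
      revert h0; cases τ <;> cases α <;> cases β <;> cases γ <;> simp
    obtain ⟨rfl, rfl, rfl, rfl⟩ := h1
    exact hy.nt (h.zero hgen)

end

section

variable {G : Type} [Group G]

theorem two_caseB [Finite G] (hG : IsPGroup 2 G) (hR : Real2 G) (x y : G)
    (hgen : Subgroup.closure {x, y} = ⊤) (h3 : ¬ g3 G ≤ NN 2 G) : NN 2 G = ⊥ := by
  classical
  haveI : Fact (Nat.Prime 2) := ⟨Nat.prime_two⟩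
  haveI : Group.IsNilpotent G := hG.isNilpotent
  by_contra hne
  set N := NN 2 G with hN
  let K : Subgroup G := ⁅N, (⊤ : Subgroup G)⁆
  have hKN : K ≤ N := Subgroup.commutator_le_left N ⊤
  have hKN' : ¬ N ≤ K := fun h => hne (nil_bot N h)
  -- a maximal subgroup between
  let F : Set (Subgroup G) := {M | K ≤ M ∧ M < N}
  have hF : F.Nonempty := ⟨K, le_rfl, lt_of_le_not_ge hKN hKN'⟩
  obtain ⟨M, hM⟩ := F.toFinite.exists_maximal hF
  obtain ⟨⟨hKM, hMN⟩, hmax⟩ := hM
  haveI hMn : M.Normal := by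
    constructor
    intro m hm g
    have e1 : g * m * g⁻¹ = ⁅g, m⁆ * m := by rw [commutatorElement_def]; group
    rw [e1]
    refine mul_mem (hKM ?_) hm
    rw [← commutatorElement_inv]
    exact inv_mem (Subgroup.commutator_mem_commutator (hMN.le hm) (Subgroup.mem_top g))
  have hMc : M ≤ commutator G := hMN.le.trans (NN_le 2)
  obtain ⟨n, hnN, hnM⟩ := SetLike.exists_of_lt hMN
  have hcover : ∀ m ∈ N, m ∉ M → N ≤ Subgroup.zpowers m ⊔ M := by
    intro m hm hmM
    by_contra hcon
    have h1 : Subgroup.zpowers m ⊔ M ≤ N := sup_le (by rw [Subgroup.zpowers_le]; exact hm) hMN.le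
    have h2 : (Subgroup.zpowers m ⊔ M) ∈ F := ⟨hKM.trans le_sup_right, lt_of_le_not_ge h1 hcon⟩
    have h4 := hmax h2 le_sup_right
    exact hmM (h4 ((le_sup_left : _ ≤ Subgroup.zpowers m ⊔ M) (Subgroup.mem_zpowers m)))
  let π := QuotientGroup.mk' M
  have hπs : Function.Surjective π := QuotientGroup.mk'_surjective M
  have hπ : ∀ g, π g = 1 ↔ g ∈ M := fun g => QuotientGroup.eq_one_iff g
  have hmap : ∀ m ∈ N, m ∉ M → ∀ k ∈ N, π k ∈ Subgroup.zpowers (π m) := by
    intro m hm hmM k hk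
    have h1 := hcover m hm hmM hk
    have h2 : k ∈ ((Subgroup.zpowers m ⊔ M : Subgroup G) : Set G) := h1
    rw [Subgroup.mul_normal] at h2
    obtain ⟨a, ⟨r, rfl⟩, b, hb, rfl⟩ := h2
    refine ⟨r, ?_⟩
    show π m ^ r = π (m ^ r * b)
    rw [map_mul, (hπ b).mpr hb, mul_one, map_zpow]
  -- the square
  have hsq : n * n ∈ M := by
    by_contra hcon
    obtain ⟨r, hr⟩ := hmap (n * n) (mul_mem hnN hnN) hcon n hnN
    have h1 : n ^ (2 * r - 1) ∈ M := by
      rw [← hπ, map_zpow, zpow_sub, zpow_mul, zpow_two, zpow_one]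
      have h2 : (π n * π n) ^ r = π n := by
        rw [← map_mul]; exact hr
      rw [h2, mul_inv_cancel]
    exact hnM (mem_of_zpow_mem hG M n (2 * r - 1) (by omega) h1)
  have hz : ∀ q : G ⧸ M, π n * q = q * π n := by
    intro q
    obtain ⟨g, rfl⟩ := hπs q
    show π n * π g = π g * π n
    rw [← commutatorElement_eq_one_iff_mul_comm, ← map_commutatorElement, hπ]
    exact hKM (Subgroup.commutator_mem_commutator hnN (Subgroup.mem_top g))
  have hcomm : (commutator G).map π = commutator (G ⧸ M) := map_comm_top M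
  have hy : Hyp (π n) := by
    refine ⟨hz, fun h => hnM ((hπ n).mp h), ?_, ?_, ?_, ?_, ?_, ?_⟩
    · rw [← map_mul]; exact (hπ _).mpr hsq
    · rw [← hcomm]; exact ⟨n, NN_le 2 hnN, rfl⟩
    · intro c hc
      rw [← hcomm] at hc
      obtain ⟨c, hc, rfl⟩ := hc
      rw [← map_mul]
      refine hmap n hnN hnM _ ?_
      rw [← pow_two]
      exact (le_sup_left : _ ≤ NN 2 G) (pow_mem_pw2 2 hc)
    · rw [← map_g4]
      rintro _ ⟨c, hc, rfl⟩
      exact hmap n hnN hnM _ ((le_sup_right : _ ≤ NN 2 G) hc)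
    · rintro ⟨h1, h2⟩
      apply hnM
      have h4 : NN 2 G ≤ M := by
        refine sup_le ?_ ?_
        · unfold pw2
          rw [Subgroup.closure_le]
          rintro _ ⟨c, hc, rfl⟩
          show c ^ 2 ∈ M
          rw [← hπ, map_pow, pow_two]
          exact h1 _ (by rw [← hcomm]; exact ⟨c, hc, rfl⟩)
        · intro g hg
          have h5 : π g ∈ (g4 G).map π := ⟨g, hg, rfl⟩
          rw [map_g4, h2, Subgroup.mem_bot] at h5
          exact (hπ g).mp h5
      exact h4 hnN
    · intro h1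
      apply h3
      intro g hg
      have h5 : π g ∈ (g3 G).map π := ⟨g, hg, rfl⟩
      rw [map_g3] at h5
      obtain ⟨r, hr⟩ := h1 h5
      have h6 : (n ^ r)⁻¹ * g ∈ M := by
        rw [← hπ, map_mul, map_inv, map_zpow]
        have hr' : π n ^ r = π g := hr
        rw [hr', inv_mul_cancel]
      have h7 : g = n ^ r * ((n ^ r)⁻¹ * g) := by group
      rw [h7]
      exact mul_mem (zpow_mem hnN r) (hMN.le h6)
  exact hy.core (real2_quot hG hR M hMc) (π x) (π y) (gen_pair_quot x y hgen M)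

/-- two generators, `p = 2` -/
theorem two_nec [Finite G] (hG : IsPGroup 2 G) (hR : Real2 G) (x y : G)
    (hgen : Subgroup.closure {x, y} = ⊤) :
    (IsCyclic (commutator G) ∧ ∀ c ∈ commutator G, ∀ g, ∃ d ∈ commutator G, ⁅c, g⁆ = d ^ 4) ∨
    (g4 G = ⊥ ∧ ∀ c ∈ commutator G, c ^ 2 = 1) := by
  haveI : Fact (Nat.Prime 2) := ⟨Nat.prime_two⟩
  by_cases h : g3 G ≤ NN 2 G
  · left
    have h1 := cyc_of_le hG x y hgen h
    exact ⟨cyc_of_eq _ h1, fun c hc g => two_cyc_cond hG hR x y hgen h1 c hc g⟩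
  · right
    have h1 := two_caseB hG hR x y hgen h
    constructor
    · rw [eq_bot_iff, ← h1]; exact le_sup_right
    · intro c hc
      have h2 : c ^ 2 ∈ NN 2 G := (le_sup_left : _ ≤ NN 2 G) (pow_mem_pw2 2 hc)
      rwa [h1, Subgroup.mem_bot] at h2

end

end Pool.Agent.Run7.h548.AC
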