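import Mathlib
import Pool.Agent.Run7.h548.AC.A11

/-!
Local form of the condition `x^G = x γ₂(G)` outside the Frattini subgroup, and assembly.
-/

set_option autoImplicit false

open scoped commutatorElement

namespace Pool.Agent.Run7.h548.AC

open Pool.Agent.Helper832.AutC

section

variable {G : Type} [Group G]

theorem mem_frattini (g : G) (h : ∀ M : Subgroup G, IsCoatom M → g ∈ M) : g ∈ frattini G := by
  have h1 : Subgroup.zpowers g ≤ frattini G := by
    refine le_iInf₂ (fun M hM => ?_)
    rw [Subgroup.zpowers_le]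
    exact h M hM
  exact h1 (Subgroup.mem_zpowers g)

theorem frattini_of_quot (N : Subgroup G) [N.Normal] (hN : N ≤ frattini G) (x : G)
    (hx : QuotientGroup.mk' N x ∈ frattini (G ⧸ N)) : x ∈ frattini G := by
  let π := QuotientGroup.mk' N
  have hπs : Function.Surjective π := QuotientGroup.mk'_surjective N
  have hker : π.ker = N := QuotientGroup.ker_mk' N
  apply mem_frattini
  intro M hM
  have hNM : N ≤ M := hN.trans (frattini_le_coatom hM)
  have hcm : (M.map π).comap π = M := by
    rw [Subgroup.comap_map_eq, hker, sup_eq_left]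
    exact hNM
  have hco : IsCoatom (M.map π) := by
    constructor
    · intro h
      apply hM.1
      rw [← hcm, h, Subgroup.comap_top]
    · intro L hL
      have h1 : M < L.comap π := by
        refine lt_of_le_of_ne ?_ ?_
        · rw [← hcm]; exact Subgroup.comap_mono hL.le
        · intro h
          have h2 : M.map π = L := by
            rw [h, Subgroup.map_comap_eq_self_of_surjective hπs]
          exact hL.ne h2
      have h2 := hM.2 _ h1
      rw [← Subgroup.map_comap_eq_self_of_surjective hπs L, h2,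
        Subgroup.map_top_of_surjective _ hπs]
  have h3 : π x ∈ M.map π := frattini_le_coatom hco hx
  rw [← hcm]
  exact h3

theorem local_iff {p : ℕ} [hp : Fact p.Prime] [Finite G] (hG : IsPGroup p G)
    (hcc : commutator G ≤ Subgroup.center G) :
    (∀ x : G, x ∉ frattini G → ∀ c ∈ commutator G, IsConj x (x * c)) ↔
      ∀ (N : Subgroup G) [N.Normal], N ⋖ commutator G →
        Subgroup.center (G ⧸ N) ≤ frattini (G ⧸ N) := by
  classical
  constructor
  · intro h N hNn hN q hq
    obtain ⟨x, rfl⟩ := QuotientGroup.mk'_surjective N q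
    have hx : x ∈ frattini G := by
      by_contra hx
      obtain ⟨c, hc, hcN⟩ := SetLike.exists_of_lt hN.lt
      obtain ⟨g, hg⟩ := isConj_iff.mp (h x hx c hc)
      have h1 := congrArg (QuotientGroup.mk' N) hg
      have h2 := Subgroup.mem_center_iff.mp hq (QuotientGroup.mk' N g)
      rw [map_mul, map_mul, map_mul, map_inv, h2, mul_inv_cancel_right] at h1
      exact hcN ((QuotientGroup.eq_one_iff c).mp (mul_eq_left.mp h1.symm))
    exact frattini_le_comap_frattini_of_surjective (QuotientGroup.mk'_surjective N) hx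
  · intro h x hx c hc
    have hcz : ∀ c ∈ commutator G, ∀ g, c * g = g * c := fun c hc g =>
      (Subgroup.mem_center_iff.mp (hcc hc) g).symm
    have hm : ∀ t g : G, g * x * g⁻¹ = x * t → t ∈ commutator G := by
      intro t g hg
      have : t = x⁻¹ * (g * x * g⁻¹) := by rw [hg]; group
      rw [this]
      exact conj_diff (isConj_iff.mpr ⟨g, rfl⟩)
    let T : Subgroup G :=
      { carrier := {t | ∃ g, g * x * g⁻¹ = x * t}
        mul_mem' := by
          rintro a b ⟨g, hg⟩ ⟨k, hk⟩
          refine ⟨g * k, ?_⟩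
          have hb := hm b k hk
          calc g * k * x * (g * k)⁻¹ = g * (k * x * k⁻¹) * g⁻¹ := by group
            _ = g * x * (b * g⁻¹) := by rw [hk]; group
            _ = (g * x * g⁻¹) * b := by rw [hcz b hb]; group
            _ = _ := by rw [hg]; group
        one_mem' := ⟨1, by group⟩
        inv_mem' := by
          rintro a ⟨g, hg⟩
          refine ⟨g⁻¹, ?_⟩
          have ha := hm a g hg
          have e1 : x = (g⁻¹ * x * g) * a := by
            calc x = g⁻¹ * (g * x * g⁻¹) * g := by group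
              _ = g⁻¹ * x * (a * g) := by rw [hg]; group
              _ = _ := by rw [hcz a ha]; group
          calc g⁻¹ * x * (g⁻¹)⁻¹ = ((g⁻¹ * x * g) * a) * a⁻¹ := by group
            _ = _ := by rw [← e1] }
    have hT : T ≤ commutator G := by
      rintro t ⟨g, hg⟩
      exact hm t g hg
    by_cases hTc : commutator G ≤ T
    · obtain ⟨g, hg⟩ := hTc hc
      exact isConj_iff.mpr ⟨g, hg⟩
    · exfalso
      apply hx
      let F : Set (Subgroup G) := {M | T ≤ M ∧ M < commutator G}
      have hF : F.Nonempty := ⟨T, le_rfl, lt_of_le_not_ge hT hTc⟩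
      obtain ⟨N, hN⟩ := F.toFinite.exists_maximal hF
      obtain ⟨⟨hTN, hNc⟩, hmax⟩ := hN
      haveI hNn : N.Normal := by
        constructor
        intro n hn g
        rw [← hcz n (hNc.le hn), mul_inv_cancel_right]
        exact hn
      have hcov : N ⋖ commutator G := by
        refine ⟨hNc, ?_⟩
        intro L hNL hLc
        have h1 : L ∈ F := ⟨hTN.trans hNL.le, hLc⟩
        exact absurd (hmax h1 hNL.le) (not_le_of_gt hNL)
      have h1 := h N hcov
      refine frattini_of_quot N (hNc.le.trans (comm_le_frattini hG)) x (h1 ?_)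
      rw [Subgroup.mem_center_iff]
      intro q
      obtain ⟨g, rfl⟩ := QuotientGroup.mk'_surjective N q
      have h2 : x⁻¹ * (g * x * g⁻¹) ∈ N := hTN ⟨g, by group⟩
      have h3 : QuotientGroup.mk' N (x⁻¹ * (g * x * g⁻¹)) = 1 := (QuotientGroup.eq_one_iff _).mpr h2
      rw [map_mul, map_mul, map_mul, map_inv, map_inv] at h3
      generalize QuotientGroup.mk' N x = X at *
      generalize QuotientGroup.mk' N g = Y at *
      have h4 : Y * X * Y⁻¹ = X := by
        calc Y * X * Y⁻¹ = X * (X⁻¹ * (Y * X * Y⁻¹)) := by group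
          _ = X := by rw [h3, mul_one]
      calc Y * X = (Y * X * Y⁻¹) * Y := by group
        _ = _ := by rw [h4]

theorem nec {p : ℕ} [hp : Fact p.Prime] [Finite G] (hG : IsPGroup p G)
    (h : Nat.card (AutC G) = Nat.card (commutator G) ^ Group.rank G) :
    (commutator G ≤ Subgroup.center G ∧
        ∀ x : G, x ∉ frattini G → ∀ c ∈ commutator G, IsConj x (x * c)) ∨
      ((∃ x y : G, Subgroup.closure {x, y} = ⊤) ∧ IsCyclic (commutator G) ∧
        (p = 2 → ∀ c ∈ commutator G, ∀ g : G, ∃ d ∈ commutator G, ⁅c, g⁆ = d ^ 4)) ∨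
      (p = 2 ∧ (∃ x y : G, Subgroup.closure {x, y} = ⊤) ∧ g4 G = ⊥ ∧
        ∀ c ∈ commutator G, c ^ 2 = 1) := by
  obtain ⟨x, hx⟩ := rank_gen (G := G)
  have hR := real_of_card h
  have hcj := conj_of_real hG x hx hR
  by_cases h1 : Group.rank G ≤ 1
  · left
    have hb := comm_bot_of_rank h1
    refine ⟨by rw [hb]; exact bot_le, ?_⟩
    intro x _ c hc
    rw [hb, Subgroup.mem_bot] at hc
    rw [hc, mul_one]
  by_cases h2 : Group.rank G = 2
  · right
    generalize Group.rank G = r at *
    subst h2
    have hR2 := real2_iff.mp hR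
    have hr : Set.range x = {x 0, x 1} := by
      ext t
      simp [Fin.exists_fin_two, eq_comm]
    have hgen : Subgroup.closure {x 0, x 1} = ⊤ := by rw [← hr]; exact hx
    by_cases hp2 : p = 2
    · subst hp2
      rcases two_nec hG hR2 (x 0) (x 1) hgen with ⟨h3, h4⟩ | ⟨h3, h4⟩
      · exact Or.inl ⟨⟨x 0, x 1, hgen⟩, h3, fun _ => h4⟩
      · exact Or.inr ⟨rfl, ⟨x 0, x 1, hgen⟩, h3, h4⟩
    · left
      exact ⟨⟨x 0, x 1, hgen⟩, cyc_of_eq _ (odd_cyc hp2 hG hR2 (x 0) (x 1) hgen),
        fun h => absurd h hp2⟩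
  · left
    obtain ⟨n, hn⟩ : ∃ n, Group.rank G = n + 3 := ⟨Group.rank G - 3, by omega⟩
    refine ⟨?_, fun g hg c hc => hcj g hg c hc⟩
    clear hcj h h1 h2
    generalize Group.rank G = r at *
    subst hn
    exact class_two hG x hx hR

/-- the classification -/
theorem classification {p : ℕ} [hp : Fact p.Prime] [Finite G] (hG : IsPGroup p G) :
    Nat.card (AutC G) = Nat.card (commutator G) ^ Group.rank G ↔
    ((commutator G ≤ Subgroup.center G ∧
        ∀ x : G, x ∉ frattini G → ∀ c ∈ commutator G, IsConj x (x * c)) ∨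
      ((∃ x y : G, Subgroup.closure {x, y} = ⊤) ∧ IsCyclic (commutator G) ∧
        (p = 2 → ∀ c ∈ commutator G, ∀ g : G, ∃ d ∈ commutator G, ⁅c, g⁆ = d ^ 4)) ∨
      (p = 2 ∧ (∃ x y : G, Subgroup.closure {x, y} = ⊤) ∧ g4 G = ⊥ ∧
        ∀ c ∈ commutator G, c ^ 2 = 1)) := by
  constructor
  · exact nec hG
  · rintro (⟨h1, h2⟩ | ⟨⟨x, y, hxy⟩, h1, h2⟩ | ⟨rfl, ⟨x, y, hxy⟩, h1, h2⟩)
    · exact suffA hG h1 h2
    · exact suffB hG x y hxy h1 h2
    · exact suffC hG x y hxy h1 h2

end

end Pool.Agent.Run7.h548.AC
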