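import Mathlib
import Pool.Agent.Run7.h548.AC.A12

/-!
`Z(G/N) = Φ(G/N)` for maximal subgroups `N` of `γ₂(G)`.
-/

set_option autoImplicit false

open scoped commutatorElement

namespace Pool.Agent.Run7.h548.AC

open Pool.Agent.Helper832.AutC

section

/-- if all commutators and `p`-th powers are central, then `Φ ≤ Z` -/
theorem frattini_le_center {Q : Type} [Group Q] {p : ℕ} [hp : Fact p.Prime] [Finite Q]
    (hQ : IsPGroup p Q) (hcc : commutator Q ≤ Subgroup.center Q)
    (hpw : ∀ q : Q, q ^ p ∈ Subgroup.center Q) : frattini Q ≤ Subgroup.center Q := by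
  classical
  intro x hx
  by_contra hxz
  let F : Set (Subgroup Q) := {M | Subgroup.center Q ≤ M ∧ x ∉ M}
  have hF : F.Nonempty := ⟨Subgroup.center Q, le_rfl, hxz⟩
  obtain ⟨M, hM⟩ := F.toFinite.exists_maximal hF
  obtain ⟨⟨hzM, hxM⟩, hmax⟩ := hM
  haveI hn : M.Normal := by
    constructor
    intro m hm g
    have e1 : g * m * g⁻¹ = ⁅g, m⁆ * m := by rw [commutatorElement_def]; group
    rw [e1]
    exact mul_mem (hzM (hcc (comm_mem g m))) hm
  have hco : IsCoatom M := by
    constructor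
    · intro h; exact hxM (by rw [h]; exact Subgroup.mem_top x)
    · intro L hL
      rw [eq_top_iff]
      intro g _
      by_contra hg
      have hin : ∀ K : Subgroup Q, M < K → x ∈ K := by
        intro K hK
        by_contra hxK
        exact absurd (hmax (⟨hzM.trans hK.le, hxK⟩ : K ∈ F) hK.le) (not_le_of_gt hK)
      have hgM : g ∉ M := fun h => hg (hL.le h)
      have h1 : M < Subgroup.zpowers g ⊔ M := by
        refine lt_of_le_not_ge le_sup_right ?_
        intro h
        exact hgM (h ((le_sup_left : _ ≤ Subgroup.zpowers g ⊔ M) (Subgroup.mem_zpowers g)))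
      have h2 : x ∈ ((Subgroup.zpowers g ⊔ M : Subgroup Q) : Set Q) := hin _ h1
      rw [Subgroup.mul_normal] at h2
      obtain ⟨a, ⟨k, rfl⟩, m, hm, hxm⟩ := h2
      have hxm' : g ^ k * m = x := hxm
      have hk : ¬ (p : ℤ) ∣ k := by
        rintro ⟨l, rfl⟩
        apply hxM
        rw [← hxm', zpow_mul, zpow_natCast]
        exact mul_mem (zpow_mem (hzM (hpw g)) l) hm
      have h3 : g ^ k ∈ L := by
        have : g ^ k = x * m⁻¹ := by rw [← hxm']; group
        rw [this]
        exact mul_mem (hin L hL) (inv_mem (hL.le hm))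
      exact hg (mem_of_zpow_mem hQ L g k hk h3)
  exact hxM (frattini_le_coatom hco hx)

variable {G : Type} [Group G]

theorem pow_mem_of_covBy {p : ℕ} [hp : Fact p.Prime] [Finite G] (hG : IsPGroup p G)
    (N : Subgroup G) [N.Normal] (hN : N ⋖ commutator G) (c : G) (hc : c ∈ commutator G) :
    c ^ p ∈ N := by
  by_contra hcp
  have h1 : N < Subgroup.zpowers (c ^ p) ⊔ N := by
    refine lt_of_le_not_ge le_sup_right ?_
    intro h
    exact hcp (h ((le_sup_left : _ ≤ Subgroup.zpowers (c ^ p) ⊔ N) (Subgroup.mem_zpowers _)))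
  have h2 : Subgroup.zpowers (c ^ p) ⊔ N ≤ commutator G :=
    sup_le (by rw [Subgroup.zpowers_le]; exact pow_mem hc p) hN.lt.le
  have h3 : Subgroup.zpowers (c ^ p) ⊔ N = commutator G := by
    by_contra h4
    exact hN.2 h1 (lt_of_le_of_ne h2 h4)
  have h4 : c ∈ ((Subgroup.zpowers (c ^ p) ⊔ N : Subgroup G) : Set G) := by
    rw [h3]; exact hc
  rw [Subgroup.mul_normal] at h4
  obtain ⟨a, ⟨k, rfl⟩, m, hm, hxm⟩ := h4
  have hxm' : (c ^ p) ^ k * m = c := hxm
  have hpk : ¬ (p : ℤ) ∣ 1 - p * k := by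
    intro h
    have h5 : (p : ℤ) ∣ 1 := by
      have := dvd_add h (dvd_mul_right (p : ℤ) k)
      simpa using this
    exact (Nat.prime_iff_prime_int.mp hp.out).not_isUnit (isUnit_of_dvd_one h5)
  have h5 : c ^ (1 - (p : ℤ) * k) ∈ N := by
    have e1 : c ^ (1 - (p : ℤ) * k) = ((c ^ p) ^ k)⁻¹ * c := by
      rw [← zpow_natCast, ← zpow_mul, ← zpow_neg, ← zpow_add_one]
      congr 1; ring
    have e2 : ((c ^ p) ^ k)⁻¹ * c = m := by
      rw [inv_mul_eq_iff_eq_mul]; exact hxm'.symm
    rw [e1, e2]; exact hm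
  have h6 := mem_of_zpow_mem hG N c _ hpk h5
  exact hcp (pow_mem h6 p)

theorem frattini_le_center_quot {p : ℕ} [hp : Fact p.Prime] [Finite G] (hG : IsPGroup p G)
    (hcc : commutator G ≤ Subgroup.center G) (N : Subgroup G) [N.Normal]
    (hN : N ⋖ commutator G) : frattini (G ⧸ N) ≤ Subgroup.center (G ⧸ N) := by
  have hcz : ∀ c ∈ commutator G, ∀ g, c * g = g * c := fun c hc g =>
    (Subgroup.mem_center_iff.mp (hcc hc) g).symm
  apply frattini_le_center (hG.to_quotient N)
  · rw [← map_comm_top]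
    rintro _ ⟨c, hc, rfl⟩
    rw [Subgroup.mem_center_iff]
    intro q
    obtain ⟨g, rfl⟩ := QuotientGroup.mk'_surjective N q
    rw [← map_mul, ← map_mul, hcz c hc]
  · intro q
    obtain ⟨x, rfl⟩ := QuotientGroup.mk'_surjective N q
    rw [Subgroup.mem_center_iff]
    intro r
    obtain ⟨y, rfl⟩ := QuotientGroup.mk'_surjective N r
    -- `[y, x^p] = [y, x]^p ∈ N`
    have e1 : y * x * y⁻¹ = ⁅y, x⁆ * x := by rw [commutatorElement_def]; group
    have e2 : y * x ^ p * y⁻¹ = ⁅y, x⁆ ^ p * x ^ p := by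
      rw [← conj_pow, e1, Commute.mul_pow (hcz _ (comm_mem y x) x)]
    have e3 : QuotientGroup.mk' N (⁅y, x⁆ ^ p) = 1 :=
      (QuotientGroup.eq_one_iff _).mpr (pow_mem_of_covBy hG N hN _ (comm_mem y x))
    have e4 := congrArg (QuotientGroup.mk' N) e2
    rw [map_mul, map_mul, map_mul, e3, one_mul, map_inv, map_pow] at e4
    calc QuotientGroup.mk' N y * QuotientGroup.mk' N x ^ p
        = (QuotientGroup.mk' N y * QuotientGroup.mk' N x ^ p * (QuotientGroup.mk' N y)⁻¹)
            * QuotientGroup.mk' N y := by group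
      _ = _ := by rw [e4]

theorem local_iff' {p : ℕ} [hp : Fact p.Prime] [Finite G] (hG : IsPGroup p G)
    (hcc : commutator G ≤ Subgroup.center G) :
    (∀ x : G, x ∉ frattini G → ∀ c ∈ commutator G, IsConj x (x * c)) ↔
      ∀ (N : Subgroup G) [N.Normal], N ⋖ commutator G →
        Subgroup.center (G ⧸ N) = frattini (G ⧸ N) := by
  rw [local_iff hG hcc]
  constructor
  · intro h N _ hN
    exact le_antisymm (h N hN) (frattini_le_center_quot hG hcc N hN)
  · intro h N _ hN
    exact (h N hN).le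

end

end Pool.Agent.Run7.h548.AC
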